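import Pool.Agent.Helper82.PN.ClsDefs

/-!
# Solids of revolution belong to the class: goal
-/

open MeasureTheory Set
open Pool.Agent.Helper47.AQ
open Pool.Agent.Helper82.PN.St (Cls2)

noncomputable section

namespace Pool.Agent.Helper82.PN

/-- **REVS**.  Solids of revolution (axis parallel to the coordinate `i₀`) belong to the class.
Proof.  `n ≤ 3`: `Cls2.small`.  Let `n = m + 1`, `m ≥ 3` (also `m ≥ 2` is fine), `e : Fin m ⊕ Unit ≃ Fin n`
with `e (inr ()) = i₀` (`inl j ↦ i₀.succAbove j`).  `K' = {z ∘ e | z ∈ K}`, an image of `K` under an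
affine equivalence (`LinearEquiv.funCongrLeft`), a body with: if `u ∈ K'`, `w (inr ()) = u (inr ())`,
`∑ j, w (inl j)^2 ≤ ∑ j, u (inl j)^2`, then `w ∈ K'`.  `B = {y | ∑ j, y j ^ 2 ≤ 1}` is unconditional
(convex, compact, `0` is an interior point), so `Cls2 B`, and `0 ∈ B`.  Let `[a,b]` be the image of `K'`
under the last coordinate (`a < b`: nonempty interior), and for `t ∈ [0,1]` let `f t` be the maximum of
`ρ u = √(∑ j, u (inl j)^2)` over the (compact, nonempty) section `{u ∈ K' | u (inr ()) = a + t (b-a)}`.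
`f ≥ 0` is concave on `[0,1]` (convexity of `K'` and the property above: with `u`, `u'` maximal at `t`,
`t'`, rotate them: the points `(ρ u e₁, ·)`, `(ρ u' e₁, ·)` are in `K'`, and so are their convex
combinations), positive somewhere (interior).  Continuous on `[0,1]`: upper semicontinuous by
compactness of `K'`; a concave function on `[0,1]` which is upper semicontinuous is continuous (lower
semicontinuous at an endpoint or interior point `t` by concavity: `f s ≥ (1-λ) f t + λ f c` for `s`
between `t` and a fixed `c`).  With `A (y, x) = (y, a + x (b-a))`: `A '' homSec B f = K'`: the section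
of `K'` at `a + t(b-a)` is `{y | ∑ y_j^2 ≤ (f t)^2} = f t • B`.  So `Cls2.homSec`, `Cls2.affine`. -/
def REVS : Prop := ∀ (n : ℕ) (i₀ : Fin n) (K : Set (Fin n → ℝ)), IsBody K →
  (∀ x ∈ K, ∀ y : Fin n → ℝ, y i₀ = x i₀ → ∑ i, y i ^ 2 ≤ ∑ i, x i ^ 2 → y ∈ K) → Cls2 K

end Pool.Agent.Helper82.PN
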