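import Pool.Agent.Helper82.PN.GoalsF

/-!
# Bodies with homothetic parallel sections (bodies of revolution): goals

`n = card ι` below is the dimension of `B`; the bodies live in `ℝ^(ι ⊕ Unit)`.
-/

open MeasureTheory Set
open scoped ENNReal
open Pool.Agent.Helper47.AQ

noncomputable section

namespace Pool.Agent.Helper82.PN

/-- Profiles: concave, decreasing, nonnegative, continuous on `[0,1]`. -/
structure Prof (R : ℝ → ℝ) : Prop where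
  conc : ConcaveOn ℝ (Icc 0 1) R
  anti : AntitoneOn R (Icc 0 1)
  nonneg : ∀ s ∈ Icc (0 : ℝ) 1, 0 ≤ R s
  cont : ContinuousOn R (Icc 0 1)

/-- The set of the `(y, x)` with `y ∈ s B` and `- L s ≤ x ≤ R s` for some `s ∈ [0,1]`. -/
def KLR {ι : Type} (B : Set (ι → ℝ)) (L R : ℝ → ℝ) : Set (ι ⊕ Unit → ℝ) :=
  {z | ∃ s ∈ Icc (0 : ℝ) 1, (∃ b ∈ B, ∀ i, z (Sum.inl i) = s * b i) ∧
    -(L s) ≤ z (Sum.inr ()) ∧ z (Sum.inr ()) ≤ R s}

/-- The body with the sections `f x • B`, `x ∈ [0,1]`. -/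
def rb {ι : Type} (B : Set (ι → ℝ)) (f : ℝ → ℝ) : Set (ι ⊕ Unit → ℝ) :=
  {z | z (Sum.inr ()) ∈ Icc (0 : ℝ) 1 ∧ ∃ b ∈ B, ∀ i, z (Sum.inl i) = f (z (Sum.inr ())) * b i}

/-- The truncated cone: `rb B f` with `f x = 1 - (1-a) x`. -/
def tc {ι : Type} (B : Set (ι → ℝ)) (a : ℝ) : Set (ι ⊕ Unit → ℝ) :=
  rb B (fun x => 1 - (1 - a) * x)

/-- The profile of the truncated cone. -/
def tp (a s : ℝ) : ℝ := if a < 1 then min 1 ((1 - s) / (1 - a)) else 1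

/-- **REVB**.
Proof.  Convex: for `(y,x)`, `(y',x')` with `s, b`, `s', b'` and weights `t + t' = 1`:
`t s b + t' s' b' = (ts+t's') b''` with `b'' ∈ B` (if `ts+t's' = 0` both terms vanish, `b'' = b`), and
`tR(s)+t'R(s') ≤ R(ts+t's')`, likewise for `L`.  Compact: the image of
`{(b,s,x) | b ∈ B, s ∈ [0,1], -L s ≤ x ≤ R s}` (closed in `B × [0,1] × [-L 0, R 0]`, by continuity of
`L`, `R` on `[0,1]`) under the continuous map `(b,s,x) ↦ (s b, x)`.  Interior: by concavity and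
nonnegativity `L (1/2) + R (1/2) ≥ (L 0 + R 0)/2 > 0`; the open nonempty set of the `(y,x)` with
`2 y ∈ interior B` and `-L (1/2) < x < R (1/2)` is contained in the set (`s = 1/2`). -/
def REVB : Prop := ∀ (ι : Type) [Fintype ι] (B : Set (ι → ℝ)) (L R : ℝ → ℝ), IsBody B → Prof L →
  Prof R → 0 < L 0 + R 0 → IsBody (KLR B L R)

/-- **TCEQ**.
Proof.  First part, `⊆`: `s ∈ [0,1]`, `y = s b`, `0 ≤ x ≤ tp a s`.  Then `x ≤ 1`, and `(1-a) x ≤ 1 - s`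
(also for `a = 1`), so with `r = 1 - (1-a)x ≥ s`: `y = r ((s/r) b)`, `(s/r) b ∈ B` as `0 ∈ B`, `B` convex
(if `r = 0` then `s = 0`, `y = 0`).  `⊇`: `y = r b`; take `s = r ∈ [0,1]`; `tp a s ≥ x`.
Second part: `convexHull_insert`, `lift '' B` convex nonempty: the points are
`(1-x)(b,0) + x(0,1)`, `x ∈ [0,1]`. -/
def TCEQ : Prop := ∀ (ι : Type) [Fintype ι] (B : Set (ι → ℝ)), Convex ℝ B → (0 : ι → ℝ) ∈ B →
  (∀ a : ℝ, 0 ≤ a → a ≤ 1 → KLR B (fun _ => 0) (tp a) = tc B a) ∧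
  tc B 0 = convexHull ℝ (insert (Sum.elim (0 : ι → ℝ) (fun _ => 1)) (lift '' B))

/-- **TCVOL**.  `n = card ι`.
Proof.  Tonelli (`MeasureTheory.volume_preserving_sumPiEquivProdPi` or like `F_prod`/`F_join` in
`Pool/Agent/Helper47/AQ/Prod.lean`, `Join.lean`), section at `x ∈ [0,1]`: `(1-(1-a)x) • B`, volume
`(1-(1-a)x)^n vol B` (`Measure.addHaar_smul`); `∫_0^1 (1-(1-a)x)^n dx = (∑_{j ≤ n} a^j)/(n+1)`
(for `a = 1` clear; for `a < 1` the antiderivative is `-(1-(1-a)x)^(n+1)/((n+1)(1-a))`, geometric sum). -/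
def TCVOL : Prop := ∀ (ι : Type) [Fintype ι] (B : Set (ι → ℝ)) (a : ℝ), IsBody B →
  (0 : ι → ℝ) ∈ B → 0 ≤ a → a ≤ 1 → (volume (tc B a)).toReal =
    (volume B).toReal * (∑ j ∈ Finset.range (Fintype.card ι + 1), a ^ j) /
      ((Fintype.card ι : ℝ) + 1)

/-- **TCPOL**.  `n = card ι`, `p = (q, r)`, `h = hs B q`, `h' = hs B (-q)` (both `≥ 0` as `0 ∈ B`),
`w = wd B q = h + h'`.
Proof.  `hs (tc B a) (q,r) = max h (a h + r)`, `hs (tc B a) (-(q,r)) = max h' (a h' - r)` (linear in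
`x ∈ [0,1]`).  So for `r ≥ 0`: `wd = w + max 0 (r - (1-a) h)`, and for `r ≤ 0`:
`wd = w + max 0 (-r - (1-a) h')`.  `∫_r exp(-wd) dr = exp(-w) ((1-a) h + 1 + (1-a) h' + 1)
= exp(-w) ((1-a) w + 2)`.  `IsBody.laplace` for `tc B a` (a body: it is `KLR`-like; convexity and
compactness may be taken from the hypothesis) and for `B`: `∫ exp(-w) = n! vol(dpol B)`;
`∫ (w+1) exp(-w) = (n+1)! vol(dpol B)` since `(w+1)exp(-w) = ∫_{t ≥ w} t exp(-t) dt`, Tonelli,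
`vol {w ≤ t} = t^n vol(dpol B)` (`vol_scale`), `∫ t^(n+1) exp(-t) = (n+1)!`.  So the integral is
`n! vol(dpol B) ((1-a) n + 2)`, and it equals `(n+1)! vol(dpol (tc B a))`. -/
def TCPOL : Prop := ∀ (ι : Type) [Fintype ι] (B : Set (ι → ℝ)) (a : ℝ), IsBody B →
  (0 : ι → ℝ) ∈ B → 0 ≤ a → a ≤ 1 → IsBody (tc B a) → (volume (dpol (tc B a))).toReal =
    (volume (dpol B)).toReal * ((1 - a) * (Fintype.card ι : ℝ) + 2) / ((Fintype.card ι : ℝ) + 1)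

/-- **APX**.
Proof.  Uniform continuity on `[0,1]`: `M ≥ 1` with `|R s - R s'| ≤ ε` for `|s - s'| ≤ 1/M`.
`t_j = a + (1-a) j/M` (`j ≤ M`, so `t_M = 1`), slopes `σ_j = (R t_j - R t_(j+1)) M/(1-a)`, `j < M`:
`0 ≤ σ_0 ≤ σ_1 ≤ ...` (antitone, concave).  `N = M+1`, `c_j = (1-t_j)(σ_j - σ_(j-1))` (`σ_(-1) = 0`)
for `j < M`, `c_M = R 1`.  `S s = ∑ c_j tp (t_j) s`.  `S 1 = R 1`.  For `j ≤ k < M`:
`tp t_j t_k - tp t_j t_(k+1) = (t_(k+1) - t_k)/(1-t_j)`, and `0` for `k < j ≤ M`; so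
`S t_k - S t_(k+1) = ((1-a)/M) ∑_{j ≤ k} (σ_j - σ_(j-1)) = R t_k - R t_(k+1)`; hence `S t_k = R t_k` for
all `k ≤ M`.  For `s ∈ [t_k, t_(k+1)]` both `R s`, `S s` lie in `[R t_(k+1), R t_k]` (both antitone), of
length `≤ ε`.  For `s ≤ a`: `S s = S a = R a = R s`. -/
def APX : Prop := ∀ (R : ℝ → ℝ) (a : ℝ), Prof R → 0 ≤ a → a < 1 →
  (∀ s ∈ Icc (0 : ℝ) a, R s = R a) → ∀ ε : ℝ, 0 < ε →
  ∃ (N : ℕ) (t c : ℕ → ℝ), (∀ j < N, a ≤ t j ∧ t j ≤ 1 ∧ 0 ≤ c j) ∧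
    ∀ s ∈ Icc (0 : ℝ) 1, |R s - ∑ j ∈ Finset.range N, c j * tp (t j) s| ≤ ε

/-- **SPLIT**.
Proof.  `g s = R s + R 0 * s` is concave and continuous on `[0,1]`; `α` a maximiser
(`IsCompact.exists_isMaxOn`); `g α > g 0 = R 0` by the hypothesis, so `α > 0`.  `g` is monotone on
`[0,α]` and antitone on `[α,1]` (concavity).  `R₁ s = g (max s α) - R 0`,
`R₂ s = g (min s α) - g α + R 0 (1-s)`, `a = min α (1/2)`.  `R₁` is concave (`max` convex, `g` concave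
and antitone on `[α,1]`), antitone, `R₁ 1 = R 1 ≥ 0`, `R₁ 0 = g α - R 0 > 0`, constant on `[0,α]`.  `R₂` is
concave (`min` concave, `g` concave and monotone on `[0,α]`); on `[0,α]` it is `R s` plus a constant, on
`[α,1]` it is `R 0 (1-s)`: antitone, `R₂ 1 = 0`.  `g (max s α) + g (min s α) = g s + g α` gives the
sum. -/
def SPLIT : Prop := ∀ R : ℝ → ℝ, Prof R → (∃ s ∈ Icc (0 : ℝ) 1, R 0 * (1 - s) < R s) →
  ∃ (a : ℝ) (R₁ R₂ : ℝ → ℝ), 0 < a ∧ a < 1 ∧ Prof R₁ ∧ Prof R₂ ∧ 0 < R₁ 0 ∧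
    (∀ s ∈ Icc (0 : ℝ) a, R₁ s = R₁ a) ∧ ∀ s ∈ Icc (0 : ℝ) 1, R s = R₁ s + R₂ s

/-- **REVF**.
Proof.  `M = f x₀ > 0` the maximum of `f` on `[0,1]`.  For `s ∈ [0,1]` the set
`{x ∈ [0,1] | M s ≤ f x}` is a closed interval containing `x₀` (concave, continuous); let `x₀ + R s`
be its right end and `x₀ - L s` its left end (`sSup`, `sInf`; outside `[0,1]` any value).  `R`, `L` are
nonnegative, antitone, concave (if `f x ≥ M s`, `f x' ≥ M s'` then `f(tx+t'x') ≥ M(ts+t's')`).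
Continuity of `R`: at `s = 0`: antitone and `R s ≥ (1-s) R 0 + s R 1` by concavity; at `s = 1`: if
`R s ≥ R 1 + η` for all `s < 1`, then `f (x₀ + R 1 + η) ≥ M s` for all `s < 1`, so `≥ M`, contradiction;
inside concave functions are continuous (`ConcaveOn.continuousOn_interior`-like).  (Similarly `L`; or
apply the result for `R` to `x ↦ f (1-x)`.)
`0 < L 0 + R 0`: at `s = 0` the interval is `[0,1]`, so `L 0 + R 0 = 1`.
`A (y,x) = (M y, x + x₀)`.  Image `⊆`: `y = s b`, `-L s ≤ x ≤ R s`, so `u = x + x₀ ∈ [0,1]`,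
`f u ≥ M s`; `M y = f u ((M s/f u) b)`, `(M s/f u) b ∈ B` as `0 ∈ B` (if `f u = 0`, then `M s = 0`).
`⊇`: `(f u b, u)`: `s = f u/M ∈ [0,1]`. -/
def REVF : Prop := ∀ (ι : Type) [Fintype ι] (B : Set (ι → ℝ)) (f : ℝ → ℝ), Convex ℝ B →
  (0 : ι → ℝ) ∈ B → ConcaveOn ℝ (Icc 0 1) f → ContinuousOn f (Icc 0 1) →
  (∀ x ∈ Icc (0 : ℝ) 1, 0 ≤ f x) → (∃ x ∈ Icc (0 : ℝ) 1, 0 < f x) →
  ∃ (L R : ℝ → ℝ) (A : (ι ⊕ Unit → ℝ) ≃ᵃ[ℝ] (ι ⊕ Unit → ℝ)), Prof L ∧ Prof R ∧ 0 < L 0 + R 0 ∧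
    A '' KLR B L R = rb B f

end Pool.Agent.Helper82.PN
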