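import Pool.Agent.Helper82.PN.GoodR

/-!
# Convex hulls: compactness, closeness, insertion of points
-/

open MeasureTheory Set
open scoped ENNReal
open Pool.Agent.Helper47.AQ

noncomputable section

namespace Pool.Agent.Helper82.PN

variable {ι κ σ : Type} [Fintype ι] [Fintype κ] [Fintype σ]

theorem hull_insert_hull {E : Type} [AddCommGroup E] [Module ℝ E] (A : Set E) (y : E) :
    convexHull ℝ (insert y (convexHull ℝ A)) = convexHull ℝ (insert y A) := by
  apply Subset.antisymm
  · refine convexHull_min ?_ (convex_convexHull ℝ _)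
    rintro z (rfl | hz)
    · exact subset_convexHull ℝ _ (mem_insert _ _)
    · exact convexHull_mono (subset_insert _ _) hz
  · exact convexHull_mono (insert_subset_insert (subset_convexHull ℝ A))

theorem hull_insert2 {E : Type} [AddCommGroup E] [Module ℝ E] (A : Set E) (y y' : E) :
    convexHull ℝ (insert y (insert y' (convexHull ℝ A))) =
      convexHull ℝ (insert y (insert y' A)) := by
  rw [← hull_insert_hull (insert y' (convexHull ℝ A)) y, hull_insert_hull A y',
    hull_insert_hull (insert y' A) y]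

theorem mem_hull_insert {E : Type} [AddCommGroup E] [Module ℝ E] {S : Set E} (hS : Convex ℝ S)
    (hne : S.Nonempty) {y z : E} : z ∈ convexHull ℝ (insert y S) ↔
      ∃ t ∈ Icc (0 : ℝ) 1, ∃ x ∈ S, z = (1 - t) • x + t • y := by
  rw [convexHull_insert hne, hS.convexHull_eq]
  constructor
  · intro h
    obtain ⟨a, ha, b, hb, hz⟩ := mem_convexJoin.1 h
    rw [mem_singleton_iff] at ha
    subst ha
    obtain ⟨p, q, hp, hq, hpq, rfl⟩ := hz
    refine ⟨p, ⟨hp, by linarith⟩, b, hb, ?_⟩
    rw [show 1 - p = q by linarith, add_comm]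
  · rintro ⟨t, ht, x, hx, rfl⟩
    refine mem_convexJoin.2 ⟨y, mem_singleton _, x, hx, t, 1 - t, ht.1, by linarith [ht.2],
      by ring, ?_⟩
    rw [add_comm]

theorem compact_hull_insert {S : Set (ι → ℝ)} (hS : Convex ℝ S) (hc : IsCompact S)
    (hne : S.Nonempty) (y : ι → ℝ) : IsCompact (convexHull ℝ (insert y S)) := by
  have h1 : convexHull ℝ (insert y S) =
      (fun p : ℝ × (ι → ℝ) => (1 - p.1) • p.2 + p.1 • y) '' (Icc (0 : ℝ) 1 ×ˢ S) := by
    ext z
    rw [mem_hull_insert hS hne]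
    constructor
    · rintro ⟨t, ht, x, hx, rfl⟩
      exact ⟨(t, x), ⟨ht, hx⟩, rfl⟩
    · rintro ⟨⟨t, x⟩, ⟨ht, hx⟩, rfl⟩
      exact ⟨t, ht, x, hx, rfl⟩
  rw [h1]
  refine (isCompact_Icc.prod hc).image ?_
  fun_prop

/-- Closeness of convex hulls. -/
theorem hull_close {A B : Set (ι → ℝ)} {ε : ℝ} (h : ∀ a ∈ A, ∃ b ∈ B, ‖a - b‖ ≤ ε) :
    ∀ x ∈ convexHull ℝ A, ∃ z ∈ convexHull ℝ B, ‖x - z‖ ≤ ε := by
  refine fun x hx => convexHull_min (t := {x | ∃ z ∈ convexHull ℝ B, ‖x - z‖ ≤ ε}) ?_ ?_ hx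
  · intro a ha
    obtain ⟨b, hb, hab⟩ := h a ha
    exact ⟨b, subset_convexHull ℝ _ hb, hab⟩
  · rintro p ⟨z, hz, hpz⟩ q ⟨z', hz', hqz⟩ a b ha hb hab
    refine ⟨a • z + b • z', convex_convexHull ℝ _ hz hz' ha hb hab, ?_⟩
    have h1 : a • p + b • q - (a • z + b • z') = a • (p - z) + b • (q - z') := by
      simp only [smul_sub]; abel
    rw [h1]
    calc ‖a • (p - z) + b • (q - z')‖ ≤ ‖a • (p - z)‖ + ‖b • (q - z')‖ := norm_add_le _ _
      _ = a * ‖p - z‖ + b * ‖q - z'‖ := by
          rw [norm_smul, norm_smul, Real.norm_of_nonneg ha, Real.norm_of_nonneg hb]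
      _ ≤ a * ε + b * ε := by gcongr
      _ = ε := by rw [← add_mul, hab, one_mul]

theorem near_hull_insert (S : Set (ι → ℝ)) {y y' : ι → ℝ} {ε : ℝ} (h : ‖y - y'‖ ≤ ε) :
    Near ε (convexHull ℝ (insert y S)) (convexHull ℝ (insert y' S)) := by
  have hε : 0 ≤ ε := (norm_nonneg _).trans h
  constructor
  · refine hull_close ?_
    rintro a (rfl | ha)
    · exact ⟨y', mem_insert _ _, h⟩
    · exact ⟨a, mem_insert_of_mem _ ha, by simpa using hε⟩
  · have h1 := hull_close (A := insert y' S) (B := insert y S) (ε := ε) (by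
      rintro a (rfl | ha)
      · exact ⟨y, mem_insert _ _, by rwa [norm_sub_rev]⟩
      · exact ⟨a, mem_insert_of_mem _ ha, by simpa using hε⟩)
    intro z hz
    obtain ⟨x, hx, hxz⟩ := h1 z hz
    exact ⟨x, hx, by rwa [norm_sub_rev]⟩

/-- Closeness of the hulls of two families. -/
theorem near_KH {x y : σ → ι → ℝ} {ε : ℝ} (h : ∀ i, ‖x i - y i‖ ≤ ε) :
    Near ε (KH x) (KH y) := by
  constructor
  · refine hull_close ?_
    rintro _ ⟨i, rfl⟩
    exact ⟨y i, mem_range_self i, h i⟩
  · have h1 := hull_close (A := range y) (B := range x) (ε := ε) (by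
      rintro _ ⟨i, rfl⟩
      exact ⟨x i, mem_range_self i, by rw [norm_sub_rev]; exact h i⟩)
    intro z hz
    obtain ⟨x, hx, hxz⟩ := h1 z hz
    exact ⟨x, hx, by rwa [norm_sub_rev]⟩

theorem lift_eq (x : ι → ℝ) : lift x = inlL ι Unit x := rfl

theorem lift_image_hull (S : Set (ι → ℝ)) :
    lift '' convexHull ℝ S = convexHull ℝ (lift '' S) :=
  (inlL ι Unit).image_convexHull S

theorem hull_insert_lift_hull (y : ι ⊕ Unit → ℝ) (S : Set (ι → ℝ)) :
    convexHull ℝ (insert y (lift '' convexHull ℝ S)) = convexHull ℝ (insert y (lift '' S)) := by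
  rw [lift_image_hull, hull_insert_hull]

theorem lift_convex {S : Set (ι → ℝ)} (h : Convex ℝ S) : Convex ℝ (lift '' S) :=
  h.linear_image (inlL ι Unit)

theorem lift_continuous : Continuous (lift : (ι → ℝ) → (ι ⊕ Unit → ℝ)) := by
  refine continuous_pi fun o => ?_
  rcases o with o | o
  · exact continuous_apply o
  · exact continuous_const

theorem lift_compact {S : Set (ι → ℝ)} (h : IsCompact S) : IsCompact (lift '' S) :=
  h.image lift_continuous

theorem pyr_body (hPYR : PYRA) {B : Set (ι → ℝ)} (hB : IsBody B) {y : ι ⊕ Unit → ℝ}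
    (hy : y (Sum.inr ()) ≠ 0) : IsBody (convexHull ℝ (insert y (lift '' B))) := by
  obtain ⟨A, hA⟩ := hPYR ι B y hB.conv hB.nonempty hy
  rw [← hA]
  exact (hB.join simplex_empty.isBody).affine A

theorem compact_two {C : Set (ι → ℝ)} (hC : Convex ℝ C) (hc : IsCompact C) (hne : C.Nonempty)
    (y y' : ι ⊕ Unit → ℝ) : IsCompact (convexHull ℝ (insert y (insert y' (lift '' C)))) := by
  rw [← hull_insert_hull]
  refine compact_hull_insert (convex_convexHull ℝ _)
    (compact_hull_insert (lift_convex hC) (lift_compact hc) (hne.image _) y') ?_ y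
  exact ⟨y', subset_convexHull ℝ _ (mem_insert _ _)⟩

theorem two_body (hPYR : PYRA) {C : Set (ι → ℝ)} (hC : IsBody C) {y : ι ⊕ Unit → ℝ}
    (y' : ι ⊕ Unit → ℝ) (hy : y (Sum.inr ()) ≠ 0) :
    IsBody (convexHull ℝ (insert y (insert y' (lift '' C)))) := by
  refine ⟨convex_convexHull ℝ _, compact_two hC.conv hC.comp hC.nonempty y y', ?_⟩
  refine (pyr_body hPYR hC hy).int.mono (interior_mono (convexHull_mono ?_))
  exact insert_subset_insert (subset_insert _ _)

/-- A simplex as the hull of `card ι + 1` points. -/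
theorem simplex_card {K : Set (ι → ℝ)} (h : IsSimplex K) :
    ∃ (τ : Type) (_ : Fintype τ) (v : τ → ι → ℝ), Fintype.card τ = Fintype.card ι + 1 ∧
      AffineIndependent ℝ v ∧ K = convexHull ℝ (range v) := by
  obtain ⟨h1, τ, hτ, v, hv, hK⟩ := h
  refine ⟨τ, hτ, v, ?_, hv, hK⟩
  have h2 : affineSpan ℝ (range v) = ⊤ := by
    rw [← interior_convexHull_nonempty_iff_affineSpan_eq_top, ← hK]; exact h1
  rw [hv.affineSpan_eq_top_iff_card_eq_finrank_add_one] at h2
  rw [h2, Module.finrank_fintype_fun_eq_card]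

/-- Two points over a simplex. -/
theorem two_simplex {C : Set (ι → ℝ)} (hC : IsSimplex C) {y y' : ι ⊕ Unit → ℝ}
    (hint : (interior (convexHull ℝ (insert y (insert y' (lift '' C))))).Nonempty) :
    Good (convexHull ℝ (insert y (insert y' (lift '' C)))) := by
  obtain ⟨τ, hτ, v, hcard, hv, hK⟩ := simplex_card hC
  set u : Option (Option τ) → (ι ⊕ Unit → ℝ) := fun o => match o with
    | none => y
    | some none => y'
    | some (some i) => lift (v i) with hu
  have h1 : convexHull ℝ (insert y (insert y' (lift '' C))) = convexHull ℝ (range u) := by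
    rw [hK, lift_image_hull, hull_insert2]
    congr 1
    ext z
    constructor
    · rintro (rfl | rfl | ⟨_, ⟨i, rfl⟩, rfl⟩)
      · exact ⟨none, rfl⟩
      · exact ⟨some none, rfl⟩
      · exact ⟨some (some i), rfl⟩
    · rintro ⟨o, rfl⟩
      rcases o with _ | _ | i
      · exact mem_insert _ _
      · exact mem_insert_of_mem _ (mem_insert _ _)
      · exact mem_insert_of_mem _ (mem_insert_of_mem _ ⟨v i, mem_range_self i, rfl⟩)
  rw [h1] at hint ⊢
  exact Good.of_cls (few_vertices (by simp [hcard]) u hint)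

end Pool.Agent.Helper82.PN
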