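import Pool.Agent.Helper82.PN.Defs

/-!
# Polytopes with n + 3 vertices: the goals (packets)

Each goal is a closed `Prop` with its complete proof in the docstring.  Write the theorem `gNAME` in
your own file `Pool/Agent/<Seat>/PN/NAME.lean` (namespace `Pool.Agent.<Seat>.PN`).

Overall proof.  `SWP` (moving one point of a polytope in general position along a line: the volume is
affine) and `SHADV` (a shadow system with affine volume: 1/F is at most a weighted mean of the values at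
the ends) move a point of the n + 3 points until n + 1 points lie in a hyperplane; `TWO*` treats that
case by induction on n.
-/

open MeasureTheory Set
open scoped ENNReal
open Pool.Agent.Helper47.AQ

noncomputable section

namespace Pool.Agent.Helper82.PN

/-! ## A. Busemann type inequality for the polar of the difference body -/

/-- **BBL1** (Borell–Brascamp–Lieb in dimension 1).
Proof.  `S_i = sup_{x>0} a_i(x)` lies in `(0, B]`.  For `0 < θ < 1` put `A_i = {x > 0 | θ S_i < a_i x}`: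
measurable, nonempty.  Put `M = S₀ S₁ / ((1-ρ) S₁ + ρ S₀)`.  The function
`(u,w) ↦ u w / ((1-ρ) w + ρ u)` on `(0,∞)²` is strictly increasing in each variable and homogeneous, so for
`x ∈ A₀`, `y ∈ A₁` the hypothesis gives `a ((1-ρ)x+ρy) > θ M`.  One-dimensional Brunn–Minkowski
(`Pool.Agent.Helper9.FR.bm_one`, file `Pool/Agent/Helper9/FR/PL.lean`, for measurable nonempty sets):
`(1-ρ) |A₀| + ρ |A₁| ≤ |{x > 0 | θ M < a x}|`.
Layer cake (`lintegral_rpow_eq_lintegral_meas_lt_mul` with `p = 2`, measure restricted to `Ioi 0`):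
`∫ a_i² = 2 ∫_{t>0} t |{a_i > t}| dt = 2 S_i² ∫_0^1 θ |{a_i > θ S_i}| dθ` (the sets are empty for
`t ≥ S_i`), and `∫ a² ≥ 2 M² ∫_0^1 θ |{a > θ M}| dθ ≥ M² ((1-ρ) I₀ / S₀² + ρ I₁ / S₁²)`, `I_i = ∫ a_i²`.
Cauchy–Schwarz: `((1-ρ) I₀/S₀² + ρ I₁/S₁²) ((1-ρ)/I₀ + ρ/I₁) ≥ ((1-ρ)/S₀ + ρ/S₁)² = M⁻²`.  Together
`I ≥ 1 / ((1-ρ)/I₀ + ρ/I₁)`, which is the claim multiplied out (`I_i > 0` because `a_i > 0`). -/
def BBL1 : Prop := ∀ (a₀ a₁ a : ℝ → ℝ) (ρ B : ℝ), 0 < ρ → ρ < 1 →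
  Measurable a₀ → Measurable a₁ → Measurable a →
  (∀ x, 0 < x → 0 < a₀ x ∧ a₀ x ≤ B) → (∀ x, 0 < x → 0 < a₁ x ∧ a₁ x ≤ B) →
  (∀ x, 0 < x → 0 < a x) →
  (∀ x y, 0 < x → 0 < y →
    a₀ x * a₁ y ≤ a ((1 - ρ) * x + ρ * y) * ((1 - ρ) * a₁ y + ρ * a₀ x)) →
  IntegrableOn (fun x => a₀ x ^ 2) (Ioi 0) → IntegrableOn (fun x => a₁ x ^ 2) (Ioi 0) →
  IntegrableOn (fun x => a x ^ 2) (Ioi 0) →
  (∫ x in Ioi 0, a₀ x ^ 2) * (∫ x in Ioi 0, a₁ x ^ 2) ≤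
    (∫ x in Ioi 0, a x ^ 2) * ((1 - ρ) * (∫ x in Ioi 0, a₁ x ^ 2) + ρ * ∫ x in Ioi 0, a₀ x ^ 2)

/-- **PFIN**.
Proof.  `IsBody.le_wd`: `ε ∑ |p_i| ≤ wd K p`, so with `p = cons (1/s) ξ`:
`Fi K s ≤ exp(-ε/s) C`, `C = ∫⁻ exp(-ε ∑ |ξ_i|) dξ < ⊤` (product of one-dimensional integrals, or
domination).  Hence `Fi K s ≠ ⊤` and `(aK K s)² ≤ C exp(-ε/s)/s² = (C/ε²) u² e^{-u} ≤ C/ε²` with
`u = ε/s`, as `u² ≤ e^u` fails nowhere (`u² ≤ 2 e^u` is enough).  `Fi K s ≠ 0` since the integrand is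
everywhere positive.  Measurability: `(s, ξ) ↦ wd K (cons (1/s) ξ)` is measurable (`wd K` continuous,
`s ↦ 1/s` measurable), `Measurable.lintegral_prod_right'`. -/
def PFIN : Prop := ∀ (m : ℕ) (K : Set (Fin (m + 1) → ℝ)), IsBody K →
  Measurable (Fi K) ∧ Measurable (aK K) ∧ (∀ s, 0 < s → Fi K s ≠ 0 ∧ Fi K s ≠ ⊤) ∧
  (∀ s, 0 < s → 0 < aK K s) ∧ ∃ B : ℝ, ∀ s, 0 < s → aK K s ≤ B

/-- **GI**.
Proof.  `IsBody.laplace`: `∫⁻ p, exp(-wd K p) = (m+1)! vol(dpol K)`, finite by `IsBody.dpol_ne_top`.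
Split off the coordinate `0` (`MeasureTheory.volume_preserving_piFinSuccAbove (fun _ => ℝ) 0`, Tonelli):
the left side is `∫⁻_{r ∈ ℝ} G r`, `G r = ∫⁻_ξ exp(-wd K (cons r ξ))`.  `wd K (-p) = wd K p` and
`ξ ↦ -ξ` give `G (-r) = G r`, so it is `2 ∫⁻_{r>0} G r`.  Substitution `r = 1/s`
(`lintegral_image_eq_lintegral_abs_deriv_mul`): `∫⁻_{r>0} G r = ∫⁻_{s>0} ofReal(1/s²) G (1/s)
= ∫⁻_{s>0} ofReal (aK K s ^ 2)`, since `Fi K s = G (1/s) ≠ ⊤` (`PFIN`) and `aK² = Fi.toReal / s²`.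
Finite, so integrable, and take `toReal`. -/
def GI : Prop := ∀ (m : ℕ) (K : Set (Fin (m + 1) → ℝ)), IsBody K →
  IntegrableOn (fun s => aK K s ^ 2) (Ioi 0) ∧
  2 * ∫ s in Ioi 0, aK K s ^ 2 = ((m + 1).factorial : ℝ) * (volume (dpol K)).toReal

/-- **PLX**.
Proof.  `s = (1-ρ)s₀ + ρs₁`, `λ₀ = (1-ρ)s₀/s`, `λ₁ = ρs₁/s`, `λ₀ + λ₁ = 1`.  Claim:
`wd L (cons (1/s) (λ₀ξ₀+λ₁ξ₁)) ≤ λ₀ wd K₀ (cons (1/s₀) ξ₀) + λ₁ wd K₁ (cons (1/s₁) ξ₁)`.  Indeed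
`wd L p ≤ c` follows from `p·(z-z') ≤ c` for all `z, z' ∈ L` (as in `IsBody.dpol_eq`, with `hs_le`
twice); write `z = (1-ρ)x+ρy`, `z' = (1-ρ)x'+ρy'` by `FibV`, where the coordinates `≠ 0` of `x`, `y`,
`z` agree, and those of `x'`, `y'`, `z'`; with `D` the difference of these coordinates, `X = x_0 - x'_0`,
`Y = y_0 - y'_0`: `p·(z-z') = (1/s)((1-ρ)X + ρY) + (λ₀ξ₀+λ₁ξ₁)·D = λ₀(X/s₀ + ξ₀·D) + λ₁(Y/s₁ + ξ₁·D)`,
and `X/s₀ + ξ₀·D ≤ wd K₀ (cons (1/s₀) ξ₀)` (`le_hs` twice).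
Prékopa–Leindler (`Pool.Agent.Helper13.LW.gPLE : Pool.Agent.Helper31.LW.PLE`, file
`Pool/Agent/Helper13/LW/PLE.lean`, `t = λ₁`, functions `exp(-wd ..)` with values in `[0,1]`) gives for
`φ_i = (Fi K_i s_i).toReal > 0`, `φ = (Fi L s).toReal` (finite by `PFIN`): `φ₀^{λ₀} φ₁^{λ₁} ≤ φ`.
The claim multiplied by `s s₀ s₁` is `√φ₀ √φ₁ ≤ √φ (λ₀ √φ₁ + λ₁ √φ₀)`, which follows from
`λ₀√φ₁ + λ₁√φ₀ ≥ √φ₁^{λ₀} √φ₀^{λ₁}` (weighted AM–GM, `Real.geom_mean_le_arith_mean2_weighted`) and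
`√φ ≥ √φ₀^{λ₀} √φ₁^{λ₁}`. -/
def PLX : Prop := ∀ (m : ℕ) (K₀ K₁ L : Set (Fin (m + 1) → ℝ)) (ρ : ℝ), 0 < ρ → ρ < 1 →
  IsBody K₀ → IsBody K₁ → IsBody L → FibV (Pi.single 0 1) K₀ K₁ L ρ →
  ∀ s₀ s₁ : ℝ, 0 < s₀ → 0 < s₁ →
    aK K₀ s₀ * aK K₁ s₁ ≤
      aK L ((1 - ρ) * s₀ + ρ * s₁) * ((1 - ρ) * aK K₁ s₁ + ρ * aK K₀ s₀)

/-- **BUS0** (assembled by helper82 from BBL1, PFIN, GI, PLX). -/
def BUS0 : Prop := ∀ (m : ℕ) (K₀ K₁ L : Set (Fin (m + 1) → ℝ)) (ρ : ℝ), 0 < ρ → ρ < 1 →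
  IsBody K₀ → IsBody K₁ → IsBody L → FibV (Pi.single 0 1) K₀ K₁ L ρ →
  ((volume (dpol L)).toReal)⁻¹ ≤
    (1 - ρ) * ((volume (dpol K₀)).toReal)⁻¹ + ρ * ((volume (dpol K₁)).toReal)⁻¹

/-! ## B. Volume and the combined inequality -/

/-- **VOLC0**.
Proof.  Tonelli in the coordinate `0` (`volume_preserving_piFinSuccAbove`): `V(K) = ∫⁻_ξ |S_K(ξ)|`,
`S_K(ξ) = {r | cons r ξ ∈ K}` compact.  By the second and third clause of `CoFib` `S_{K₀}(ξ)` and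
`S_{K₁}(ξ)` are both empty or both nonempty, and `(1-ρ) S_{K₀}(ξ) + ρ S_{K₁}(ξ) ⊆ S_M(ξ)` by the first;
`Pool.Agent.Helper9.FR.bm_compact` (file `Pool/Agent/Helper9/FR/PL.lean`) gives
`(1-ρ)|S_{K₀}(ξ)| + ρ|S_{K₁}(ξ)| ≤ |S_M(ξ)|`; integrate. -/
def VOLC0 : Prop := ∀ (m : ℕ) (K₀ K₁ M : Set (Fin (m + 1) → ℝ)) (ρ : ℝ), 0 < ρ → ρ < 1 →
  IsBody K₀ → IsBody K₁ → IsBody M → CoFib (Pi.single 0 1) K₀ K₁ M ρ →
  (1 - ρ) * (volume K₀).toReal + ρ * (volume K₁).toReal ≤ (volume M).toReal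

/-- **SHADV** (prove `BUS0 → VOLC0 → SHADV`).
Proof.  `v ≠ 0`, so `card ι = m + 1`; there is a linear equivalence `A : (ι → ℝ) ≃ (Fin (m+1) → ℝ)` with
`A v = Pi.single 0 1` (reindex, then `SeparatingDual.exists_continuousLinearEquiv_apply_eq`).  `F` is
invariant (`F_affine`), bodies go to bodies (`IsBody.affine`), `FibV`, `CoFib` are transported; so assume
`ι = Fin (m+1)`, `v = e_0`.  With `V`, `P` the volumes of the bodies and of `dpol` (all positive: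
`vol_pos`, `dpol_pos`), `F = V P`: `V_L ≥ (1-ρ)V₀+ρV₁` (`VOLC0`), `1/P_L ≤ (1-ρ)/P₀+ρ/P₁` (`BUS0`), and
with `w = ρV₁/((1-ρ)V₀+ρV₁)`: `1/F_L ≤ ((1-ρ)/P₀+ρ/P₁)/((1-ρ)V₀+ρV₁) = (1-w)/F₀ + w/F₁`. -/
def SHADV : Prop := ∀ (ι : Type) [Fintype ι] (v : ι → ℝ) (K₀ K₁ L : Set (ι → ℝ)) (ρ : ℝ),
  v ≠ 0 → 0 < ρ → ρ < 1 → IsBody K₀ → IsBody K₁ → IsBody L → FibV v K₀ K₁ L ρ →
  CoFib v K₀ K₁ L ρ →
  ∃ w : ℝ, 0 < w ∧ w < 1 ∧ (F L)⁻¹ ≤ (1 - w) * (F K₀)⁻¹ + w * (F K₁)⁻¹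

/-! ## C. Moving a point in general position -/

/-- **TOPL**.  Write `n = card ι`, `Λ = {μ ∈ stdSimplex | ∃ a, ∑ μ_i x_i = y + a v}` (compact, nonempty),
`g μ t = ℓ(∑ μ_i x_i) + t μ_j` (this is `ℓ` of the point `∑ μ_i (mv x j v t)_i`, since `ℓ v = 1`).
Proof.  (1) For `t ∈ (t₀,t₁)` the maximum of `g · t` on `Λ` is attained (compactness).
(2) Uniqueness: if `μ ≠ μ'` both attain it, let `ν = (μ+μ')/2`, also optimal, with support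
`S = supp μ ∪ supp μ'`.  The points `p_i = (mv x j v t)_i`.  Both `∑ μ_i p_i` and `∑ μ'_i p_i` lie on the
line `y + ℝ v` and have the same `ℓ`-value, so they are equal; so `d = μ - μ' ≠ 0` is an affine dependence
(`∑ d_i = 0`, `∑ d_i p_i = 0`) supported in `S`, hence `|S| ≥ n + 2` by `GenPos`.  Take `S' ⊆ S`,
`|S'| = n+1`: affinely independent, so its affine span is everything
(`AffineIndependent.affineSpan_eq_top_iff_card_eq_finrank_add_one`) and `v = ∑_{i∈S'} c_i p_i`,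
`∑ c_i = 0`.  For small `δ > 0` `ν + δ c ∈ stdSimplex` (as `ν > 0` on `S`), its point is
`∑ ν_i p_i + δ v`, so it belongs to `Λ` and `g (ν+δc) t = g ν t + δ`: contradiction.
(3) The optimal `μ` at `t` is determined by its support: if `μ' ∈ Λ`, `supp μ' ⊆ supp μ`, then
`μ' = μ`.  Otherwise `g μ' t < g μ t` by (2), and for small `δ > 0` `μ + δ(μ - μ') ∈ Λ` has a larger value.
So the optimal `μ` belongs to `Λ_f = {μ ∈ Λ | ∀ μ' ∈ Λ, supp μ' ⊆ supp μ → μ' = μ}`, which is finite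
(`μ ↦ supp μ` is injective on it).
(4) For `μ ∈ Λ` the set `C_μ = {t ∈ ℝ | ∀ μ' ∈ Λ, g μ' t ≤ g μ t}` is closed.  `(t₀,t₁)` is covered by
the finitely many `C_μ`, `μ ∈ Λ_f`, and by (2) `C_μ ∩ C_μ' ∩ (t₀,t₁) = ∅` for `μ ≠ μ'` in `Λ`.  Fix
`s ∈ (t₀,t₁)` and its optimal `μ`; `isPreconnected_closed_iff` with `C_μ` and
`⋃_{μ' ∈ Λ_f, μ' ≠ μ} C_μ'` gives `(t₀,t₁) ⊆ C_μ`; `C_μ` closed, so `[t₀,t₁] ⊆ C_μ`
(`closure_Ioo`). -/
def TOPL : Prop := ∀ (ι σ : Type) [Fintype ι] [Fintype σ] (x : σ → ι → ℝ) (j : σ)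
  (v y : ι → ℝ) (t₀ t₁ : ℝ) (ℓ : (ι → ℝ) →ₗ[ℝ] ℝ), t₀ < t₁ → ℓ v = 1 →
  (∀ t ∈ Ioo t₀ t₁, GenPos (mv x j v t)) →
  (∃ μ ∈ stdSimplex ℝ σ, ∃ a : ℝ, ∑ i, μ i • x i = y + a • v) →
  ∃ μ ∈ stdSimplex ℝ σ, (∃ a : ℝ, ∑ i, μ i • x i = y + a • v) ∧
    ∀ μ' ∈ stdSimplex ℝ σ, (∃ a : ℝ, ∑ i, μ' i • x i = y + a • v) → ∀ t ∈ Icc t₀ t₁,
      ℓ (∑ i, μ' i • x i) + t * μ' j ≤ ℓ (∑ i, μ i • x i) + t * μ j

/-- **SWP** (prove `TOPL → SWP`).  Put `t = (1-ρ)t₀+ρt₁`, `pt(μ,s) = ∑ μ_i x_i + s μ_j v`;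
`KH (mv x j v s) = {pt(μ,s) | μ ∈ stdSimplex}` (`convexHull` of a finite family, e.g.
`convexHull_range_eq_exists_affineCombination` / `mem_convexHull_of_exists_fintype`).
`FibV`: `z = pt(μ,t)`, take `pt(μ,t₀)`, `pt(μ,t₁)`.  `CoFib`, second and third clause: the same `μ`.
First clause: `y₀ = pt(μ⁰,t₀)`, `y₁ = pt(μ¹,t₁)`, `y₀ - y₁ = a v`.  Choose a linear `ℓ` with `ℓ v = 1`
(a coordinate divided by `v_i ≠ 0`).  `TOPL` with `y = y₀` gives `μ*` with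
`ℓ(pt(μ,s)) ≤ ℓ(pt(μ*,s))` for all `μ` with `pt(μ,0)` on the line `y₀ + ℝv` and `s ∈ [t₀,t₁]`; `TOPL`
with `-v`, `-ℓ`, the interval `(-t₁,-t₀)` (note `mv x j (-v) (-s) = mv x j v s`) gives `μ_*` with
`ℓ(pt(μ_*,s)) ≤ ℓ(pt(μ,s))`.  `z = (1-ρ)y₀+ρy₁` lies on the line, and
`ℓ z = (1-ρ)ℓ(y₀)+ρℓ(y₁) ≤ (1-ρ)ℓ(pt(μ*,t₀))+ρℓ(pt(μ*,t₁)) = ℓ(pt(μ*,t))`, similarly
`ℓ(pt(μ_*,t)) ≤ ℓ z`.  Three points of one line `y₀+ℝv`, `ℓ v = 1`: `z` is in the segment between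
`pt(μ_*,t)` and `pt(μ*,t)`, which lies in the convex set `KH (mv x j v t)`. -/
def SWP : Prop := ∀ (ι σ : Type) [Fintype ι] [Fintype σ] (x : σ → ι → ℝ) (j : σ)
  (v : ι → ℝ) (t₀ t₁ ρ : ℝ), v ≠ 0 → t₀ < t₁ → 0 < ρ → ρ < 1 →
  (∀ t ∈ Ioo t₀ t₁, GenPos (mv x j v t)) →
  FibV v (KH (mv x j v t₀)) (KH (mv x j v t₁)) (KH (mv x j v ((1 - ρ) * t₀ + ρ * t₁))) ρ ∧
  CoFib v (KH (mv x j v t₀)) (KH (mv x j v t₁)) (KH (mv x j v ((1 - ρ) * t₀ + ρ * t₁))) ρ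

/-- **DIRL**.  Write `n = card ι ≥ 2`.
Proof.  Choose `j` and a set `S` of `n+1` further indices.  `GenPos`: `x_S` is an affine basis, so
`x_j = ∑_{i∈S} β_i x_i`, `∑ β_i = 1`, and every `β_i ≠ 0` (otherwise `x_j` and the `n` points of
`S \ {i}` would be affinely dependent).  As `n+1 ≥ 3`, there are `i ≠ k` in `S` with `β_i β_k > 0`.
`v = x_i - x_k ≠ 0`.  At `t = -β_i` the moved point `x_j + t v` is an affine combination of
`S \ {i}`, at `t = β_k` of `S \ {k}`: there `mv x j v t` is not in general position.  These two times have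
opposite signs.  The set `U = {t | GenPos (mv x j v t)}` is open (finite intersection over `s` of
preimages of `isOpen_setOf_affineIndependent` under continuous maps), contains `0`.  Put
`t₁ = sInf {t > 0 | t ∉ U}`, `t₀ = sSup {t < 0 | t ∉ U}` (closed nonempty sets, bounded, `0 ∈ U` open, so
the values are attained and nonzero). -/
def DIRL : Prop := ∀ (ι σ : Type) [Fintype ι] [Fintype σ] (x : σ → ι → ℝ), GenPos x →
  2 ≤ Fintype.card ι → Fintype.card ι + 2 ≤ Fintype.card σ →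
  ∃ (j : σ) (v : ι → ℝ) (t₀ t₁ : ℝ), v ≠ 0 ∧ t₀ < 0 ∧ 0 < t₁ ∧
    (∀ t ∈ Ioo t₀ t₁, GenPos (mv x j v t)) ∧ ¬ GenPos (mv x j v t₀) ∧ ¬ GenPos (mv x j v t₁)

/-- **INTL**.  Proof.  Choose `n+1` indices (`n = card ι`), all different from `j`; they are unchanged by
`mv`, affinely independent, so their affine span is `⊤` and the interior of their convex hull is nonempty
(`interior_convexHull_nonempty_iff_affineSpan_eq_top`); the hull of all the points contains it. -/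
def INTL : Prop := ∀ (ι σ : Type) [Fintype ι] [Fintype σ] (x : σ → ι → ℝ), GenPos x →
  Fintype.card ι + 2 ≤ Fintype.card σ → ∀ (j : σ) (v : ι → ℝ) (t : ℝ),
  (interior (KH (mv x j v t))).Nonempty

/-- **HYPX**.  Proof.  `¬ GenPos`: some `s`, `|s| ≤ n+1`, with `x_s` affinely dependent; extend to
`A ⊇ s`, `|A| = n+1`; still dependent, so the affine span of `x_A` is not `⊤`
(`AffineIndependent`/`affineIndependent_iff_finrank_vectorSpan_eq`: the vector span has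
`finrank < n`), so some nonzero linear `q` vanishes on the vector span
(`Submodule.exists_le_ker_of_lt_top`), i.e. is constant on `x_A`. -/
def HYPX : Prop := ∀ (ι σ : Type) [Fintype ι] [Fintype σ] (x : σ → ι → ℝ),
  Fintype.card ι + 1 ≤ Fintype.card σ → ¬ GenPos x →
  ∃ (q : (ι → ℝ) →ₗ[ℝ] ℝ) (c : ℝ) (A : Finset σ), q ≠ 0 ∧ A.card = Fintype.card ι + 1 ∧
    ∀ i ∈ A, q (x i) = c

/-- **HYPC**.  Proof.  `q ≠ 0`; choose `v₀` with `q v₀ = 1`; `ker q` has dimension `m`; a linear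
equivalence `ker q ≃ (Fin m → ℝ)`; `p ↦ (the image of p - q(p) v₀, q p - c)`. -/
def HYPC : Prop := ∀ (ι : Type) [Fintype ι] (m : ℕ), Fintype.card ι = m + 1 →
  ∀ (q : (ι → ℝ) →ₗ[ℝ] ℝ) (c : ℝ), q ≠ 0 →
  ∃ A : (ι → ℝ) ≃ᵃ[ℝ] (Fin m ⊕ Unit → ℝ), ∀ p, A p (Sum.inr ()) = q p - c

/-! ## D. Nearby bodies, paths of simplices -/

/-- **NEARI**.
Proof.  `closedBall c (2r) ⊆ K`, `ε = rδ`.  First inclusion: `z = c+(1-δ)(x-c)`.  For `‖u‖ ≤ 1`: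
`z + 2rδ u = (1-δ)x + δ(c + 2r u) ∈ K`.  If `z ∉ K'`, separate (`geometric_hahn_banach_closed_point`):
`f y < b < f z` for all `y ∈ K'`, so `f ≠ 0` (`K'` is nonempty); take `u`, `‖u‖ ≤ 1`, `f u ≥ ‖f‖/2`; there
is `y ∈ K'` with `‖z + 2rδu - y‖ ≤ ε`; `f z + rδ‖f‖ ≤ f z + 2rδ f u ≤ f y + ε‖f‖ < f z + rδ‖f‖`:
contradiction.  Second: `y ∈ K'`, `x' ∈ K`, `‖x'-y‖ ≤ ε`: the point
`c + (y-c)/(1+δ) = (1/(1+δ)) x' + (δ/(1+δ)) (c + (y-x')/δ)` is in `K` as `‖(y-x')/δ‖ ≤ r`. -/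
def NEARI : Prop := ∀ (ι : Type) [Fintype ι] (K : Set (ι → ℝ)) (c : ι → ℝ), IsBody K →
  c ∈ interior K → ∀ δ : ℝ, 0 < δ → δ < 1 → ∃ ε : ℝ, 0 < ε ∧ ∀ K' : Set (ι → ℝ),
    Convex ℝ K' → IsClosed K' → Near ε K K' →
    (∀ x ∈ K, c + (1 - δ) • (x - c) ∈ K') ∧ (∀ y ∈ K', ∃ x ∈ K, y = c + (1 + δ) • (x - c))

/-- **FNEAR** (prove `NEARI → FNEAR`).
Proof.  `n = card ι`.  `NEARI` gives for every `δ` an `ε` with
`(1-δ)^n V(K) ≤ V(K') ≤ (1+δ)^n V(K)` (`Measure.addHaar_smul`, translation invariance) and, for the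
polars: `p ∈ dpol K' → (1-δ) p ∈ dpol K`, `p ∈ dpol K → (1+δ)⁻¹ p ∈ dpol K'`, so
`(1+δ)^{-n} V(dpol K) ≤ V(dpol K') ≤ (1-δ)^{-n} V(dpol K)`.  So `F K'` lies between
`((1-δ)/(1+δ))^n F K` and `((1+δ)/(1-δ))^n F K`, and both tend to `F K` as `δ → 0`. -/
def FNEAR : Prop := ∀ (ι : Type) [Fintype ι] (K : Set (ι → ℝ)), IsBody K → ∀ η : ℝ, 0 < η →
  ∃ ε : ℝ, 0 < ε ∧ ∀ K' : Set (ι → ℝ), IsBody K' → Near ε K K' → |F K' - F K| < η

/-- **SNEAR** (prove `NEARI → SNEAR`).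
Proof.  `Pool.Agent.Helper67.LM.local_min` (file `Pool/Agent/Helper67/LM/Core.lean`) gives `ε₀`, `c₀`.
`n = card ι`; choose `δ` with `((1-δ)/(1+δ))^n ≥ 1-ε₀`, `c ∈ interior T`, `ε` from `NEARI`.  Then
`D = c+(1+δ)(T-c)` is a simplex (`IsSimplex.affine`) containing `K'`, and
`V(K') ≥ (1-δ)^n V(T) = ((1-δ)/(1+δ))^n V(D) ≥ (1-ε₀) V(D)`.  `local_min` gives a simplex `D' ⊇ K'` with
`cn (1 + c₀(1 - V(K')/V(D'))) ≤ F K' = cn`, so `V(D') ≤ V(K')` and `K' = D'` by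
`Pool.Agent.Helper67.LM.eq_of_vol_eq` (the same computation is in
`Pool/Agent/Helper31/LQ/NearSimplicesOld.lean`). -/
def SNEAR : Prop := ∀ (ι : Type) [Fintype ι] [Nonempty ι] (T : Set (ι → ℝ)), IsSimplex T →
  ∃ ε : ℝ, 0 < ε ∧ ∀ K' : Set (ι → ℝ), IsBody K' → Near ε T K' →
    F K' = cn (Fintype.card ι) → IsSimplex K'

/-- **CLSD**.  `n = card ι`.
Proof.  For `t ∈ [a,b]`: `KH (γ t)` is a simplex iff there is `I : Finset σ`, `|I| = n+1`, with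
`γ t i ∈ convexHull (γ t '' I)` for all `i`.  (⇐) Then `KH (γ t) = convexHull (γ t '' I)` has nonempty
interior, so the `n+1` points of `I` span and are affinely independent: a simplex.  (⇒)
`KH (γ t) = convexHull (range w)`, `w : τ → _` affinely independent, spanning (interior), so
`card τ = n+1`; every `w k` is an extreme point of the hull (`AffineIndependent.convexIndependent`,
`Convex.convexIndependent_extremePoints`/`extremePoints_convexHull_eq_iff_convexIndependent`), hence is one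
of the `γ t i` (`extremePoints_convexHull_subset`); `w` is injective, so `n+1` indices `I` arise.
For fixed `I` (and `i`) the set of `t ∈ [a,b]` with `γ t i = ∑_{k∈I} μ_k γ t k` for some
`μ ∈ stdSimplex ℝ I` is the projection of a compact subset of `[a,b] × stdSimplex`, hence closed;
finite intersection over `i`, finite union over `I`. -/
def CLSD : Prop := ∀ (ι σ : Type) [Fintype ι] [Fintype σ] (γ : ℝ → σ → ι → ℝ) (a b : ℝ),
  Continuous γ → (∀ t ∈ Icc a b, (interior (KH (γ t))).Nonempty) →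
  IsClosed {t : ℝ | t ∈ Icc a b ∧ IsSimplex (KH (γ t))}

/-! ## E. Pyramids and two points outside a hyperplane -/

/-- **PYRA**.
Proof.  `h = y (inr ()) ≠ 0`.  The points of `joinSet B univ` are `(t•x, 0•, t)`, `t ∈ [0,1]`, `x ∈ B`.
`A z = (i ↦ z(inl (inl i)) + (1 - z(inr ())) y(inl i), (1 - z(inr ())) h)`: an affine equivalence
(inverse: `z(inr ()) = 1 - u(inr ())/h`, ...), which maps `(t•x, t)` to `t • lift x + (1-t) • y`; and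
`convexHull (insert y (lift '' B))` is the set of these points (`convexHull_insert`, `lift '' B` convex,
nonempty). -/
def PYRA : Prop := ∀ (ι : Type) [Fintype ι] (B : Set (ι → ℝ)) (y : ι ⊕ Unit → ℝ), Convex ℝ B →
  B.Nonempty → y (Sum.inr ()) ≠ 0 →
  ∃ A : ((ι ⊕ Empty) ⊕ Unit → ℝ) ≃ᵃ[ℝ] (ι ⊕ Unit → ℝ),
    A '' joinSet B (univ : Set (Empty → ℝ)) = convexHull ℝ (insert y (lift '' B))

/-- **TWOI** (opposite sides).
Proof.  `h = y(inr) `, `h' = y'(inr)`, `h h' < 0`.  The segment `[y,y']` meets the hyperplane `inr = 0` in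
one point `lift w`; `d = (y' - y)/(h' - h)` has `d(inr) = 1`, `y = lift w + h d`, `y' = lift w + h' d`.
Put `K' = {x | x + w ∈ convexHull (insert w C)}` (contains `0`), `L' = {z : Unit → ℝ | z () between h and
h'}` (contains `0`).  The affine equivalence `A u = lift (u ∘ inl + w) + u(inr ()) d` maps
`freeSum K' L' = convexHull (K'×0 ∪ 0×L')` to `convexHull (lift '' convexHull (insert w C) ∪ [y,y'])`
`= convexHull (insert y (insert y' (lift '' C)))` (as `lift w ∈ [y,y']`). -/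
def TWOI : Prop := ∀ (ι : Type) [Fintype ι] (C : Set (ι → ℝ)) (y y' : ι ⊕ Unit → ℝ),
  Convex ℝ C → C.Nonempty → y (Sum.inr ()) * y' (Sum.inr ()) < 0 →
  ∃ (w : ι → ℝ) (A : (ι ⊕ Unit → ℝ) ≃ᵃ[ℝ] (ι ⊕ Unit → ℝ)),
    A '' (Pool.Agent.Helper47.AQ.freeSum ((fun x => x - w) '' convexHull ℝ (insert w C))
      {z : Unit → ℝ | min (y (Sum.inr ())) (y' (Sum.inr ())) ≤ z () ∧
        z () ≤ max (y (Sum.inr ())) (y' (Sum.inr ()))}) =
      convexHull ℝ (insert y (insert y' (lift '' C)))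

/-- **TWOII** (same side, different heights).  `y = lift w + v` is the apex, `lift w + τ v` the second point,
`0 < τ < 1`; `K_s = convexHull (insert y (insert (lift w + s v) (lift '' C)))`.
Proof.  For `s ∈ [0,1]` the points of `K_s` are exactly `(1-λ) lift c + λ lift w + λσ v` with `c ∈ C`,
`λ ∈ [0,1]`, `σ ∈ [s,1]` (`C` convex).  `K_1 = convexHull (insert y (lift '' C))`.
`FibV`: for `z` with `c, λ, σ ∈ [τ,1]` take `σ₀ = (σ-τ)/(1-τ) ∈ [0,1]`, `x = (c,λ,σ₀) ∈ K_0`,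
`y = (c,λ,1) ∈ K_1`; `(1-τ)σ₀ + τ = σ`.
`CoFib`: `x = (c,λ,σ) ∈ K_0`, `y = (c',λ',1) ∈ K_1`, `x - y ∥ v`.  The coordinate `inr` gives `a`; with
`v(inr) ≠ 0` the vectors `lift _` and `v` are independent, so `(1-λ)c + λw = (1-λ')c' + λ'w =: u` and the
combination is `lift u + g v`, `g = (1-τ)λσ + τλ'`.  `τλ' ≤ g ≤ max(λ,λ')`; the points `lift u + τλ' v`
(`c',λ',σ=τ`), `lift u + λ' v`, `lift u + λ v` are in `K_τ`, which is convex.  Second clause: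
`(c,λ,σ) ∈ K_0` and `(c,λ,1) ∈ K_1`; third: `(c,λ,1) ∈ K_0`. -/
def TWOII : Prop := ∀ (ι : Type) [Fintype ι] (C : Set (ι → ℝ)) (w : ι → ℝ) (v : ι ⊕ Unit → ℝ)
  (τ : ℝ), Convex ℝ C → C.Nonempty → v (Sum.inr ()) ≠ 0 → 0 < τ → τ < 1 →
  FibV v (convexHull ℝ (insert (lift w + v) (insert (lift w) (lift '' C))))
    (convexHull ℝ (insert (lift w + v) (lift '' C)))
    (convexHull ℝ (insert (lift w + v) (insert (lift w + τ • v) (lift '' C)))) τ ∧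
  CoFib v (convexHull ℝ (insert (lift w + v) (insert (lift w) (lift '' C))))
    (convexHull ℝ (insert (lift w + v) (lift '' C)))
    (convexHull ℝ (insert (lift w + v) (insert (lift w + τ • v) (lift '' C)))) τ

/-- **TWOIII** (equal heights).  `K_s = convexHull (insert y (insert (y + s v) (lift '' C)))`, `v(inr) = 0`.
Proof.  For `s ≥ 0` the points of `K_s` are exactly `(1-λ) lift c + λ (y + σ v)`, `c ∈ C`, `λ ∈ [0,1]`,
`σ ∈ [0,s]`; `K_0 = convexHull (insert y (lift '' C))`.  `FibV`: `z = (c,λ,σ)`, `σ ∈ [0,1]`, take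
`(c,λ,0)` and `(c,λ,2σ)`.  `CoFib`: `x = (c,λ,0)`, `y' = (c',λ',σ')`, `σ' ∈ [0,2]`, `x - y' ∥ v`, and
`v(inr) = 0`, `y(inr) ≠ 0` give `λ = λ'`; the middle is `((c+c')/2, λ, σ'/2) ∈ K_1`.  Second clause:
`(c,λ,0) ∈ K_2`; third: `(c',λ',0) ∈ K_0`. -/
def TWOIII : Prop := ∀ (ι : Type) [Fintype ι] (C : Set (ι → ℝ)) (y v : ι ⊕ Unit → ℝ),
  Convex ℝ C → C.Nonempty → v (Sum.inr ()) = 0 → y (Sum.inr ()) ≠ 0 →
  FibV v (convexHull ℝ (insert y (lift '' C)))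
    (convexHull ℝ (insert y (insert (y + (2 : ℝ) • v) (lift '' C))))
    (convexHull ℝ (insert y (insert (y + v) (lift '' C)))) (1 / 2) ∧
  CoFib v (convexHull ℝ (insert y (lift '' C)))
    (convexHull ℝ (insert y (insert (y + (2 : ℝ) • v) (lift '' C))))
    (convexHull ℝ (insert y (insert (y + v) (lift '' C)))) (1 / 2)

end Pool.Agent.Helper82.PN
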