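import Pool.Agent.Helper82.PN.PtsFam
import Pool.Agent.Helper4.PN.TWOC

/-!
# Project PN: all goals, the final facts
-/

open MeasureTheory Set
open scoped ENNReal
open Pool.Agent.Helper47.AQ

noncomputable section

namespace Pool.Agent.Helper82.PN

open St (Cls2)

variable {ι κ σ : Type} [Fintype ι] [Fintype κ] [Fintype σ]

/-- The inequality for the class, unconditionally. -/
theorem cls2_main {K : Set (ι → ℝ)} (h : Cls2 K) : Good K :=
  cls2_good Pool.Agent.Helper4.PN.gTWOII Pool.Agent.Helper4.PN.gTWOIII h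

/-- The inequality for the limits of bodies of the class. -/
theorem lim_le {K : Set (ι → ℝ)} (hK : IsBody K)
    (h : ∀ ε : ℝ, 0 < ε → ∃ K' : Set (ι → ℝ), Cls2 K' ∧ St.Near ε K K') :
    cn (Fintype.card ι) ≤ F K := by
  by_contra hcon
  push Not at hcon
  obtain ⟨ε, hε, hN⟩ := fFNEAR ι K hK (cn (Fintype.card ι) - F K) (by linarith)
  obtain ⟨K', h1, h2⟩ := h ε hε
  have h3 := cls2_main h1
  have h4 := (abs_lt.1 (hN K' h3.body h2)).2
  have h5 := h3.le
  linarith

theorem simplex_cls2 {K : Set (ι → ℝ)} (h : IsSimplex K) : Cls2 K := by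
  classical
  have h1 : IsSimplex {x : ι → ℝ | (∀ i, 0 ≤ x i) ∧ ∑ i, x i ≤ 1} := by
    have h2 := simplexW (fun _ : ι => (1 : ℝ)) (fun _ => one_pos)
    simp only [mul_one] at h2
    exact ⟨corner_simplex.body.int, h2⟩
  obtain ⟨A, hA⟩ := h1.equiv h rfl
  rw [← hA]
  exact Cls2.affine A (Cls2.corner corner_simplex)

/-- The old class of CornersFreeSums is contained in the new one. -/
theorem cls2_of_cls {K : Set (ι → ℝ)} (h : Cls K) : Cls2 K := by
  induction h with
  | corner hK => exact Cls2.corner hK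
  | uncond h2 hK => exact Cls2.uncond h2 hK
  | affine A _ ih => exact Cls2.affine A ih
  | prod _ _ ihK ihL => exact Cls2.prod ihK ihL
  | join _ _ ihK ihL => exact Cls2.join ihK ihL
  | freeSum hK0 hL0 _ _ ihK ihL => exact Cls2.freeSum hK0 hL0 ihK ihL

/-- The family of the hulls of a compact convex set of dimension at most three and `n - 2` points. -/
theorem base_cls2 {n : ℕ} (C : Set (Fin 3 → ℝ)) (A : (Fin 3 → ℝ) →ᵃ[ℝ] (Fin n → ℝ))
    (y : Fin (n - 2) → Fin n → ℝ) (hC : Convex ℝ C) (hCc : IsCompact C) (hCn : C.Nonempty)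
    (hint : (interior (convexHull ℝ (A '' C ∪ range y))).Nonempty) :
    Cls2 (convexHull ℝ (A '' C ∪ range y)) := by
  rcases Nat.lt_or_ge n 3 with hn | hn
  · exact Cls2.small (by simp; omega)
      (base_body (image_convex hC A) (image_compact hCc A) (hCn.image _) hint)
  · exact pb (n - 3) (Fin n) (Fin (n - 2)) (by simp; omega) (by simp; omega) C A y hC hCc hCn hint

/-- Hulls of an affine copy of `C` and of `n - k + 1` points, `k = dim C`. -/
theorem points_cls2 {n k : ℕ} (C : Set (Fin k → ℝ)) (A : (Fin k → ℝ) →ᵃ[ℝ] (Fin n → ℝ))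
    (y : Fin (n - k + 1) → Fin n → ℝ) (hC : IsBody C)
    (hCp : ∀ p : Fin k → ℝ, Cls2 (convexHull ℝ (insert p C))) (hA : Function.Injective A)
    (hint : (interior (convexHull ℝ (A '' C ∪ range y))).Nonempty) :
    Cls2 (convexHull ℝ (A '' C ∪ range y)) := by
  have hkn : k ≤ n := by
    have h1 : Function.Injective A.linear := A.linear_injective_iff.2 hA
    have h2 := LinearMap.finrank_le_finrank_of_injective h1
    simpa using h2
  refine pg hC hCp (n - k) (Fin n) (Fin (n - k + 1)) ?_ (by simp) A y hA hint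
  simp only [Fintype.card_fin]
  omega

end Pool.Agent.Helper82.PN
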