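import Pool.Agent.Helper82.PN.Class

/-!
# Hulls of a body of dimension three and of `n - 2` points belong to the class
-/

open MeasureTheory Set
open scoped ENNReal
open Pool.Agent.Helper47.AQ

noncomputable section

namespace Pool.Agent.Helper82.PN

open St (Cls2)

variable {ι κ σ τ : Type} [Fintype ι] [Fintype κ] [Fintype σ] [Fintype τ]

/-- Compactness of the hull of a compact convex set and finitely many points. -/
theorem compact_union {S : Set (ι → ℝ)} (hS : Convex ℝ S) (hc : IsCompact S) (hne : S.Nonempty)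
    (T : Set (ι → ℝ)) (hT : T.Finite) : IsCompact (convexHull ℝ (S ∪ T)) := by
  induction T, hT using Set.Finite.induction_on with
  | empty => rw [union_empty, hS.convexHull_eq]; exact hc
  | @insert a s _ _ ih =>
    have e : convexHull ℝ (S ∪ insert a s) = convexHull ℝ (insert a (convexHull ℝ (S ∪ s))) := by
      rw [hull_insert_hull, union_insert]
    rw [e]
    exact compact_hull_insert (convex_convexHull ℝ _) ih
      ((hne.mono subset_union_left).mono (subset_convexHull ℝ _)) a

theorem base_body {S : Set (ι → ℝ)} (hS : Convex ℝ S) (hc : IsCompact S) (hne : S.Nonempty)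
    {y : σ → ι → ℝ} (hint : (interior (convexHull ℝ (S ∪ range y))).Nonempty) :
    IsBody (convexHull ℝ (S ∪ range y)) :=
  ⟨convex_convexHull ℝ _, compact_union hS hc hne _ (finite_range y), hint⟩

/-- A set whose hull has empty interior lies in a hyperplane. -/
theorem exists_const_of_empty' {S : Set (ι → ℝ)} (hne : S.Nonempty)
    (h : ¬ (interior (convexHull ℝ S)).Nonempty) :
    ∃ q : (ι → ℝ) →ₗ[ℝ] ℝ, q ≠ 0 ∧ ∃ c : ℝ, ∀ z ∈ S, q z = c := by
  rw [interior_convexHull_nonempty_iff_affineSpan_eq_top] at h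
  have hne' : (affineSpan ℝ S : Set (ι → ℝ)).Nonempty := (affineSpan_nonempty ℝ).2 hne
  have h1 : vectorSpan ℝ S < ⊤ := by
    refine lt_top_iff_ne_top.2 fun h2 => h ?_
    have h3 : (affineSpan ℝ S).direction = ⊤ := by rw [direction_affineSpan, h2]
    exact (AffineSubspace.direction_eq_top_iff_of_nonempty hne').1 h3
  obtain ⟨q, hq, hk⟩ := Submodule.exists_le_ker_of_lt_top _ h1
  obtain ⟨z₀, hz₀⟩ := hne
  refine ⟨q, hq, q z₀, fun z hz => ?_⟩
  have h2 : z - z₀ ∈ vectorSpan ℝ S := vsub_mem_vectorSpan ℝ hz hz₀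
  have h3 := hk h2
  rw [LinearMap.mem_ker, map_sub] at h3
  linarith

/-- The claim: `m = card ι - 3`. -/
def PB (m : ℕ) : Prop := ∀ (ι σ : Type) [Fintype ι] [Fintype σ], Fintype.card ι = m + 3 →
  Fintype.card σ = m + 1 → ∀ (C : Set (Fin 3 → ℝ)) (A : (Fin 3 → ℝ) →ᵃ[ℝ] (ι → ℝ))
    (y : σ → ι → ℝ), Convex ℝ C → IsCompact C → C.Nonempty →
    (interior (convexHull ℝ (A '' C ∪ range y))).Nonempty → Cls2 (convexHull ℝ (A '' C ∪ range y))

theorem image_compact {C : Set (κ → ℝ)} (hC : IsCompact C) (A : (κ → ℝ) →ᵃ[ℝ] (ι → ℝ)) :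
    IsCompact (A '' C) := hC.image A.continuous_of_finiteDimensional

theorem image_convex {C : Set (κ → ℝ)} (hC : Convex ℝ C) (A : (κ → ℝ) →ᵃ[ℝ] (ι → ℝ)) :
    Convex ℝ (A '' C) := hC.affine_image A

/-- The projection `ℝ^(κ ⊕ Unit) → ℝ^κ`. -/
def prL (κ : Type) : (κ ⊕ Unit → ℝ) →ₗ[ℝ] (κ → ℝ) where
  toFun z := fun k => z (Sum.inl k)
  map_add' _ _ := rfl
  map_smul' _ _ := rfl

theorem cls2_of_affine {K : Set (ι → ℝ)} (A : (ι → ℝ) ≃ᵃ[ℝ] (κ → ℝ)) (h : Cls2 (A '' K)) :
    Cls2 K := by
  have h1 := Cls2.affine A.symm h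
  rwa [image_image, show (fun x => A.symm (A x)) = id from by ext x; simp, image_id] at h1

theorem cls2_pyr {B : Set (ι → ℝ)} (hB : Cls2 B) (hb : IsBody B) {y : ι ⊕ Unit → ℝ}
    (hy : y (Sum.inr ()) ≠ 0) : Cls2 (convexHull ℝ (insert y (lift '' B))) := by
  obtain ⟨A, hA⟩ := Pool.Agent.Helper45.PN.gPYRA ι B y hb.conv hb.nonempty hy
  rw [← hA]
  refine Cls2.affine A (Cls2.join hB (Cls2.small (by simp) simplex_empty.isBody))

/-- `A '' S` for a family in the hyperplane: the base set. -/
theorem lift_pr {z : κ ⊕ Unit → ℝ} (h : z (Sum.inr ()) = 0) : lift (prL κ z) = z := (eq_lift h).symm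

/-- All the points but one, and the base, in a hyperplane. -/
theorem pyrB {m : ℕ} (hT : PB m) (hι : Fintype.card ι = m + 4) (hσ : Fintype.card σ = m + 2)
    {C : Set (Fin 3 → ℝ)} {A : (Fin 3 → ℝ) →ᵃ[ℝ] (ι → ℝ)} {y : σ → ι → ℝ} (hC : Convex ℝ C)
    (hCc : IsCompact C) (hCn : C.Nonempty)
    (hint : (interior (convexHull ℝ (A '' C ∪ range y))).Nonempty) (j : σ)
    {q : (ι → ℝ) →ₗ[ℝ] ℝ} (hq : q ≠ 0) {c : ℝ} (hqA : ∀ z ∈ C, q (A z) = c)
    (hc : ∀ i, i ≠ j → q (y i) = c) : Cls2 (convexHull ℝ (A '' C ∪ range y)) := by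
  classical
  obtain ⟨B, hB⟩ := Pool.Agent.Helper66.PN.gHYPC ι (m + 3) hι q c hq
  refine cls2_of_affine B ?_
  have hbody := base_body (image_convex hC A) (image_compact hCc A) (hCn.image _) hint
  have hint' : (interior (B '' convexHull ℝ (A '' C ∪ range y))).Nonempty := (hbody.affine B).int
  have e0 : B '' convexHull ℝ (A '' C ∪ range y) =
      convexHull ℝ ((fun z => B (A z)) '' C ∪ range (B ∘ y)) := by
    have h1 := AffineMap.image_convexHull (B : (ι → ℝ) →ᵃ[ℝ] (Fin (m + 3) ⊕ Unit → ℝ))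
      (A '' C ∪ range y)
    have h2 : B '' convexHull ℝ (A '' C ∪ range y) = convexHull ℝ (B '' (A '' C ∪ range y)) := h1
    rw [h2, image_union, image_image, ← range_comp]
  rw [e0] at hint' ⊢
  set A' : (Fin 3 → ℝ) →ᵃ[ℝ] (Fin (m + 3) → ℝ) :=
    (prL (Fin (m + 3))).toAffineMap.comp ((B : (ι → ℝ) →ᵃ[ℝ] (Fin (m + 3) ⊕ Unit → ℝ)).comp A)
    with hA'
  set u : σ → (Fin (m + 3) ⊕ Unit → ℝ) := B ∘ y with hu
  have hu0 : ∀ i, i ≠ j → u i (Sum.inr ()) = 0 := fun i hi => by
    simp only [hu, Function.comp, hB, hc i hi, sub_self]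
  have hA0 : ∀ z ∈ C, (B (A z)) (Sum.inr ()) = 0 := fun z hz => by
    rw [hB, hqA z hz, sub_self]
  have hAl : ∀ z ∈ C, lift (A' z) = B (A z) := fun z hz => lift_pr (hA0 z hz)
  set w : {i // i ≠ j} → Fin (m + 3) → ℝ := fun i => prL _ (u i.1) with hw
  have hlw : ∀ i : {i // i ≠ j}, lift (w i) = u i.1 := fun i => lift_pr (hu0 i.1 i.2)
  have e1 : (fun z => B (A z)) '' C ∪ range u = insert (u j) (lift '' (A' '' C ∪ range w)) := by
    ext z
    constructor
    · rintro (⟨p, hp, rfl⟩ | ⟨i, rfl⟩)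
      · exact mem_insert_of_mem _ ⟨A' p, Or.inl ⟨p, hp, rfl⟩, hAl p hp⟩
      · by_cases hi : i = j
        · rw [hi]; exact mem_insert _ _
        · exact mem_insert_of_mem _ ⟨w ⟨i, hi⟩, Or.inr (mem_range_self _), hlw ⟨i, hi⟩⟩
    · rintro (rfl | ⟨_, (⟨p, hp, rfl⟩ | ⟨i, rfl⟩), rfl⟩)
      · exact Or.inr (mem_range_self j)
      · exact Or.inl ⟨p, hp, (hAl p hp).symm⟩
      · exact Or.inr ⟨i.1, (hlw i).symm⟩
  rw [e1] at hint' ⊢
  rw [← hull_insert_lift_hull]
  have hcard : Fintype.card {i // i ≠ j} = m + 1 := by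
    rw [Fintype.card_subtype_compl, Fintype.card_subtype_eq, hσ]
    omega
  have hyr : u j (Sum.inr ()) ≠ 0 := by
    intro h0
    have hq2 : extF (0 : (Fin (m + 3) → ℝ) →ₗ[ℝ] ℝ) 1 ≠ 0 := by
      intro h
      have h1 := LinearMap.congr_fun h (Sum.elim 0 1)
      have h2 : extF (0 : (Fin (m + 3) → ℝ) →ₗ[ℝ] ℝ) 1 (Sum.elim 0 1) = 0 + 1 * 1 := rfl
      rw [h2] at h1
      simp at h1
    refine flat_of_const (c := 0) hq2 ?_ hint'
    rintro z (rfl | ⟨p, -, rfl⟩)
    · have h2 : extF (0 : (Fin (m + 3) → ℝ) →ₗ[ℝ] ℝ) 1 (u j) = 0 + 1 * u j (Sum.inr ()) := rfl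
      rw [h2, h0]; ring
    · rw [extF_lift]; rfl
  have hBi : (interior (convexHull ℝ (A' '' C ∪ range w))).Nonempty := by
    by_contra hcon
    obtain ⟨q₂, hq₂, c₂, hc₂⟩ := exists_const_of_empty'
      ((hCn.image A').mono subset_union_left) hcon
    refine flat_of_const (c := c₂)
      (extF_ne hq₂ ((c₂ - q₂ (fun k => u j (Sum.inl k))) / u j (Sum.inr ()))) ?_ hint'
    rintro z (rfl | ⟨p, hp, rfl⟩)
    · show q₂ (fun k => u j (Sum.inl k)) +
        ((c₂ - q₂ (fun k => u j (Sum.inl k))) / u j (Sum.inr ())) * u j (Sum.inr ()) = c₂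
      rw [div_mul_cancel₀ _ hyr]; ring
    · rw [extF_lift]
      exact hc₂ p hp
  exact cls2_pyr (hT (Fin (m + 3)) {i // i ≠ j} (by simp) hcard C A' w hC hCc hCn hBi)
    (base_body (image_convex hC A') (image_compact hCc A') (hCn.image _) hBi) hyr

/-- **The family.** -/
theorem pb (m : ℕ) : PB m := by
  classical
  induction m with
  | zero =>
    intro ι σ _ _ hι hσ C A y hC hCc hCn hint
    exact Cls2.small (by omega)
      (base_body (image_convex hC A) (image_compact hCc A) (hCn.image _) hint)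
  | succ m hT =>
    intro ι σ _ _ hι hσ C A y hC hCc hCn hint
    have hι' : Fintype.card ι = m + 4 := by omega
    have hσ' : Fintype.card σ = m + 2 := by omega
    obtain ⟨j, j', hjj⟩ : ∃ j j' : σ, j ≠ j' := by
      have : Nontrivial σ := Fintype.one_lt_card_iff_nontrivial.1 (by omega)
      exact exists_pair_ne σ
    -- a hyperplane containing the base and the other points
    obtain ⟨q, hq, c, hqA, hqy⟩ : ∃ q : (ι → ℝ) →ₗ[ℝ] ℝ, q ≠ 0 ∧ ∃ c : ℝ,
        (∀ z ∈ C, q (A z) = c) ∧ ∀ i, i ≠ j → i ≠ j' → q (y i) = c := by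
      obtain ⟨z₀, hz₀⟩ := hCn
      set τ := {i // i ≠ j ∧ i ≠ j'}
      have hτ : Fintype.card τ = m := by
        have h1 : Fintype.card τ = (Finset.univ.filter fun i => i ≠ j ∧ i ≠ j').card :=
          Fintype.card_subtype _
        have h2 : (Finset.univ.filter fun i => i ≠ j ∧ i ≠ j') =
            ((Finset.univ.erase j).erase j' : Finset σ) := by
          ext i
          simp [and_comm]
        rw [h1, h2, Finset.card_erase_of_mem (by simp [hjj.symm]),
          Finset.card_erase_of_mem (by simp), Finset.card_univ, hσ']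
        omega
      set W : Submodule ℝ (ι → ℝ) := Submodule.span ℝ
        (range (fun k : Fin 3 => A.linear (Pi.single k 1)) ∪ range (fun i : τ => y i.1 - A z₀))
        with hW
      have hfin : Module.finrank ℝ W < Module.finrank ℝ (ι → ℝ) := by
        have h1 : (range (fun k : Fin 3 => A.linear (Pi.single k 1)) ∪
            range (fun i : τ => y i.1 - A z₀)) =
            range (Sum.elim (fun k : Fin 3 => A.linear (Pi.single k 1))
              (fun i : τ => y i.1 - A z₀)) := (Sum.elim_range _ _).symm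
        have h2 := finrank_range_le_card (R := ℝ)
          (Sum.elim (fun k : Fin 3 => A.linear (Pi.single k 1)) (fun i : τ => y i.1 - A z₀))
        rw [Set.finrank, ← h1, ← hW, Fintype.card_sum, Fintype.card_fin, hτ] at h2
        rw [Module.finrank_fintype_fun_eq_card, hι']
        omega
      have hlt : W < ⊤ := by
        refine lt_top_iff_ne_top.2 fun h => ?_
        rw [h, finrank_top] at hfin
        exact lt_irrefl _ hfin
      obtain ⟨q, hq, hk⟩ := Submodule.exists_le_ker_of_lt_top _ hlt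
      have hk1 : ∀ v : Fin 3 → ℝ, q (A.linear v) = 0 := by
        intro v
        have h1 : v = ∑ k, v k • (Pi.single k (1 : ℝ) : Fin 3 → ℝ) := by
          ext l
          simp [Finset.sum_apply, Pi.single_apply]
        rw [h1, map_sum, map_sum]
        refine Finset.sum_eq_zero fun k _ => ?_
        rw [map_smul, map_smul]
        have h2 : A.linear (Pi.single k 1) ∈ W :=
          Submodule.subset_span (Or.inl (mem_range_self k))
        have h3 := hk h2
        rw [LinearMap.mem_ker] at h3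
        rw [h3, smul_zero]
      refine ⟨q, hq, q (A z₀), fun z _ => ?_, fun i hi hi' => ?_⟩
      · have h1 : A z - A z₀ = A.linear (z - z₀) := by
          have := A.linearMap_vsub z z₀
          simpa using this.symm
        have h2 : q (A z) - q (A z₀) = 0 := by rw [← map_sub, h1, hk1]
        linarith
      · have h2 : y i - A z₀ ∈ W :=
          Submodule.subset_span (Or.inr ⟨⟨i, hi, hi'⟩, rfl⟩)
        have h3 := hk h2
        rw [LinearMap.mem_ker, map_sub] at h3
        linarith
    by_cases h1 : q (y j) = c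
    · refine pyrB hT hι' hσ' hC hCc hCn hint j' hq hqA fun i hi => ?_
      by_cases hij : i = j
      · rw [hij, h1]
      · exact hqy i hij hi
    by_cases h2 : q (y j') = c
    · refine pyrB hT hι' hσ' hC hCc hCn hint j hq hqA fun i hi => ?_
      by_cases hij : i = j'
      · rw [hij, h2]
      · exact hqy i hi hij
    obtain ⟨B, hB⟩ := Pool.Agent.Helper66.PN.gHYPC ι (m + 3) hι' q c hq
    refine cls2_of_affine B ?_
    have hbody := base_body (image_convex hC A) (image_compact hCc A) (hCn.image _) hint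
    have hint' : (interior (B '' convexHull ℝ (A '' C ∪ range y))).Nonempty :=
      (hbody.affine B).int
    have e0 : B '' convexHull ℝ (A '' C ∪ range y) =
        convexHull ℝ ((fun z => B (A z)) '' C ∪ range (B ∘ y)) := by
      have h1 := AffineMap.image_convexHull (B : (ι → ℝ) →ᵃ[ℝ] (Fin (m + 3) ⊕ Unit → ℝ))
        (A '' C ∪ range y)
      have h2 : B '' convexHull ℝ (A '' C ∪ range y) = convexHull ℝ (B '' (A '' C ∪ range y)) := h1
      rw [h2, image_union, image_image, ← range_comp]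
    rw [e0] at hint' ⊢
    set BA : (Fin 3 → ℝ) →ᵃ[ℝ] (Fin (m + 3) ⊕ Unit → ℝ) :=
      (B : (ι → ℝ) →ᵃ[ℝ] (Fin (m + 3) ⊕ Unit → ℝ)).comp A with hBA
    set A' : (Fin 3 → ℝ) →ᵃ[ℝ] (Fin (m + 3) → ℝ) := (prL (Fin (m + 3))).toAffineMap.comp BA
      with hA'
    set u : σ → (Fin (m + 3) ⊕ Unit → ℝ) := B ∘ y with hu
    have hu0 : ∀ i, i ≠ j → i ≠ j' → u i (Sum.inr ()) = 0 := fun i hi hi' => by
      simp only [hu, Function.comp, hB, hqy i hi hi', sub_self]
    have huj : u j (Sum.inr ()) ≠ 0 := by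
      simp only [hu, Function.comp, hB]
      exact sub_ne_zero.2 h1
    have huj' : u j' (Sum.inr ()) ≠ 0 := by
      simp only [hu, Function.comp, hB]
      exact sub_ne_zero.2 h2
    have hA0 : ∀ z ∈ C, (B (A z)) (Sum.inr ()) = 0 := fun z hz => by
      rw [hB, hqA z hz, sub_self]
    have hAl : ∀ z ∈ C, lift (A' z) = B (A z) := fun z hz => lift_pr (hA0 z hz)
    set τ := {i // i ≠ j ∧ i ≠ j'} with hτdef
    have hτ : Fintype.card τ = m := by
      have h1 : Fintype.card τ = (Finset.univ.filter fun i => i ≠ j ∧ i ≠ j').card :=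
        Fintype.card_subtype _
      have h2 : (Finset.univ.filter fun i => i ≠ j ∧ i ≠ j') =
          ((Finset.univ.erase j).erase j' : Finset σ) := by
        ext i
        simp [and_comm]
      rw [h1, h2, Finset.card_erase_of_mem (by simp [hjj.symm]),
        Finset.card_erase_of_mem (by simp), Finset.card_univ, hσ']
      omega
    set w : τ → Fin (m + 3) → ℝ := fun i => prL _ (u i.1) with hw
    have hlw : ∀ i : τ, lift (w i) = u i.1 := fun i => lift_pr (hu0 i.1 i.2.1 i.2.2)
    have e1 : (fun z => B (A z)) '' C ∪ range u =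
        insert (u j) (insert (u j') (lift '' (A' '' C ∪ range w))) := by
      ext z
      constructor
      · rintro (⟨p, hp, rfl⟩ | ⟨i, rfl⟩)
        · exact mem_insert_of_mem _ (mem_insert_of_mem _ ⟨A' p, Or.inl ⟨p, hp, rfl⟩, hAl p hp⟩)
        · by_cases hi : i = j
          · rw [hi]; exact mem_insert _ _
          · by_cases hi' : i = j'
            · rw [hi']; exact mem_insert_of_mem _ (mem_insert _ _)
            · exact mem_insert_of_mem _ (mem_insert_of_mem _
                ⟨w ⟨i, hi, hi'⟩, Or.inr (mem_range_self _), hlw ⟨i, hi, hi'⟩⟩)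
      · rintro (rfl | rfl | ⟨_, (⟨p, hp, rfl⟩ | ⟨i, rfl⟩), rfl⟩)
        · exact Or.inr (mem_range_self j)
        · exact Or.inr (mem_range_self j')
        · exact Or.inl ⟨p, hp, (hAl p hp).symm⟩
        · exact Or.inr ⟨i.1, (hlw i).symm⟩
    by_cases hBi : (interior (convexHull ℝ (A' '' C ∪ range w))).Nonempty
    swap
    · obtain ⟨q₂, hq₂, c₂, hc₂⟩ := exists_const_of_empty'
        ((hCn.image A').mono subset_union_left) hBi
      have e2 : (fun z => B (A z)) '' C = BA '' C := rfl
      rw [e2] at hint' ⊢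
      refine pyrB hT (by simp) hσ' hC hCc hCn hint' j'
        (extF_ne hq₂ ((c₂ - q₂ (fun k => u j (Sum.inl k))) / u j (Sum.inr ()))) (c := c₂)
        (fun z hz => ?_) fun i hi => ?_
      · have h3 : BA z = lift (A' z) := (hAl z hz).symm
        rw [h3, extF_lift]
        exact hc₂ _ (Or.inl ⟨z, hz, rfl⟩)
      · by_cases hij : i = j
        · rw [hij]
          show q₂ (fun k => u j (Sum.inl k)) +
            ((c₂ - q₂ (fun k => u j (Sum.inl k))) / u j (Sum.inr ())) * u j (Sum.inr ()) = c₂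
          rw [div_mul_cancel₀ _ huj]; ring
        · rw [← hlw ⟨i, hij, hi⟩, extF_lift]
          exact hc₂ _ (Or.inr (mem_range_self _))
    rw [e1]
    have e3 : convexHull ℝ (insert (u j) (insert (u j') (lift '' (A' '' C ∪ range w)))) =
        convexHull ℝ (insert (u j) (insert (u j')
          (St.lift '' convexHull ℝ (A' '' C ∪ range w)))) := by
      have : St.lift '' convexHull ℝ (A' '' C ∪ range w) =
          lift '' convexHull ℝ (A' '' C ∪ range w) := rfl
      rw [this, lift_image_hull, hull_insert2]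
    rw [e3]
    refine Cls2.twoPoint (u j) (u j')
      (base_body (image_convex hC A') (image_compact hCc A') (hCn.image _) hBi) (fun p => ?_) huj
    have e4 : convexHull ℝ (insert p (convexHull ℝ (A' '' C ∪ range w))) =
        convexHull ℝ (A' '' C ∪ range (fun o : Option τ => o.elim p w)) := by
      rw [hull_insert_hull]
      congr 1
      ext z
      constructor
      · rintro (rfl | hz | ⟨i, rfl⟩)
        · exact Or.inr ⟨none, rfl⟩
        · exact Or.inl hz
        · exact Or.inr ⟨some i, rfl⟩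
      · rintro (hz | ⟨o, rfl⟩)
        · exact Or.inr (Or.inl hz)
        · rcases o with _ | i
          · exact Or.inl rfl
          · exact Or.inr (Or.inr (mem_range_self i))
    rw [e4]
    refine hT (Fin (m + 3)) (Option τ) (by simp) (by rw [Fintype.card_option, hτ]) C A' _ hC hCc
      hCn ?_
    rw [← e4]
    exact hBi.mono (interior_mono ((subset_insert _ _).trans (subset_convexHull ℝ _)))

end Pool.Agent.Helper82.PN
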