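import Pool.Agent.Helper82.PN.Goals
import Pool.Agent.Helper67.PN.BBL1
import Pool.Agent.Helper22.PN.PFIN
import Pool.Agent.Helper19.PN.GI
import Pool.Agent.Helper17.PN.PLX
import Pool.Agent.Helper90.PN.VOLC0
import Pool.Agent.Helper78.PN.SHADV

/-!
# The Busemann type inequality: assembly
-/

open MeasureTheory Set
open scoped ENNReal
open Pool.Agent.Helper47.AQ

noncomputable section

namespace Pool.Agent.Helper82.PN

theorem bus0 (hB : BBL1) (hP : PFIN) (hG : GI) (hX : PLX) : BUS0 := by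
  intro m K₀ K₁ L ρ hρ0 hρ1 h0 h1 hL hf
  obtain ⟨-, m0, -, p0, B0, b0⟩ := hP m K₀ h0
  obtain ⟨-, m1, -, p1, B1, b1⟩ := hP m K₁ h1
  obtain ⟨-, mL, -, pL, -, -⟩ := hP m L hL
  obtain ⟨i0, e0⟩ := hG m K₀ h0
  obtain ⟨i1, e1⟩ := hG m K₁ h1
  obtain ⟨iL, eL⟩ := hG m L hL
  have key := hB (aK K₀) (aK K₁) (aK L) ρ (max B0 B1) hρ0 hρ1 m0 m1 mL
    (fun x hx => ⟨p0 x hx, (b0 x hx).trans (le_max_left _ _)⟩)
    (fun x hx => ⟨p1 x hx, (b1 x hx).trans (le_max_right _ _)⟩) pL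
    (fun x y hx hy => hX m K₀ K₁ L ρ hρ0 hρ1 h0 h1 hL hf x y hx hy) i0 i1 iL
  set I0 := ∫ s in Ioi 0, aK K₀ s ^ 2
  set I1 := ∫ s in Ioi 0, aK K₁ s ^ 2
  set IL := ∫ s in Ioi 0, aK L s ^ 2
  have hc : (0 : ℝ) < ((m + 1).factorial : ℝ) := by exact_mod_cast (m + 1).factorial_pos
  set P0 := (volume (dpol K₀)).toReal
  set P1 := (volume (dpol K₁)).toReal
  set PL := (volume (dpol L)).toReal
  have hP0 : 0 < P0 := h0.dpol_pos
  have hP1 : 0 < P1 := h1.dpol_pos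
  have hPL : 0 < PL := hL.dpol_pos
  set c := ((m + 1).factorial : ℝ) with hcdef
  have q0 : I0 = c * P0 / 2 := by linarith
  have q1 : I1 = c * P1 / 2 := by linarith
  have qL : IL = c * PL / 2 := by linarith
  rw [q0, q1, qL] at key
  have key2 : P0 * P1 ≤ PL * ((1 - ρ) * P1 + ρ * P0) := by
    have h2 : 0 < c ^ 2 / 4 := by positivity
    refine le_of_mul_le_mul_left ?_ h2
    nlinarith [key]
  have h3 : (1 - ρ) * P0⁻¹ + ρ * P1⁻¹ = ((1 - ρ) * P1 + ρ * P0) / (P0 * P1) := by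
    field_simp
  rw [h3, inv_eq_one_div, div_le_div_iff₀ hPL (mul_pos hP0 hP1)]
  linarith

theorem fBUS0 : BUS0 := bus0 Pool.Agent.Helper67.PN.gBBL1 Pool.Agent.Helper22.PN.gPFIN
  (Pool.Agent.Helper19.PN.gGI Pool.Agent.Helper22.PN.gPFIN)
  (Pool.Agent.Helper17.PN.gPLX Pool.Agent.Helper22.PN.gPFIN)

theorem fSHADV : SHADV :=
  Pool.Agent.Helper78.PN.gSHADV fBUS0 Pool.Agent.Helper90.PN.gVOLC0

end Pool.Agent.Helper82.PN
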