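import Pool.Agent.Helper47.AQ.Defs

/-!
# The class of bodies of the theorem `NPlusThreeVertices` (MP_6fb600_gt, i = 1)

`IsBody`, `IsCorner`, `IsUncond`, `IsSimplex`, `prodSet`, `joinSet`, `freeSum`, `dpol`, `Phi`, `kap`,
`aC` are in `Pool/Agent/Helper47/AQ/Defs.lean`.
-/

open Set
open Pool.Agent.Helper47.AQ

noncomputable section

namespace Pool.Agent.Helper82.PN.St

/-- The embedding of `ℝ^ι` as the hyperplane of `ℝ^(ι ⊕ Unit)` where the last coordinate is zero. -/
def lift {ι : Type} (x : ι → ℝ) : ι ⊕ Unit → ℝ := Sum.elim x 0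

/-- Fibrewise Minkowski combination in the direction `v`: all points `(1-ρ) x + ρ y` with `x ∈ K₀`,
`y ∈ K₁` on a common line of direction `v`.  (If `K₁` is the mirror image of `K₀` in a hyperplane
orthogonal to `v` and `ρ = 1/2`, it is the Steiner symmetral of `K₀`.) -/
def fibSum {ι : Type} (v : ι → ℝ) (K₀ K₁ : Set (ι → ℝ)) (ρ : ℝ) : Set (ι → ℝ) :=
  {z | ∃ x ∈ K₀, ∃ y ∈ K₁, (∃ a : ℝ, x - y = a • v) ∧ z = (1 - ρ) • x + ρ • y}

/-- The body in `ℝ^(ι ⊕ Unit)` whose section at height `x ∈ [0,1]` is the homothetic copy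
`f x • B` of `B`.  (For a ball `B` a body of revolution.) -/
def homSec {ι : Type} (B : Set (ι → ℝ)) (f : ℝ → ℝ) : Set (ι ⊕ Unit → ℝ) :=
  {z | z (Sum.inr ()) ∈ Icc (0 : ℝ) 1 ∧ ∃ b ∈ B, ∀ i, z (Sum.inl i) = f (z (Sum.inr ())) * b i}

/-- The Hausdorff distance (for the maximum norm) of `K` and `K'` is at most `ε`, for compact sets. -/
def Near {ι : Type} [Fintype ι] (ε : ℝ) (K K' : Set (ι → ℝ)) : Prop :=
  (∀ x ∈ K, ∃ y ∈ K', ‖x - y‖ ≤ ε) ∧ (∀ y ∈ K', ∃ x ∈ K, ‖x - y‖ ≤ ε)

/-- The smallest class of convex bodies (in the spaces `ℝ^ι` of all dimensions) which contains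

* all convex bodies of dimension at most three,
* all convex hulls of `n + 3` (not necessarily different) points of `ℝⁿ` with nonempty interior,
* all convex corners, and all unconditional bodies of dimension at least two,

and which is closed under affine equivalences, Cartesian products (of bodies of positive
dimensions), joins, free sums of bodies containing the origin, and under the following three rules:

* `homSec`: if `B` is in the class and contains the origin, and `f ≥ 0` is a concave continuous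
  function on `[0,1]`, not identically zero, then the body with the parallel sections `f x • B` is
  in the class;
* `fiber`: if `K₀` and `K₁` are in the class and the same lines of direction `v` meet `K₀` and `K₁`,
  then the fibrewise Minkowski combinations of `K₀` and `K₁` in the direction `v` are in the class;
* `twoPoint`: if `C` is a convex body such that the convex hull of `C` and `p` is in the class for all
  points `p` of the space of `C`, then the convex hull of `C × {0}` and of any two points of the space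
  of one dimension more, not both in the hyperplane of `C × {0}`, is in the class. -/
inductive Cls2 : {ι : Type} → [Fintype ι] → Set (ι → ℝ) → Prop
  | small {ι : Type} [Fintype ι] {K : Set (ι → ℝ)} : Fintype.card ι ≤ 3 → IsBody K → Cls2 K
  | few {ι σ : Type} [Fintype ι] [Fintype σ] (x : σ → ι → ℝ) :
      Fintype.card σ = Fintype.card ι + 3 → (interior (convexHull ℝ (range x))).Nonempty →
      Cls2 (convexHull ℝ (range x))
  | corner {ι : Type} [Fintype ι] {K : Set (ι → ℝ)} : IsCorner K → Cls2 K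
  | uncond {ι : Type} [Fintype ι] {K : Set (ι → ℝ)} : 2 ≤ Fintype.card ι → IsUncond K → Cls2 K
  | affine {ι κ : Type} [Fintype ι] [Fintype κ] {K : Set (ι → ℝ)}
      (A : (ι → ℝ) ≃ᵃ[ℝ] (κ → ℝ)) : Cls2 K → Cls2 (A '' K)
  | prod {ι κ : Type} [Fintype ι] [Fintype κ] [Nonempty ι] [Nonempty κ] {K : Set (ι → ℝ)}
      {L : Set (κ → ℝ)} : Cls2 K → Cls2 L → Cls2 (prodSet K L)
  | join {ι κ : Type} [Fintype ι] [Fintype κ] {K : Set (ι → ℝ)}
      {L : Set (κ → ℝ)} : Cls2 K → Cls2 L → Cls2 (joinSet K L)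
  | freeSum {ι κ : Type} [Fintype ι] [Fintype κ] {K : Set (ι → ℝ)}
      {L : Set (κ → ℝ)} : (0 : ι → ℝ) ∈ K → (0 : κ → ℝ) ∈ L → Cls2 K → Cls2 L →
      Cls2 (Pool.Agent.Helper47.AQ.freeSum K L)
  | homSec {ι : Type} [Fintype ι] {B : Set (ι → ℝ)} {f : ℝ → ℝ} : Cls2 B → (0 : ι → ℝ) ∈ B →
      ConcaveOn ℝ (Icc 0 1) f → ContinuousOn f (Icc 0 1) → (∀ x ∈ Icc (0 : ℝ) 1, 0 ≤ f x) →
      (∃ x ∈ Icc (0 : ℝ) 1, 0 < f x) → Cls2 (Pool.Agent.Helper82.PN.St.homSec B f)
  | fiber {ι : Type} [Fintype ι] {K₀ K₁ : Set (ι → ℝ)} {v : ι → ℝ} {ρ : ℝ} : 0 ≤ ρ → ρ ≤ 1 →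
      Cls2 K₀ → Cls2 K₁ → (∀ x ∈ K₀, ∃ y ∈ K₁, ∃ a : ℝ, x - y = a • v) →
      (∀ y ∈ K₁, ∃ x ∈ K₀, ∃ a : ℝ, x - y = a • v) → Cls2 (fibSum v K₀ K₁ ρ)
  | twoPoint {ι : Type} [Fintype ι] {C : Set (ι → ℝ)} (y y' : ι ⊕ Unit → ℝ) : IsBody C →
      (∀ p : ι → ℝ, Cls2 (convexHull ℝ (insert p C))) → y (Sum.inr ()) ≠ 0 →
      Cls2 (convexHull ℝ (insert y (insert y' (lift '' C))))

end Pool.Agent.Helper82.PN.St
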