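import Pool.Agent.Helper82.PN.TN
import Pool.Agent.Helper82.PN.Bus
import Pool.Agent.Helper82.PN.ClsDefs
import Pool.Agent.Helper62.PN.TOPL
import Pool.Agent.Helper98.PN.SWP
import Pool.Agent.Helper64.PN.DIRL
import Pool.Agent.Helper66.PN.GEO
import Pool.Agent.Helper45.PN.NEARI
import Pool.Agent.Helper45.PN.PYRA
import Pool.Agent.Helper67.PN.FNEAR
import Pool.Agent.Helper83.PN.SNEAR
import Pool.Agent.Helper36.PN.CLSD
import Pool.Agent.Helper16.PN.TWOI
import Pool.Agent.Helper82.PN.RevC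
import Pool.Agent.Helper9.PN.FIBB
import Pool.Agent.Helper44.PN.CLSG
import Pool.Agent.Helper44.PN.REVF
import Pool.Agent.Helper78.PN.TCPOL
import Pool.Agent.Helper23.PN.REVB
import Pool.Agent.Helper52.PN.TCEQ
import Pool.Agent.Helper52.PN.TCVOL
import Pool.Agent.Helper25.PN.APX
import Pool.Agent.Helper14.PN.SPLIT

/-!
# The inequality for the class
-/

open MeasureTheory Set
open scoped ENNReal
open Pool.Agent.Helper47.AQ

noncomputable section

namespace Pool.Agent.Helper82.PN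

variable {ι κ σ : Type} [Fintype ι] [Fintype κ] [Fintype σ]

theorem fFNEAR : FNEAR := Pool.Agent.Helper67.PN.gFNEAR Pool.Agent.Helper45.PN.gNEARI

theorem fSNEAR : SNEAR := Pool.Agent.Helper83.PN.gSNEAR Pool.Agent.Helper45.PN.gNEARI

/-- The rule of the homothetic sections. -/
theorem Good.homSec {B : Set (ι → ℝ)} (hB : Good B) (h0 : (0 : ι → ℝ) ∈ B) {f : ℝ → ℝ}
    (h1 : ConcaveOn ℝ (Icc 0 1) f) (h2 : ContinuousOn f (Icc 0 1))
    (h3 : ∀ x ∈ Icc (0 : ℝ) 1, 0 ≤ f x) (h4 : ∃ x ∈ Icc (0 : ℝ) 1, 0 < f x) :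
    Good (St.homSec B f) :=
  Good.rev fSHADV fSNEAR Pool.Agent.Helper9.PN.gFIBB Pool.Agent.Helper44.PN.gCLSG
    Pool.Agent.Helper23.PN.gREVB Pool.Agent.Helper52.PN.gTCEQ Pool.Agent.Helper52.PN.gTCVOL
    Pool.Agent.Helper78.PN.gTCPOL fFNEAR Pool.Agent.Helper25.PN.gAPX Pool.Agent.Helper14.PN.gSPLIT
    Pool.Agent.Helper44.PN.gREVF Pool.Agent.Helper45.PN.gPYRA hB h0 h1 h2 h3 h4

/-- The hull of `n + 3` points. -/
theorem few3 (hII : TWOII) (hIII : TWOIII) (m : ℕ) : TM m :=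
  tn Pool.Agent.Helper45.PN.gPYRA Pool.Agent.Helper66.PN.gHYPC Pool.Agent.Helper66.PN.gHYPX
    Pool.Agent.Helper16.PN.gTWOI hII hIII fSHADV fFNEAR
    (Pool.Agent.Helper83.PN.gSNEAR Pool.Agent.Helper45.PN.gNEARI) Pool.Agent.Helper36.PN.gCLSD
    (Pool.Agent.Helper98.PN.gSWP Pool.Agent.Helper62.PN.gTOPL) Pool.Agent.Helper64.PN.gDIRL
    Pool.Agent.Helper66.PN.gINTL m

/-- The rule of the two points. -/
theorem Good.twoPoint (hII : TWOII) (hIII : TWOIII) {C : Set (ι → ℝ)} (y y' : ι ⊕ Unit → ℝ)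
    (hC : IsBody C) (hp : ∀ p : ι → ℝ, Good (convexHull ℝ (insert p C)))
    (hy : y (Sum.inr ()) ≠ 0) : Good (convexHull ℝ (insert y (insert y' (St.lift '' C)))) := by
  show Good (convexHull ℝ (insert y (insert y' (lift '' C))))
  by_cases h0 : y' (Sum.inr ()) = 0
  · have e1 : y' = lift (fun i => y' (Sum.inl i)) := eq_lift h0
    rw [e1, ← image_insert_eq, ← hull_insert_lift_hull]
    exact (Good.pyr Pool.Agent.Helper45.PN.gPYRA (hp _) hy).1
  · exact two Pool.Agent.Helper45.PN.gPYRA Pool.Agent.Helper16.PN.gTWOI hII hIII fSHADV fFNEAR hC hp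
      hy h0

/-- **The inequality for the class.** -/
theorem cls2_good (hII : TWOII) (hIII : TWOIII) {ι : Type} [Fintype ι] {K : Set (ι → ℝ)}
    (h : St.Cls2 K) : Good K := by
  induction h with
  | small hn hK => exact good_small hn hK
  | few x hcard hint => exact few3 hII hIII _ _ _ rfl hcard x hint
  | corner hK => exact Good.of_cls (Cls.corner hK)
  | uncond h2 hK => exact Good.of_cls (Cls.uncond h2 hK)
  | affine A _ ih => exact ih.affine A
  | prod _ _ ihK ihL => exact ihK.prod ihL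
  | join _ _ ihK ihL => exact ihK.join ihL
  | freeSum hK0 hL0 _ _ ihK ihL => exact Good.freeSum hK0 hL0 ihK ihL
  | homSec _ h0 h1 h2 h3 h4 ih => exact ih.homSec h0 h1 h2 h3 h4
  | fiber hρ0 hρ1 _ _ h01 h10 ih0 ih1 =>
    exact Good.fiber fSHADV fSNEAR Pool.Agent.Helper9.PN.gFIBB Pool.Agent.Helper44.PN.gCLSG hρ0 hρ1
      ih0 ih1 h01 h10
  | twoPoint y y' hC _ hy ih => exact Good.twoPoint hII hIII y y' hC ih hy

end Pool.Agent.Helper82.PN
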