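import Pool.Agent.Helper47.AQ.Phi

/-!
# Polytopes with n + 3 vertices (MP_6fb600_gt, i = 1): definitions

`IsBody`, `IsSimplex`, `dpol K = (K - K)°`, `F K = V(K) V((K-K)°)`, `hs`, `wd` come from
`Pool/Agent/Helper47/AQ` (all in the sup norm space `ι → ℝ`).
-/

open MeasureTheory Set
open scoped ENNReal
open Pool.Agent.Helper47.AQ

noncomputable section

namespace Pool.Agent.Helper82.PN

/-- The constant `(n+1)/n!`. -/
def cn (n : ℕ) : ℝ := ((n : ℝ) + 1) / (n.factorial : ℝ)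

/-- A body for which the inequality and its equality case hold. -/
structure Good {ι : Type} [Fintype ι] (K : Set (ι → ℝ)) : Prop where
  body : IsBody K
  le : cn (Fintype.card ι) ≤ F K
  eq : F K = cn (Fintype.card ι) → IsSimplex K

/-- Every point of `L` is a combination, along a line of direction `v`, of points of `K₀`, `K₁`. -/
def FibV {ι : Type} (v : ι → ℝ) (K₀ K₁ L : Set (ι → ℝ)) (ρ : ℝ) : Prop :=
  ∀ z ∈ L, ∃ x ∈ K₀, ∃ y ∈ K₁, (∃ a : ℝ, x - y = a • v) ∧ z = (1 - ρ) • x + ρ • y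

/-- The combinations, along the lines of direction `v`, of points of `K₀`, `K₁` lie in `M`; and the
same lines of direction `v` meet `K₀` and `K₁`. -/
def CoFib {ι : Type} (v : ι → ℝ) (K₀ K₁ M : Set (ι → ℝ)) (ρ : ℝ) : Prop :=
  (∀ x ∈ K₀, ∀ y ∈ K₁, (∃ a : ℝ, x - y = a • v) → (1 - ρ) • x + ρ • y ∈ M) ∧
  (∀ x ∈ K₀, ∃ y ∈ K₁, ∃ a : ℝ, x - y = a • v) ∧
  (∀ y ∈ K₁, ∃ x ∈ K₀, ∃ a : ℝ, x - y = a • v)

/-- The convex hull of a family of points. -/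
def KH {ι σ : Type} (x : σ → ι → ℝ) : Set (ι → ℝ) := convexHull ℝ (range x)

open Classical in
/-- Move the point `x j` to `x j + t v`. -/
def mv {ι σ : Type} (x : σ → ι → ℝ) (j : σ) (v : ι → ℝ) (t : ℝ) : σ → ι → ℝ :=
  Function.update x j (x j + t • v)

/-- General position: all subfamilies of at most `n + 1` points are affinely independent. -/
def GenPos {ι σ : Type} [Fintype ι] (x : σ → ι → ℝ) : Prop :=
  ∀ s : Finset σ, s.card ≤ Fintype.card ι + 1 → AffineIndependent ℝ (fun i : s => x i)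

/-- The embedding of `ℝ^ι` as a hyperplane of `ℝ^(ι ⊕ Unit)`. -/
def lift {ι : Type} (x : ι → ℝ) : ι ⊕ Unit → ℝ := Sum.elim x 0

/-- Hausdorff closeness. -/
def Near {ι : Type} [Fintype ι] (ε : ℝ) (K K' : Set (ι → ℝ)) : Prop :=
  (∀ x ∈ K, ∃ y ∈ K', ‖x - y‖ ≤ ε) ∧ (∀ y ∈ K', ∃ x ∈ K, ‖x - y‖ ≤ ε)

/-- `Fi K s = ∫ exp (- wd K (1/s, ξ)) dξ`. -/
def Fi {m : ℕ} (K : Set (Fin (m + 1) → ℝ)) (s : ℝ) : ℝ≥0∞ :=
  ∫⁻ ξ : Fin m → ℝ, ENNReal.ofReal (Real.exp (-(wd K (Fin.cons (1 / s) ξ : Fin (m + 1) → ℝ))))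

/-- `aK K s = √(Fi K s) / s`. -/
def aK {m : ℕ} (K : Set (Fin (m + 1) → ℝ)) (s : ℝ) : ℝ := √((Fi K s).toReal) / s

end Pool.Agent.Helper82.PN
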