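import Pool.Agent.Helper82.PN.Defs

/-!
# Fibrewise combinations: goals
-/

open MeasureTheory Set
open scoped ENNReal
open Pool.Agent.Helper47.AQ

noncomputable section

namespace Pool.Agent.Helper82.PN

/-- The combination of `K₀` and `K₁` along the lines of direction `v`. -/
def fibSum {ι : Type} (v : ι → ℝ) (K₀ K₁ : Set (ι → ℝ)) (ρ : ℝ) : Set (ι → ℝ) :=
  {z | ∃ x ∈ K₀, ∃ y ∈ K₁, (∃ a : ℝ, x - y = a • v) ∧ z = (1 - ρ) • x + ρ • y}

/-- **FIBB.**
Proof.  Convex: direct.  Compact: the image under a continuous map of the compact set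
`{(x,y) ∈ K₀ × K₁ | x - y ∈ ℝ v}` (`ℝ ∙ v` is closed: `Submodule.closed_of_finiteDimensional`).
Interior: choose `p ∈ interior K₀`, `q₀ ∈ interior K₁`, and `p₁ ∈ K₀` with `p₁ - q₀ ∥ v`.  For small
`δ > 0` `x' = p + δ (p - p₁) ∈ K₀`; choose `y' ∈ K₁` with `x' - y' ∥ v`.  Then
`p = (x' + δ p₁)/(1+δ)`, and `q = (y' + δ q₀)/(1+δ) ∈ interior K₁`
(`Convex.combo_interior_self_mem_interior`-like), `p - q ∥ v`.  For `u` small `p + u ∈ K₀`,
`q + u ∈ K₁`, so `(1-ρ) p + ρ q + u` is in the set. -/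
def FIBB : Prop := ∀ (ι : Type) [Fintype ι] (v : ι → ℝ) (K₀ K₁ : Set (ι → ℝ)) (ρ : ℝ),
  0 ≤ ρ → ρ ≤ 1 → IsBody K₀ → IsBody K₁ → (∀ x ∈ K₀, ∃ y ∈ K₁, ∃ a : ℝ, x - y = a • v) →
  (∀ y ∈ K₁, ∃ x ∈ K₀, ∃ a : ℝ, x - y = a • v) → IsBody (fibSum v K₀ K₁ ρ)

/-- **CLSG** (a limit of simplices which is a body is a simplex).  `n = card ι`.
Proof.  By contradiction or sequences: for every `k` a simplex `S_k` with `Near (1/(k+1)) K S_k`;
`S_k = convexHull (range w_k)`, `w_k : Fin (n+1) → _` (affinely independent and spanning: `n+1`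
points, see `Pool.Agent.Helper82.PN.simplex_card` in `Pool/Agent/Helper82/PN/Hull.lean`; reindex to
`Fin (n+1)`).  All `w_k` lie in the compact set of the tuples with norms at most `R + 1`.  Take a
subsequence with `w_k → w`.  `K ⊆ convexHull (range w)`: for `z ∈ K` there are `z_k ∈ S_k`,
`‖z - z_k‖ ≤ 1/(k+1)`, `z_k = ∑ μ^k_i w^k_i`, and a further subsequence `μ^k → μ ∈ stdSimplex`, so
`z = ∑ μ_i w_i`.  `⊇`: `w_i = lim w^k_i`, `w^k_i` is within `1/(k+1)` of `K`, `K` is closed and convex.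
The `n+1` points `w` have a hull with nonempty interior, so they are affinely independent
(`interior_convexHull_nonempty_iff_affineSpan_eq_top`,
`affineIndependent_iff_finrank_vectorSpan_eq`): `K` is a simplex. -/
def CLSG : Prop := ∀ (ι : Type) [Fintype ι] (K : Set (ι → ℝ)), IsBody K →
  (∀ ε : ℝ, 0 < ε → ∃ S : Set (ι → ℝ), IsSimplex S ∧ Near ε K S) → IsSimplex K

end Pool.Agent.Helper82.PN
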