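import Pool.Agent.Helper82.PN.Small
import Pool.Agent.Helper82.PN.GoalsF
import Pool.Agent.Helper82.PN.Bus

/-!
# The fibre rule for good bodies
-/

open MeasureTheory Set
open scoped ENNReal
open Pool.Agent.Helper47.AQ

noncomputable section

namespace Pool.Agent.Helper82.PN

variable {ι : Type} [Fintype ι]

theorem fibV_fibSum (v : ι → ℝ) (K₀ K₁ : Set (ι → ℝ)) (ρ : ℝ) :
    FibV v K₀ K₁ (fibSum v K₀ K₁ ρ) ρ := fun _ hz => hz

theorem coFib_fibSum {v : ι → ℝ} {K₀ K₁ : Set (ι → ℝ)} (ρ : ℝ)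
    (h01 : ∀ x ∈ K₀, ∃ y ∈ K₁, ∃ a : ℝ, x - y = a • v)
    (h10 : ∀ y ∈ K₁, ∃ x ∈ K₀, ∃ a : ℝ, x - y = a • v) :
    CoFib v K₀ K₁ (fibSum v K₀ K₁ ρ) ρ :=
  ⟨fun x hx y hy h => ⟨x, hx, y, hy, h, rfl⟩, h01, h10⟩

theorem fibSum_zero {v : ι → ℝ} {K₀ K₁ : Set (ι → ℝ)}
    (h01 : ∀ x ∈ K₀, ∃ y ∈ K₁, ∃ a : ℝ, x - y = a • v) : fibSum v K₀ K₁ 0 = K₀ := by
  ext z
  constructor
  · rintro ⟨x, hx, y, -, -, rfl⟩
    simpa using hx
  · intro hz
    obtain ⟨y, hy, h⟩ := h01 z hz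
    exact ⟨z, hz, y, hy, h, by simp⟩

theorem fibSum_one {v : ι → ℝ} {K₀ K₁ : Set (ι → ℝ)}
    (h10 : ∀ y ∈ K₁, ∃ x ∈ K₀, ∃ a : ℝ, x - y = a • v) : fibSum v K₀ K₁ 1 = K₁ := by
  ext z
  constructor
  · rintro ⟨x, -, y, hy, -, rfl⟩
    simpa using hy
  · intro hz
    obtain ⟨x, hx, h⟩ := h10 z hz
    exact ⟨x, hx, z, hz, h, by simp⟩

theorem fibSum_dir_zero {K₀ K₁ : Set (ι → ℝ)} (ρ : ℝ)
    (h01 : ∀ x ∈ K₀, ∃ y ∈ K₁, ∃ a : ℝ, x - y = a • (0 : ι → ℝ)) :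
    fibSum 0 K₀ K₁ ρ = K₀ := by
  ext z
  constructor
  · rintro ⟨x, hx, y, -, ⟨a, ha⟩, rfl⟩
    rw [smul_zero, sub_eq_zero] at ha
    subst ha
    rw [← add_smul, sub_add_cancel, one_smul]
    exact hx
  · intro hz
    obtain ⟨y, hy, h⟩ := h01 z hz
    refine ⟨z, hz, y, hy, h, ?_⟩
    obtain ⟨a, ha⟩ := h
    rw [smul_zero, sub_eq_zero] at ha
    subst ha
    rw [← add_smul, sub_add_cancel, one_smul]

/-- `L_ρ` is the combination of `L_t` and `K₁` with the parameter `(ρ-t)/(1-t)`. -/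
theorem fibV_step {v : ι → ℝ} {K₀ K₁ : Set (ι → ℝ)} {t ρ : ℝ} (ht : t < 1) :
    FibV v (fibSum v K₀ K₁ t) K₁ (fibSum v K₀ K₁ ρ) ((ρ - t) / (1 - t)) := by
  have h1 : 0 < 1 - t := by linarith
  rintro z ⟨x, hx, y, hy, ⟨a, ha⟩, rfl⟩
  refine ⟨(1 - t) • x + t • y, ⟨x, hx, y, hy, ⟨a, ha⟩, rfl⟩, y, hy, ⟨(1 - t) * a, ?_⟩, ?_⟩
  · rw [mul_smul, ← ha]
    module
  · rw [smul_add, smul_smul, smul_smul]
    have e1 : (1 - (ρ - t) / (1 - t)) * (1 - t) = 1 - ρ := by field_simp; ring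
    have e2 : (1 - (ρ - t) / (1 - t)) * t + (ρ - t) / (1 - t) = ρ := by field_simp; ring
    rw [e1, add_assoc, ← add_smul, e2]

theorem coFib_step {v : ι → ℝ} {K₀ K₁ : Set (ι → ℝ)} {t ρ : ℝ} (hK₁ : Convex ℝ K₁) (ht0 : 0 ≤ t)
    (htρ : t < ρ) (hρ1 : ρ < 1)
    (h01 : ∀ x ∈ K₀, ∃ y ∈ K₁, ∃ a : ℝ, x - y = a • v)
    (h10 : ∀ y ∈ K₁, ∃ x ∈ K₀, ∃ a : ℝ, x - y = a • v) :
    CoFib v (fibSum v K₀ K₁ t) K₁ (fibSum v K₀ K₁ ρ) ((ρ - t) / (1 - t)) := by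
  have h1 : 0 < 1 - t := by linarith
  have hρ0 : 0 < ρ := by linarith
  set s := (ρ - t) / (1 - t) with hs
  have hs0 : 0 < s := by rw [hs]; apply div_pos <;> linarith
  have hs1 : s ≤ 1 := by rw [hs, div_le_one h1]; linarith
  have e1 : (1 - s) * (1 - t) = 1 - ρ := by rw [hs]; field_simp; ring
  have e2 : (1 - s) * t + s = ρ := by rw [hs]; field_simp; ring
  refine ⟨?_, ?_, ?_⟩
  · rintro w ⟨x, hx, y, hy, ⟨a, ha⟩, rfl⟩ y' hy' ⟨b, hb⟩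
    -- y'' = ((1-s) t y + s y')/ρ
    refine ⟨x, hx, ((1 - s) * t / ρ) • y + (s / ρ) • y', ?_, ?_, ?_⟩
    · refine hK₁ hy hy' ?_ ?_ ?_
      · have : 0 ≤ 1 - s := by linarith
        positivity
      · positivity
      · rw [← add_div, e2]; exact div_self hρ0.ne'
    · refine ⟨a + (s / ρ) * (b - (1 - t) * a), ?_⟩
      have e3 : y' = (1 - t) • x + t • y - b • v := by rw [← hb]; abel
      have e4 : x = y + a • v := by rw [← ha]; abel
      have e5 : (1 - s) * t / ρ + s / ρ = 1 := by rw [← add_div, e2]; exact div_self hρ0.ne'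
      have e6 : (1 - s) * t / ρ = 1 - s / ρ := by linarith
      rw [e3, e6, e4]
      module
    · rw [smul_add, smul_smul, smul_smul, smul_add, smul_smul, smul_smul, e1, add_assoc,
        mul_div_cancel₀ _ hρ0.ne', mul_div_cancel₀ _ hρ0.ne']
  · rintro w ⟨x, hx, y, hy, ⟨a, ha⟩, rfl⟩
    refine ⟨y, hy, (1 - t) * a, ?_⟩
    rw [mul_smul, ← ha]
    module
  · intro y hy
    obtain ⟨x, hx, a, ha⟩ := h10 y hy
    refine ⟨(1 - t) • x + t • y, ⟨x, hx, y, hy, ⟨a, ha⟩, rfl⟩, (1 - t) * a, ?_⟩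
    rw [mul_smul, ← ha]
    module

theorem near_fibSum {v : ι → ℝ} {K₀ K₁ : Set (ι → ℝ)} {D ε : ℝ}
    (hD : ∀ x ∈ K₀, ∀ y ∈ K₁, ‖x - y‖ ≤ D) {t s : ℝ} (hts : |s - t| * D ≤ ε) :
    Near ε (fibSum v K₀ K₁ t) (fibSum v K₀ K₁ s) := by
  constructor
  · rintro z ⟨x, hx, y, hy, h, rfl⟩
    refine ⟨(1 - s) • x + s • y, ⟨x, hx, y, hy, h, rfl⟩, ?_⟩
    have e : (1 - t) • x + t • y - ((1 - s) • x + s • y) = (s - t) • (x - y) := by module
    rw [e, norm_smul, Real.norm_eq_abs]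
    exact (mul_le_mul_of_nonneg_left (hD x hx y hy) (abs_nonneg _)).trans hts
  · rintro z ⟨x, hx, y, hy, h, rfl⟩
    refine ⟨(1 - t) • x + t • y, ⟨x, hx, y, hy, h, rfl⟩, ?_⟩
    have e : (1 - t) • x + t • y - ((1 - s) • x + s • y) = (s - t) • (x - y) := by module
    rw [e, norm_smul, Real.norm_eq_abs]
    exact (mul_le_mul_of_nonneg_left (hD x hx y hy) (abs_nonneg _)).trans hts

/-- A weighted mean of two numbers `≤ c` that is `≥ c`. -/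
theorem mean_eq {a b c w : ℝ} (hw0 : 0 < w) (hw1 : w < 1) (ha : a ≤ c) (hb : b ≤ c)
    (h : c ≤ (1 - w) * a + w * b) : a = c ∧ b = c := by
  have h1 : 0 < 1 - w := by linarith
  constructor
  · by_contra hne
    have h2 : a < c := lt_of_le_of_ne ha hne
    have := mul_lt_mul_of_pos_left h2 h1
    have := mul_le_mul_of_nonneg_left hb hw0.le
    nlinarith
  · by_contra hne
    have h2 : b < c := lt_of_le_of_ne hb hne
    have := mul_lt_mul_of_pos_left h2 hw0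
    have := mul_le_mul_of_nonneg_left ha h1.le
    nlinarith

/-- One use of the shadow inequality. -/
theorem shadow_le (hS : SHADV) {v : ι → ℝ} {K₀ K₁ L : Set (ι → ℝ)} {ρ : ℝ} (hv : v ≠ 0)
    (hρ0 : 0 < ρ) (hρ1 : ρ < 1) (b0 : IsBody K₀) (b1 : IsBody K₁) (bL : IsBody L)
    (l0 : cn (Fintype.card ι) ≤ F K₀) (l1 : cn (Fintype.card ι) ≤ F K₁)
    (hf : FibV v K₀ K₁ L ρ) (hc : CoFib v K₀ K₁ L ρ) :
    cn (Fintype.card ι) ≤ F L ∧ (F L = cn (Fintype.card ι) →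
      F K₀ = cn (Fintype.card ι) ∧ F K₁ = cn (Fintype.card ι)) := by
  obtain ⟨w, hw0, hw1, hw⟩ := hS ι v K₀ K₁ L ρ hv hρ0 hρ1 b0 b1 bL hf hc
  have hcn := cn_pos (Fintype.card ι)
  have hFL : 0 < F L := mul_pos bL.vol_pos bL.dpol_pos
  have i0 : (F K₀)⁻¹ ≤ (cn (Fintype.card ι))⁻¹ := inv_anti₀ hcn l0
  have i1 : (F K₁)⁻¹ ≤ (cn (Fintype.card ι))⁻¹ := inv_anti₀ hcn l1
  constructor
  · have h1 : (F L)⁻¹ ≤ (cn (Fintype.card ι))⁻¹ := by
      have := mul_le_mul_of_nonneg_left i0 (by linarith : 0 ≤ 1 - w)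
      have := mul_le_mul_of_nonneg_left i1 hw0.le
      linarith
    exact (inv_le_inv₀ hFL hcn).1 h1
  · intro h
    rw [h] at hw
    obtain ⟨e0, e1⟩ := mean_eq hw0 hw1 i0 i1 hw
    exact ⟨inv_injective e0, inv_injective e1⟩

/-- **The fibre rule.** -/
theorem Good.fiber (hS : SHADV) (hN : SNEAR) (hB : FIBB) (hCl : CLSG) {v : ι → ℝ}
    {K₀ K₁ : Set (ι → ℝ)} {ρ : ℝ} (hρ0 : 0 ≤ ρ) (hρ1 : ρ ≤ 1) (g0 : Good K₀) (g1 : Good K₁)
    (h01 : ∀ x ∈ K₀, ∃ y ∈ K₁, ∃ a : ℝ, x - y = a • v)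
    (h10 : ∀ y ∈ K₁, ∃ x ∈ K₀, ∃ a : ℝ, x - y = a • v) : Good (fibSum v K₀ K₁ ρ) := by
  rcases eq_or_ne v 0 with rfl | hv
  · rw [fibSum_dir_zero ρ h01]; exact g0
  rcases hρ0.eq_or_lt with rfl | hρ0'
  · rw [fibSum_zero h01]; exact g0
  rcases hρ1.eq_or_lt with rfl | hρ1'
  · rw [fibSum_one h10]; exact g1
  have body : ∀ t : ℝ, 0 ≤ t → t ≤ 1 → IsBody (fibSum v K₀ K₁ t) := fun t ht0 ht1 =>
    hB ι v K₀ K₁ t ht0 ht1 g0.body g1.body h01 h10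
  have low : ∀ t : ℝ, 0 < t → t < 1 → cn (Fintype.card ι) ≤ F (fibSum v K₀ K₁ t) ∧
      (F (fibSum v K₀ K₁ t) = cn (Fintype.card ι) →
      F K₀ = cn (Fintype.card ι) ∧ F K₁ = cn (Fintype.card ι)) := fun t ht0 ht1 =>
    shadow_le hS hv ht0 ht1 g0.body g1.body (body t ht0.le ht1.le) g0.le g1.le
      (fibV_fibSum v K₀ K₁ t) (coFib_fibSum t h01 h10)
  refine ⟨body ρ hρ0 hρ1, (low ρ hρ0' hρ1').1, fun heq => ?_⟩
  obtain ⟨f0, f1⟩ := (low ρ hρ0' hρ1').2 heq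
  haveI : Nonempty ι := by
    by_contra hcon
    rw [not_nonempty_iff] at hcon
    exact hv (Subsingleton.elim _ _)
  -- all the intermediate bodies are minimal
  have mid : ∀ t : ℝ, 0 < t → t ≤ ρ → F (fibSum v K₀ K₁ t) = cn (Fintype.card ι) := by
    intro t ht0 htρ
    rcases htρ.eq_or_lt with rfl | hlt
    · exact heq
    · have ht1 : t < 1 := by linarith
      have h1 : 0 < 1 - t := by linarith
      exact ((shadow_le hS hv (div_pos (by linarith) h1) ((div_lt_one h1).2 (by linarith))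
        (body t ht0.le ht1.le) g1.body (body ρ hρ0 hρ1) (low t ht0 ht1).1 g1.le
        (fibV_step ht1) (coFib_step g1.body.conv ht0.le hlt hρ1' h01 h10)).2 heq).1
  -- a bound for the differences
  obtain ⟨D, hD0, hD⟩ : ∃ D : ℝ, 0 < D ∧ ∀ x ∈ K₀, ∀ y ∈ K₁, ‖x - y‖ ≤ D := by
    obtain ⟨R0, hR0⟩ := g0.body.comp.isBounded.exists_norm_le
    obtain ⟨R1, hR1⟩ := g1.body.comp.isBounded.exists_norm_le
    refine ⟨|R0| + |R1| + 1, by positivity, fun x hx y hy => ?_⟩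
    have := norm_sub_le x y
    have := hR0 x hx
    have := hR1 y hy
    have := le_abs_self R0
    have := le_abs_self R1
    linarith
  set S : Set ℝ := {t | IsSimplex (fibSum v K₀ K₁ t)} with hSdef
  have hS0 : (0 : ℝ) ∈ S := by
    show IsSimplex (fibSum v K₀ K₁ 0)
    rw [fibSum_zero h01]
    exact g0.eq f0
  have hclosed : IsClosed (S ∩ Icc 0 ρ) := by
    refine isClosed_of_closure_subset fun t ht => ?_
    have htI : t ∈ Icc 0 ρ := by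
      have := closure_mono (inter_subset_right : S ∩ Icc 0 ρ ⊆ Icc 0 ρ) ht
      rwa [isClosed_Icc.closure_eq] at this
    refine ⟨?_, htI⟩
    refine hCl ι _ (body t htI.1 (htI.2.trans hρ1)) fun ε hε => ?_
    obtain ⟨s, hs, hst⟩ := Metric.mem_closure_iff.1 ht (ε / D) (by positivity)
    refine ⟨_, hs.1, near_fibSum hD ?_⟩
    rw [Real.dist_eq, abs_sub_comm] at hst
    rw [← le_div_iff₀ hD0]
    exact hst.le
  have hgt : ∀ x ∈ S ∩ Ico 0 ρ, ∀ y ∈ Ioi x, (S ∩ Ioc x y).Nonempty := by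
    rintro t ⟨htS, ht0, htρ⟩ y hy
    obtain ⟨ε, hε, hN'⟩ := hN ι _ htS
    have hy' : t < y := hy
    set s := min (min ρ y) (t + ε / D) with hs
    have hpos : 0 < ε / D := by positivity
    have hts : t < s := by
      rw [hs]
      exact lt_min (lt_min htρ hy') (by linarith)
    have hsρ : s ≤ ρ := (min_le_left _ _).trans (min_le_left _ _)
    have hsy : s ≤ y := (min_le_left _ _).trans (min_le_right _ _)
    have hse : s ≤ t + ε / D := min_le_right _ _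
    refine ⟨s, ?_, hts, hsy⟩
    refine hN' _ (body s (by linarith) (by linarith)) (near_fibSum hD ?_)
      (mid s (by linarith) hsρ)
    rw [← le_div_iff₀ hD0, abs_of_pos (by linarith)]
    linarith
  exact hclosed.Icc_subset_of_forall_exists_gt hS0 hgt ⟨hρ0, le_refl ρ⟩

end Pool.Agent.Helper82.PN
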