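import Pool.Agent.Helper82.PN.Goals

/-!
# Rules for good bodies: affine maps, products, joins, free sums, generators
-/

open MeasureTheory Set
open scoped ENNReal
open Pool.Agent.Helper47.AQ

noncomputable section

namespace Pool.Agent.Helper82.PN

variable {ι κ σ : Type} [Fintype ι] [Fintype κ] [Fintype σ]

theorem cn_pos (n : ℕ) : 0 < cn n := by
  unfold cn
  have : (0 : ℝ) < (n.factorial : ℝ) := by exact_mod_cast n.factorial_pos
  positivity

theorem Good.of_cls {K : Set (ι → ℝ)} (h : Cls K) : Good K :=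
  ⟨h.main.1, h.main.2.1, h.main.2.2⟩

theorem Good.simplex {K : Set (ι → ℝ)} (h : IsSimplex K) : Good K := Good.of_cls h.cls

theorem Good.F_pos {K : Set (ι → ℝ)} (h : Good K) : 0 < F K :=
  mul_pos h.body.vol_pos h.body.dpol_pos

theorem F_simplex {K : Set (ι → ℝ)} (h : IsSimplex K) : F K = cn (Fintype.card ι) := h.F_eq

theorem Good.eq_iff {K : Set (ι → ℝ)} (h : Good K) :
    F K = cn (Fintype.card ι) ↔ IsSimplex K := ⟨h.eq, F_simplex⟩

theorem card_eq_of_affine (A : (ι → ℝ) ≃ᵃ[ℝ] (κ → ℝ)) : Fintype.card ι = Fintype.card κ := by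
  have := A.linear.finrank_eq
  simpa using this

theorem Good.affine {K : Set (ι → ℝ)} (h : Good K) (A : (ι → ℝ) ≃ᵃ[ℝ] (κ → ℝ)) :
    Good (A '' K) := by
  refine ⟨h.body.affine A, ?_, ?_⟩
  · rw [F_affine, ← card_eq_of_affine A]; exact h.le
  · rw [F_affine, ← card_eq_of_affine A]; exact fun h4 => (h.eq h4).affine A

theorem Good.of_affine {K : Set (ι → ℝ)} (A : (ι → ℝ) ≃ᵃ[ℝ] (κ → ℝ)) (h : Good (A '' K)) :
    Good K := by
  have h1 := h.affine A.symm
  rwa [image_image, show (fun x => A.symm (A x)) = id from by ext x; simp, image_id] at h1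

theorem IsSimplex.of_affine {K : Set (ι → ℝ)} (A : (ι → ℝ) ≃ᵃ[ℝ] (κ → ℝ))
    (h : IsSimplex (A '' K)) : IsSimplex K := by
  have h1 := h.affine A.symm
  rwa [image_image, show (fun x => A.symm (A x)) = id from by ext x; simp, image_id] at h1

theorem Good.join {K : Set (ι → ℝ)} {L : Set (κ → ℝ)} (hK : Good K) (hL : Good L) :
    Good (joinSet K L) := by
  obtain ⟨h1, h2, h2'⟩ := hK
  obtain ⟨h3, h4, h4'⟩ := hL
  have key : cn (Fintype.card ((ι ⊕ κ) ⊕ Unit)) ≤ F (joinSet K L) ∧
      (F (joinSet K L) = cn (Fintype.card ((ι ⊕ κ) ⊕ Unit)) → IsSimplex (joinSet K L)) := by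
    unfold cn at *
    have hF := F_join h1 h3
    have hcard : Fintype.card ((ι ⊕ κ) ⊕ Unit) = Fintype.card ι + Fintype.card κ + 1 := by simp
    rw [hcard]
    set m := Fintype.card ι with hm
    set k := Fintype.card κ with hk
    have hmf : (0 : ℝ) < (m.factorial : ℝ) := by exact_mod_cast m.factorial_pos
    have hkf : (0 : ℝ) < (k.factorial : ℝ) := by exact_mod_cast k.factorial_pos
    have hmkf : (0 : ℝ) < ((m + k + 1).factorial : ℝ) := by
      exact_mod_cast (m + k + 1).factorial_pos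
    have hFK : 0 < F K := mul_pos h1.vol_pos h1.dpol_pos
    have hFL : 0 < F L := mul_pos h3.vol_pos h3.dpol_pos
    set a := ((m : ℝ) + 1) / (m.factorial : ℝ) with ha
    set b := ((k : ℝ) + 1) / (k.factorial : ℝ) with hb
    have ha0 : 0 < a := by positivity
    have hb0 : 0 < b := by positivity
    set c := ((m.factorial : ℝ) * k.factorial / (m + k + 1).factorial) *
      (1 / ((m : ℝ) + 1) + 1 / ((k : ℝ) + 1)) with hc
    have hc0 : 0 < c := by positivity
    have h5 : (((m + k + 1 : ℕ) : ℝ) + 1) / ((m + k + 1).factorial : ℝ) = c * (a * b) := by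
      rw [hc, ha, hb]
      push_cast
      field_simp
      ring
    rw [h5, hF]
    constructor
    · exact mul_le_mul_of_nonneg_left (mul_le_mul h2 h4 hb0.le hFK.le) hc0.le
    · intro h6
      have h7 : F K * F L = a * b := mul_left_cancel₀ hc0.ne' h6
      have h8 : F K = a := by
        by_contra hne
        have h9 : a < F K := lt_of_le_of_ne h2 (Ne.symm hne)
        have : a * b < F K * F L := by nlinarith
        linarith
      have h9 : F L = b := by
        rw [h8] at h7
        exact mul_left_cancel₀ ha0.ne' h7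
      exact (h2' h8).join (h4' h9)
  exact ⟨h1.join h3, key.1, key.2⟩

theorem Good.prod [Nonempty ι] [Nonempty κ] {K : Set (ι → ℝ)} {L : Set (κ → ℝ)} (hK : Good K)
    (hL : Good L) : Good (prodSet K L) := by
  obtain ⟨h1, h2, -⟩ := hK
  obtain ⟨h3, h4, -⟩ := hL
  have h7 : cn (Fintype.card (ι ⊕ κ)) < F (prodSet K L) := by
    unfold cn at *
    have hF := F_prod h1 h3
    rw [Fintype.card_sum]
    set m := Fintype.card ι with hm
    set k := Fintype.card κ with hk
    have hm0 : 0 < m := Fintype.card_pos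
    have hk0 : 0 < k := Fintype.card_pos
    have hmf : (0 : ℝ) < (m.factorial : ℝ) := by exact_mod_cast m.factorial_pos
    have hkf : (0 : ℝ) < (k.factorial : ℝ) := by exact_mod_cast k.factorial_pos
    have hmkf : (0 : ℝ) < ((m + k).factorial : ℝ) := by exact_mod_cast (m + k).factorial_pos
    rw [div_le_iff₀ hmf] at h2
    rw [div_le_iff₀ hkf] at h4
    have h5 : ((m : ℝ) + 1) * (k + 1) ≤ (m.factorial * F K) * (k.factorial * F L) := by
      refine mul_le_mul ?_ ?_ (by positivity) ?_
      · linarith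
      · linarith
      · have : (0 : ℝ) ≤ (m : ℝ) + 1 := by positivity
        linarith
    have hm1 : (1 : ℝ) ≤ m := by exact_mod_cast hm0
    have hk1 : (1 : ℝ) ≤ k := by exact_mod_cast hk0
    have h6 : (((m + k : ℕ) : ℝ) + 1) < (m + k).factorial * F (prodSet K L) := by
      rw [hF]
      push_cast
      nlinarith
    rw [div_lt_iff₀ hmkf]
    linarith
  exact ⟨h1.prod h3, h7.le, fun h8 => absurd h8 h7.ne'⟩

theorem Good.freeSum {K : Set (ι → ℝ)} {L : Set (κ → ℝ)} (hK0 : (0 : ι → ℝ) ∈ K)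
    (hL0 : (0 : κ → ℝ) ∈ L) (hK : Good K) (hL : Good L) :
    Good (Pool.Agent.Helper47.AQ.freeSum K L) := by
  obtain ⟨h1, h2, h2'⟩ := hK
  obtain ⟨h3, h4, h4'⟩ := hL
  have key : cn (Fintype.card (ι ⊕ κ)) ≤ F (Pool.Agent.Helper47.AQ.freeSum K L) ∧
      (F (Pool.Agent.Helper47.AQ.freeSum K L) = cn (Fintype.card (ι ⊕ κ)) →
        IsSimplex (Pool.Agent.Helper47.AQ.freeSum K L)) := by
    unfold cn at *
    obtain ⟨hF, hFe⟩ := F_freeSum h1 h3 hK0 hL0
    rw [Fintype.card_sum]
    set m := Fintype.card ι with hm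
    set k := Fintype.card κ with hk
    have hmf : (0 : ℝ) < (m.factorial : ℝ) := by exact_mod_cast m.factorial_pos
    have hkf : (0 : ℝ) < (k.factorial : ℝ) := by exact_mod_cast k.factorial_pos
    have hmkf : (0 : ℝ) < ((m + k).factorial : ℝ) := by exact_mod_cast (m + k).factorial_pos
    have hFK : 0 < F K := mul_pos h1.vol_pos h1.dpol_pos
    have hFL : 0 < F L := mul_pos h3.vol_pos h3.dpol_pos
    set a := ((m : ℝ) + 1) / (m.factorial : ℝ) with ha
    set b := ((k : ℝ) + 1) / (k.factorial : ℝ) with hb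
    have ha0 : 0 < a := by positivity
    have hb0 : 0 < b := by positivity
    set c := ((m.factorial : ℝ) * k.factorial / (m + k).factorial) *
      (((m : ℝ) + k + 1) / (((m : ℝ) + 1) * ((k : ℝ) + 1))) with hc
    have hc0 : 0 < c := by positivity
    have h5 : (((m + k : ℕ) : ℝ) + 1) / ((m + k).factorial : ℝ) = c * (a * b) := by
      rw [hc, ha, hb]
      push_cast
      field_simp
    rw [h5]
    have h10 : c * (a * b) ≤ c * (F K * F L) :=
      mul_le_mul_of_nonneg_left (mul_le_mul h2 h4 hb0.le hFK.le) hc0.le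
    refine ⟨h10.trans hF, fun h6 => ?_⟩
    have h11 : c * (F K * F L) = c * (a * b) := le_antisymm (hF.trans h6.le) h10
    have h7 : F K * F L = a * b := mul_left_cancel₀ hc0.ne' h11
    have h8 : F K = a := by
      by_contra hne
      have h9 : a < F K := lt_of_le_of_ne h2 (Ne.symm hne)
      have : a * b < F K * F L := by nlinarith
      linarith
    have h9 : F L = b := by
      rw [h8] at h7
      exact mul_left_cancel₀ ha0.ne' h7
    exact freeSum_simplices (h2' h8) (h4' h9) hK0 hL0 (hFe (h6.trans h11.symm))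
  exact ⟨h1.freeSum h3, key.1, key.2⟩

/-! ## Pyramids -/

theorem F_join_univ {B : Set (ι → ℝ)} (hB : IsBody B) :
    F (joinSet B (univ : Set (Empty → ℝ))) =
      ((Fintype.card ι : ℝ) + 2) / ((Fintype.card ι : ℝ) + 1) ^ 2 * F B := by
  rw [F_join hB simplex_empty.isBody, F_empty]
  simp only [Fintype.card_empty, Nat.factorial_zero, add_zero, Nat.cast_zero]
  rw [Nat.factorial_succ]
  have h1 : (0 : ℝ) < ((Fintype.card ι).factorial : ℝ) := by
    exact_mod_cast (Fintype.card ι).factorial_pos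
  push_cast
  field_simp
  ring

theorem cn_succ (m : ℕ) : cn (m + 1) = ((m : ℝ) + 2) / ((m : ℝ) + 1) ^ 2 * cn m := by
  unfold cn
  rw [Nat.factorial_succ]
  have h1 : (0 : ℝ) < (m.factorial : ℝ) := by exact_mod_cast m.factorial_pos
  push_cast
  field_simp
  ring

/-- Pyramids over good bodies. -/
theorem Good.pyr (hPYR : PYRA) {B : Set (ι → ℝ)} (hB : Good B) {y : ι ⊕ Unit → ℝ}
    (hy : y (Sum.inr ()) ≠ 0) :
    Good (convexHull ℝ (insert y (lift '' B))) ∧
      (F (convexHull ℝ (insert y (lift '' B))) = cn (Fintype.card ι + 1) → IsSimplex B) := by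
  obtain ⟨A, hA⟩ := hPYR ι B y hB.body.conv hB.body.nonempty hy
  have h1 : Good (joinSet B (univ : Set (Empty → ℝ))) :=
    hB.join (Good.simplex simplex_empty)
  rw [← hA]
  refine ⟨h1.affine A, fun h2 => ?_⟩
  rw [F_affine, F_join_univ hB.body, cn_succ] at h2
  have h3 : (0 : ℝ) < ((Fintype.card ι : ℝ) + 2) / ((Fintype.card ι : ℝ) + 1) ^ 2 := by positivity
  exact hB.eq (mul_left_cancel₀ h3.ne' h2)

end Pool.Agent.Helper82.PN
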