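import Pool.Agent.Helper82.PN.BaseFam

/-!
# Hulls of an affine copy of `C` and of `n - k + 1` points, `k = dim C`
-/

open MeasureTheory Set
open scoped ENNReal
open Pool.Agent.Helper47.AQ

noncomputable section

namespace Pool.Agent.Helper82.PN

open St (Cls2)

variable {ι κ σ τ γ : Type} [Fintype ι] [Fintype κ] [Fintype σ] [Fintype τ] [Fintype γ]

/-- The claim: `m = card ι - card γ`. -/
def PG (C : Set (γ → ℝ)) (m : ℕ) : Prop := ∀ (ι σ : Type) [Fintype ι] [Fintype σ],
  Fintype.card ι = m + Fintype.card γ →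
  Fintype.card σ = m + 1 → ∀ (A : (γ → ℝ) →ᵃ[ℝ] (ι → ℝ))
    (y : σ → ι → ℝ), Function.Injective A →
    (interior (convexHull ℝ (A '' C ∪ range y))).Nonempty → Cls2 (convexHull ℝ (A '' C ∪ range y))

/-- An affine function constant on a body is constant. -/
theorem const_of_body {C : Set (γ → ℝ)} (hC : IsBody C) (q : (ι → ℝ) →ₗ[ℝ] ℝ)
    (A : (γ → ℝ) →ᵃ[ℝ] (ι → ℝ)) {c : ℝ} (h : ∀ z ∈ C, q (A z) = c) (z : γ → ℝ) : q (A z) = c := by
  set g : (γ → ℝ) →ᵃ[ℝ] ℝ := q.toAffineMap.comp A with hg
  obtain ⟨p, hp⟩ := hC.int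
  obtain ⟨ε, hε, hball⟩ := Metric.isOpen_iff.1 isOpen_interior p hp
  have hp' : q (A p) = c := h p (interior_subset hp)
  -- a point of the ball in the direction of z
  set r : ℝ := ε / (2 * (‖z - p‖ + 1)) with hr
  have hn : 0 < ‖z - p‖ + 1 := by positivity
  have hr0 : 0 < r := by positivity
  have hmem : p + r • (z - p) ∈ C := by
    refine interior_subset (hball ?_)
    rw [Metric.mem_ball, dist_eq_norm, add_sub_cancel_left, norm_smul, Real.norm_eq_abs,
      abs_of_pos hr0]
    have h1 : r * ‖z - p‖ ≤ ε / 2 := by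
      rw [hr, div_mul_eq_mul_div, div_le_div_iff₀ (by positivity) two_pos]
      nlinarith [norm_nonneg (z - p)]
    linarith
  have h2 : g (p + r • (z - p)) = c := h _ hmem
  have h3 : g (p + r • (z - p)) = g p + r * (g z - g p) := by
    have e1 : p + r • (z - p) = AffineMap.lineMap p z r := by
      rw [AffineMap.lineMap_apply, vsub_eq_sub, vadd_eq_add, add_comm]
    rw [e1, AffineMap.apply_lineMap, AffineMap.lineMap_apply]
    simp only [vsub_eq_sub, vadd_eq_add, smul_eq_mul]
    ring
  have h4 : g p = c := hp'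
  have h5 : r * (g z - c) = 0 := by rw [h3, h4] at h2; linarith
  rcases mul_eq_zero.1 h5 with h6 | h6
  · exact absurd h6 hr0.ne'
  · have h7 : g z = q (A z) := rfl
    linarith

/-- All the points but one, and the base, in a hyperplane. -/
theorem pyrG {m : ℕ} {C : Set (γ → ℝ)} (hT : PG C m) (hι : Fintype.card ι = m + Fintype.card γ + 1)
    (hσ : Fintype.card σ = m + 2) {A : (γ → ℝ) →ᵃ[ℝ] (ι → ℝ)} {y : σ → ι → ℝ} (hC : Convex ℝ C)
    (hCc : IsCompact C) (hCn : C.Nonempty) (hA : Function.Injective A)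
    (hint : (interior (convexHull ℝ (A '' C ∪ range y))).Nonempty) (j : σ)
    {q : (ι → ℝ) →ₗ[ℝ] ℝ} (hq : q ≠ 0) {c : ℝ} (hqA : ∀ z, q (A z) = c)
    (hc : ∀ i, i ≠ j → q (y i) = c) : Cls2 (convexHull ℝ (A '' C ∪ range y)) := by
  classical
  obtain ⟨B, hB⟩ := Pool.Agent.Helper66.PN.gHYPC ι (m + Fintype.card γ) hι q c hq
  refine cls2_of_affine B ?_
  have hbody := base_body (image_convex hC A) (image_compact hCc A) (hCn.image _) hint
  have hint' : (interior (B '' convexHull ℝ (A '' C ∪ range y))).Nonempty := (hbody.affine B).int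
  have e0 : B '' convexHull ℝ (A '' C ∪ range y) =
      convexHull ℝ ((fun z => B (A z)) '' C ∪ range (B ∘ y)) := by
    have h1 := AffineMap.image_convexHull (B : (ι → ℝ) →ᵃ[ℝ] (Fin (m + Fintype.card γ) ⊕ Unit → ℝ))
      (A '' C ∪ range y)
    have h2 : B '' convexHull ℝ (A '' C ∪ range y) = convexHull ℝ (B '' (A '' C ∪ range y)) := h1
    rw [h2, image_union, image_image, ← range_comp]
  rw [e0] at hint' ⊢
  set A' : (γ → ℝ) →ᵃ[ℝ] (Fin (m + Fintype.card γ) → ℝ) :=
    (prL (Fin (m + Fintype.card γ))).toAffineMap.comp ((B : (ι → ℝ) →ᵃ[ℝ] (Fin (m + Fintype.card γ) ⊕ Unit → ℝ)).comp A)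
    with hA'
  set u : σ → (Fin (m + Fintype.card γ) ⊕ Unit → ℝ) := B ∘ y with hu
  have hu0 : ∀ i, i ≠ j → u i (Sum.inr ()) = 0 := fun i hi => by
    simp only [hu, Function.comp, hB, hc i hi, sub_self]
  have hA0 : ∀ z, (B (A z)) (Sum.inr ()) = 0 := fun z => by
    rw [hB, hqA z, sub_self]
  have hAl : ∀ z, lift (A' z) = B (A z) := fun z => lift_pr (hA0 z)
  have hAi : Function.Injective A' := fun z w hzw => by
    have h1 := congrArg lift hzw
    rw [hAl, hAl] at h1
    exact hA (B.injective h1)
  set w : {i // i ≠ j} → Fin (m + Fintype.card γ) → ℝ := fun i => prL _ (u i.1) with hw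
  have hlw : ∀ i : {i // i ≠ j}, lift (w i) = u i.1 := fun i => lift_pr (hu0 i.1 i.2)
  have e1 : (fun z => B (A z)) '' C ∪ range u = insert (u j) (lift '' (A' '' C ∪ range w)) := by
    ext z
    constructor
    · rintro (⟨p, hp, rfl⟩ | ⟨i, rfl⟩)
      · exact mem_insert_of_mem _ ⟨A' p, Or.inl ⟨p, hp, rfl⟩, hAl p⟩
      · by_cases hi : i = j
        · rw [hi]; exact mem_insert _ _
        · exact mem_insert_of_mem _ ⟨w ⟨i, hi⟩, Or.inr (mem_range_self _), hlw ⟨i, hi⟩⟩
    · rintro (rfl | ⟨_, (⟨p, hp, rfl⟩ | ⟨i, rfl⟩), rfl⟩)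
      · exact Or.inr (mem_range_self j)
      · exact Or.inl ⟨p, hp, (hAl p).symm⟩
      · exact Or.inr ⟨i.1, (hlw i).symm⟩
  rw [e1] at hint' ⊢
  rw [← hull_insert_lift_hull]
  have hcard : Fintype.card {i // i ≠ j} = m + 1 := by
    rw [Fintype.card_subtype_compl, Fintype.card_subtype_eq, hσ]
    omega
  have hyr : u j (Sum.inr ()) ≠ 0 := by
    intro h0
    have hq2 : extF (0 : (Fin (m + Fintype.card γ) → ℝ) →ₗ[ℝ] ℝ) 1 ≠ 0 := by
      intro h
      have h1 := LinearMap.congr_fun h (Sum.elim 0 1)
      have h2 : extF (0 : (Fin (m + Fintype.card γ) → ℝ) →ₗ[ℝ] ℝ) 1 (Sum.elim 0 1) = 0 + 1 * 1 := rfl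
      rw [h2] at h1
      simp at h1
    refine flat_of_const (c := 0) hq2 ?_ hint'
    rintro z (rfl | ⟨p, -, rfl⟩)
    · have h2 : extF (0 : (Fin (m + Fintype.card γ) → ℝ) →ₗ[ℝ] ℝ) 1 (u j) = 0 + 1 * u j (Sum.inr ()) := rfl
      rw [h2, h0]; ring
    · rw [extF_lift]; rfl
  have hBi : (interior (convexHull ℝ (A' '' C ∪ range w))).Nonempty := by
    by_contra hcon
    obtain ⟨q₂, hq₂, c₂, hc₂⟩ := exists_const_of_empty'
      ((hCn.image A').mono subset_union_left) hcon
    refine flat_of_const (c := c₂)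
      (extF_ne hq₂ ((c₂ - q₂ (fun k => u j (Sum.inl k))) / u j (Sum.inr ()))) ?_ hint'
    rintro z (rfl | ⟨p, hp, rfl⟩)
    · show q₂ (fun k => u j (Sum.inl k)) +
        ((c₂ - q₂ (fun k => u j (Sum.inl k))) / u j (Sum.inr ())) * u j (Sum.inr ()) = c₂
      rw [div_mul_cancel₀ _ hyr]; ring
    · rw [extF_lift]
      exact hc₂ p hp
  exact cls2_pyr (hT (Fin (m + Fintype.card γ)) {i // i ≠ j} (by simp) hcard A' w hAi hBi)
    (base_body (image_convex hC A') (image_compact hCc A') (hCn.image _) hBi) hyr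

/-- **The family.** -/
theorem pg {C : Set (γ → ℝ)} (hCb : IsBody C) (hCp : ∀ p : γ → ℝ, Cls2 (convexHull ℝ (insert p C)))
    (m : ℕ) : PG C m := by
  classical
  have hC := hCb.conv
  have hCc := hCb.comp
  have hCn := hCb.nonempty
  induction m with
  | zero =>
    intro ι σ _ _ hι hσ A y hA hint
    rw [zero_add] at hι hσ
    obtain ⟨i₀, hi₀⟩ := Fintype.card_eq_one_iff.1 hσ
    have hbij : Function.Bijective A := by
      refine ⟨hA, ?_⟩
      have h1 : Function.Injective A.linear := A.linear_injective_iff.2 hA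
      have h2 : Function.Surjective A.linear :=
        (LinearMap.injective_iff_surjective_of_finrank_eq_finrank (by simp [hι])).1 h1
      exact A.linear_surjective_iff.1 h2
    set E : (γ → ℝ) ≃ᵃ[ℝ] (ι → ℝ) := AffineEquiv.ofBijective hbij with hE
    have hEA : ∀ z, E z = A z := fun z => rfl
    have e : convexHull ℝ (A '' C ∪ range y) =
        E '' convexHull ℝ (insert (E.symm (y i₀)) C) := by
      have h1 := AffineMap.image_convexHull (E : (γ → ℝ) →ᵃ[ℝ] (ι → ℝ))
        (insert (E.symm (y i₀)) C)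
      have h2 : E '' convexHull ℝ (insert (E.symm (y i₀)) C) =
        convexHull ℝ (E '' insert (E.symm (y i₀)) C) := h1
      rw [h2, image_insert_eq, E.apply_symm_apply]
      congr 1
      ext z
      constructor
      · rintro (⟨p, hp, rfl⟩ | ⟨i, rfl⟩)
        · exact mem_insert_of_mem _ ⟨p, hp, rfl⟩
        · rw [hi₀ i]; exact mem_insert _ _
      · rintro (rfl | ⟨p, hp, rfl⟩)
        · exact Or.inr (mem_range_self _)
        · exact Or.inl ⟨p, hp, rfl⟩
    rw [e]
    exact Cls2.affine E (hCp _)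
  | succ m hT =>
    intro ι σ _ _ hι hσ A y hA hint
    have hι' : Fintype.card ι = m + Fintype.card γ + 1 := by omega
    have hσ' : Fintype.card σ = m + 2 := by omega
    obtain ⟨j, j', hjj⟩ : ∃ j j' : σ, j ≠ j' := by
      have : Nontrivial σ := Fintype.one_lt_card_iff_nontrivial.1 (by omega)
      exact exists_pair_ne σ
    -- a hyperplane containing the base and the other points
    obtain ⟨q, hq, c, hqA, hqy⟩ : ∃ q : (ι → ℝ) →ₗ[ℝ] ℝ, q ≠ 0 ∧ ∃ c : ℝ,
        (∀ z, q (A z) = c) ∧ ∀ i, i ≠ j → i ≠ j' → q (y i) = c := by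
      obtain ⟨z₀, hz₀⟩ := hCn
      set τ := {i // i ≠ j ∧ i ≠ j'}
      have hτ : Fintype.card τ = m := by
        have h1 : Fintype.card τ = (Finset.univ.filter fun i => i ≠ j ∧ i ≠ j').card :=
          Fintype.card_subtype _
        have h2 : (Finset.univ.filter fun i => i ≠ j ∧ i ≠ j') =
            ((Finset.univ.erase j).erase j' : Finset σ) := by
          ext i
          simp [and_comm]
        rw [h1, h2, Finset.card_erase_of_mem (by simp [hjj.symm]),
          Finset.card_erase_of_mem (by simp), Finset.card_univ, hσ']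
        omega
      set W : Submodule ℝ (ι → ℝ) := Submodule.span ℝ
        (range (fun k : γ => A.linear (Pi.single k (1 : ℝ))) ∪ range (fun i : τ => y i.1 - A z₀))
        with hW
      have hfin : Module.finrank ℝ W < Module.finrank ℝ (ι → ℝ) := by
        have h1 : (range (fun k : γ => A.linear (Pi.single k (1 : ℝ))) ∪
            range (fun i : τ => y i.1 - A z₀)) =
            range (Sum.elim (fun k : γ => A.linear (Pi.single k (1 : ℝ)))
              (fun i : τ => y i.1 - A z₀)) := (Sum.elim_range _ _).symm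
        have h2 := finrank_range_le_card (R := ℝ)
          (Sum.elim (fun k : γ => A.linear (Pi.single k (1 : ℝ))) (fun i : τ => y i.1 - A z₀))
        rw [Set.finrank, ← h1, ← hW, Fintype.card_sum, hτ] at h2
        rw [Module.finrank_fintype_fun_eq_card, hι']
        omega
      have hlt : W < ⊤ := by
        refine lt_top_iff_ne_top.2 fun h => ?_
        rw [h, finrank_top] at hfin
        exact lt_irrefl _ hfin
      obtain ⟨q, hq, hk⟩ := Submodule.exists_le_ker_of_lt_top _ hlt
      have hk1 : ∀ v : γ → ℝ, q (A.linear v) = 0 := by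
        intro v
        have h1 : v = ∑ k, v k • (Pi.single k (1 : ℝ) : γ → ℝ) := by
          ext l
          simp [Finset.sum_apply, Pi.single_apply]
        rw [h1, map_sum, map_sum]
        refine Finset.sum_eq_zero fun k _ => ?_
        rw [map_smul, map_smul]
        have h2 : A.linear (Pi.single k 1) ∈ W :=
          Submodule.subset_span (Or.inl (mem_range_self k))
        have h3 := hk h2
        rw [LinearMap.mem_ker] at h3
        rw [h3, smul_zero]
      refine ⟨q, hq, q (A z₀), fun z => ?_, fun i hi hi' => ?_⟩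
      · have h1 : A z - A z₀ = A.linear (z - z₀) := by
          have := A.linearMap_vsub z z₀
          simpa using this.symm
        have h2 : q (A z) - q (A z₀) = 0 := by rw [← map_sub, h1, hk1]
        linarith
      · have h2 : y i - A z₀ ∈ W :=
          Submodule.subset_span (Or.inr ⟨⟨i, hi, hi'⟩, rfl⟩)
        have h3 := hk h2
        rw [LinearMap.mem_ker, map_sub] at h3
        linarith
    by_cases h1 : q (y j) = c
    · refine pyrG hT hι' hσ' hC hCc hCn hA hint j' hq hqA fun i hi => ?_
      by_cases hij : i = j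
      · rw [hij, h1]
      · exact hqy i hij hi
    by_cases h2 : q (y j') = c
    · refine pyrG hT hι' hσ' hC hCc hCn hA hint j hq hqA fun i hi => ?_
      by_cases hij : i = j'
      · rw [hij, h2]
      · exact hqy i hi hij
    obtain ⟨B, hB⟩ := Pool.Agent.Helper66.PN.gHYPC ι (m + Fintype.card γ) hι' q c hq
    refine cls2_of_affine B ?_
    have hbody := base_body (image_convex hC A) (image_compact hCc A) (hCn.image _) hint
    have hint' : (interior (B '' convexHull ℝ (A '' C ∪ range y))).Nonempty :=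
      (hbody.affine B).int
    have e0 : B '' convexHull ℝ (A '' C ∪ range y) =
        convexHull ℝ ((fun z => B (A z)) '' C ∪ range (B ∘ y)) := by
      have h1 := AffineMap.image_convexHull (B : (ι → ℝ) →ᵃ[ℝ] (Fin (m + Fintype.card γ) ⊕ Unit → ℝ))
        (A '' C ∪ range y)
      have h2 : B '' convexHull ℝ (A '' C ∪ range y) = convexHull ℝ (B '' (A '' C ∪ range y)) := h1
      rw [h2, image_union, image_image, ← range_comp]
    rw [e0] at hint' ⊢
    set BA : (γ → ℝ) →ᵃ[ℝ] (Fin (m + Fintype.card γ) ⊕ Unit → ℝ) :=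
      (B : (ι → ℝ) →ᵃ[ℝ] (Fin (m + Fintype.card γ) ⊕ Unit → ℝ)).comp A with hBA
    set A' : (γ → ℝ) →ᵃ[ℝ] (Fin (m + Fintype.card γ) → ℝ) := (prL (Fin (m + Fintype.card γ))).toAffineMap.comp BA
      with hA'
    set u : σ → (Fin (m + Fintype.card γ) ⊕ Unit → ℝ) := B ∘ y with hu
    have hu0 : ∀ i, i ≠ j → i ≠ j' → u i (Sum.inr ()) = 0 := fun i hi hi' => by
      simp only [hu, Function.comp, hB, hqy i hi hi', sub_self]
    have huj : u j (Sum.inr ()) ≠ 0 := by
      simp only [hu, Function.comp, hB]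
      exact sub_ne_zero.2 h1
    have huj' : u j' (Sum.inr ()) ≠ 0 := by
      simp only [hu, Function.comp, hB]
      exact sub_ne_zero.2 h2
    have hA0 : ∀ z, (B (A z)) (Sum.inr ()) = 0 := fun z => by
      rw [hB, hqA z, sub_self]
    have hAl : ∀ z, lift (A' z) = B (A z) := fun z => lift_pr (hA0 z)
    have hAi : Function.Injective A' := fun z w hzw => by
      have h1 := congrArg lift hzw
      rw [hAl, hAl] at h1
      exact hA (B.injective h1)
    have hBAi : Function.Injective BA := fun z w hzw => hA (B.injective hzw)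
    set τ := {i // i ≠ j ∧ i ≠ j'} with hτdef
    have hτ : Fintype.card τ = m := by
      have h1 : Fintype.card τ = (Finset.univ.filter fun i => i ≠ j ∧ i ≠ j').card :=
        Fintype.card_subtype _
      have h2 : (Finset.univ.filter fun i => i ≠ j ∧ i ≠ j') =
          ((Finset.univ.erase j).erase j' : Finset σ) := by
        ext i
        simp [and_comm]
      rw [h1, h2, Finset.card_erase_of_mem (by simp [hjj.symm]),
        Finset.card_erase_of_mem (by simp), Finset.card_univ, hσ']
      omega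
    set w : τ → Fin (m + Fintype.card γ) → ℝ := fun i => prL _ (u i.1) with hw
    have hlw : ∀ i : τ, lift (w i) = u i.1 := fun i => lift_pr (hu0 i.1 i.2.1 i.2.2)
    have e1 : (fun z => B (A z)) '' C ∪ range u =
        insert (u j) (insert (u j') (lift '' (A' '' C ∪ range w))) := by
      ext z
      constructor
      · rintro (⟨p, hp, rfl⟩ | ⟨i, rfl⟩)
        · exact mem_insert_of_mem _ (mem_insert_of_mem _ ⟨A' p, Or.inl ⟨p, hp, rfl⟩, hAl p⟩)
        · by_cases hi : i = j
          · rw [hi]; exact mem_insert _ _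
          · by_cases hi' : i = j'
            · rw [hi']; exact mem_insert_of_mem _ (mem_insert _ _)
            · exact mem_insert_of_mem _ (mem_insert_of_mem _
                ⟨w ⟨i, hi, hi'⟩, Or.inr (mem_range_self _), hlw ⟨i, hi, hi'⟩⟩)
      · rintro (rfl | rfl | ⟨_, (⟨p, hp, rfl⟩ | ⟨i, rfl⟩), rfl⟩)
        · exact Or.inr (mem_range_self j)
        · exact Or.inr (mem_range_self j')
        · exact Or.inl ⟨p, hp, (hAl p).symm⟩
        · exact Or.inr ⟨i.1, (hlw i).symm⟩
    by_cases hBi : (interior (convexHull ℝ (A' '' C ∪ range w))).Nonempty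
    swap
    · obtain ⟨q₂, hq₂, c₂, hc₂⟩ := exists_const_of_empty'
        ((hCn.image A').mono subset_union_left) hBi
      have e2 : (fun z => B (A z)) '' C = BA '' C := rfl
      rw [e2] at hint' ⊢
      refine pyrG hT (by simp) hσ' hC hCc hCn hBAi hint' j'
        (extF_ne hq₂ ((c₂ - q₂ (fun k => u j (Sum.inl k))) / u j (Sum.inr ()))) (c := c₂)
        (const_of_body hCb _ BA fun z hz => ?_) fun i hi => ?_
      · have h3 : BA z = lift (A' z) := (hAl z).symm
        rw [h3, extF_lift]
        exact hc₂ _ (Or.inl ⟨z, hz, rfl⟩)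
      · by_cases hij : i = j
        · rw [hij]
          show q₂ (fun k => u j (Sum.inl k)) +
            ((c₂ - q₂ (fun k => u j (Sum.inl k))) / u j (Sum.inr ())) * u j (Sum.inr ()) = c₂
          rw [div_mul_cancel₀ _ huj]; ring
        · rw [← hlw ⟨i, hij, hi⟩, extF_lift]
          exact hc₂ _ (Or.inr (mem_range_self _))
    rw [e1]
    have e3 : convexHull ℝ (insert (u j) (insert (u j') (lift '' (A' '' C ∪ range w)))) =
        convexHull ℝ (insert (u j) (insert (u j')
          (St.lift '' convexHull ℝ (A' '' C ∪ range w)))) := by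
      have : St.lift '' convexHull ℝ (A' '' C ∪ range w) =
          lift '' convexHull ℝ (A' '' C ∪ range w) := rfl
      rw [this, lift_image_hull, hull_insert2]
    rw [e3]
    refine Cls2.twoPoint (u j) (u j')
      (base_body (image_convex hC A') (image_compact hCc A') (hCn.image _) hBi) (fun p => ?_) huj
    have e4 : convexHull ℝ (insert p (convexHull ℝ (A' '' C ∪ range w))) =
        convexHull ℝ (A' '' C ∪ range (fun o : Option τ => o.elim p w)) := by
      rw [hull_insert_hull]
      congr 1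
      ext z
      constructor
      · rintro (rfl | hz | ⟨i, rfl⟩)
        · exact Or.inr ⟨none, rfl⟩
        · exact Or.inl hz
        · exact Or.inr ⟨some i, rfl⟩
      · rintro (hz | ⟨o, rfl⟩)
        · exact Or.inr (Or.inl hz)
        · rcases o with _ | i
          · exact Or.inl rfl
          · exact Or.inr (Or.inr (mem_range_self i))
    rw [e4]
    refine hT (Fin (m + Fintype.card γ)) (Option τ) (by simp) (by rw [Fintype.card_option, hτ]) A' _
      hAi ?_
    rw [← e4]
    exact hBi.mono (interior_mono ((subset_insert _ _).trans (subset_convexHull ℝ _)))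

end Pool.Agent.Helper82.PN
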