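import Pool.Agent.Helper82.PN.FiberR
import Pool.Agent.Helper82.PN.GoalsR

/-!
# Bodies with homothetic parallel sections: assembly
-/

open MeasureTheory Set
open scoped ENNReal
open Pool.Agent.Helper47.AQ

noncomputable section

namespace Pool.Agent.Helper82.PN

/-! ## Profiles -/

theorem prof_zero : Prof (fun _ => 0) :=
  ⟨concaveOn_const 0 (convex_Icc 0 1), fun _ _ _ _ _ => le_refl _, fun _ _ => le_refl _,
    continuousOn_const⟩

theorem Prof.add {R₁ R₂ : ℝ → ℝ} (h₁ : Prof R₁) (h₂ : Prof R₂) : Prof (fun s => R₁ s + R₂ s) :=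
  ⟨h₁.conc.add h₂.conc, fun _ ha _ hb hab => add_le_add (h₁.anti ha hb hab) (h₂.anti ha hb hab),
    fun s hs => add_nonneg (h₁.nonneg s hs) (h₂.nonneg s hs), h₁.cont.add h₂.cont⟩

theorem Prof.smul {R : ℝ → ℝ} (h : Prof R) {c : ℝ} (hc : 0 ≤ c) : Prof (fun s => c * R s) :=
  ⟨by
    have := h.conc.smul hc
    exact this, fun _ ha _ hb hab => mul_le_mul_of_nonneg_left (h.anti ha hb hab) hc,
    fun s hs => mul_nonneg hc (h.nonneg s hs), continuousOn_const.mul h.cont⟩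

theorem Prof.congr {R R' : ℝ → ℝ} (h : Prof R) (he : ∀ s ∈ Icc (0 : ℝ) 1, R s = R' s) :
    Prof R' := by
  refine ⟨h.conc.congr fun s hs => he s hs, fun a ha b hb hab => ?_, fun s hs => ?_,
    h.cont.congr fun s hs => (he s hs).symm⟩
  · rw [← he a ha, ← he b hb]; exact h.anti ha hb hab
  · rw [← he s hs]; exact h.nonneg s hs

theorem zero_mem : (0 : ℝ) ∈ Icc (0 : ℝ) 1 := ⟨le_refl _, zero_le_one⟩

theorem one_mem : (1 : ℝ) ∈ Icc (0 : ℝ) 1 := ⟨zero_le_one, le_refl _⟩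

theorem Prof.le_zero {R : ℝ → ℝ} (h : Prof R) {s : ℝ} (hs : s ∈ Icc (0 : ℝ) 1) : R s ≤ R 0 :=
  h.anti zero_mem hs hs.1

theorem Prof.eq_zero {R : ℝ → ℝ} (h : Prof R) (h0 : ¬ 0 < R 0) :
    ∀ s ∈ Icc (0 : ℝ) 1, R s = 0 := fun s hs =>
  le_antisymm ((h.le_zero hs).trans (not_lt.1 h0)) (h.nonneg s hs)

theorem prof_tp {a : ℝ} : Prof (tp a) := by
  by_cases ha : a < 1
  · have e : tp a = fun s => min 1 ((1 - s) / (1 - a)) := by
      funext s; simp [tp, ha]
    rw [e]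
    have h1 : 0 < 1 - a := by linarith
    refine ⟨?_, ?_, ?_, ?_⟩
    · refine (concaveOn_const 1 (convex_Icc 0 1)).inf ⟨convex_Icc 0 1, ?_⟩
      intro x _ y _ s t _ _ hst
      have : s • ((1 - x) / (1 - a)) + t • ((1 - y) / (1 - a)) =
          (1 - (s • x + t • y)) / (1 - a) := by
        simp only [smul_eq_mul]
        field_simp
        linear_combination hst
      rw [this]
    · intro x _ y _ hxy
      refine min_le_min (le_refl _) (div_le_div_of_nonneg_right (by linarith) h1.le)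
    · intro s hs
      exact le_min zero_le_one (div_nonneg (by linarith [hs.2]) h1.le)
    · exact (continuous_const.min ((continuous_const.sub continuous_id).div_const _)).continuousOn
  · have e : tp a = fun _ => 1 := by
      funext s; simp [tp, ha]
    rw [e]
    exact ⟨concaveOn_const 1 (convex_Icc 0 1), fun _ _ _ _ _ => le_refl _,
      fun _ _ => zero_le_one, continuousOn_const⟩

theorem tp_zero {a : ℝ} (ha : 0 ≤ a) : tp a 0 = 1 := by
  unfold tp
  split_ifs with h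
  · rw [min_eq_left]
    rw [sub_zero, le_div_iff₀ (by linarith)]
    linarith
  · rfl

theorem prof_sum {t c : ℕ → ℝ} (N : ℕ) (hc : ∀ j < N, 0 ≤ c j) :
    Prof (fun s => ∑ j ∈ Finset.range N, c j * tp (t j) s) := by
  induction N with
  | zero => simpa using prof_zero
  | succ N ih =>
    simp only [Finset.sum_range_succ]
    exact (ih fun j hj => hc j (by omega)).add (prof_tp.smul (hc N (by omega)))

/-! ## Identities for `KLR` -/

section
variable {ι : Type} {B : Set (ι → ℝ)} {L L' R R' : ℝ → ℝ}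

theorem KLR_congr (hL : ∀ s ∈ Icc (0 : ℝ) 1, L s = L' s) (hR : ∀ s ∈ Icc (0 : ℝ) 1, R s = R' s) :
    KLR B L R = KLR B L' R' := by
  ext z
  constructor
  · rintro ⟨s, hs, hb, h1, h2⟩
    exact ⟨s, hs, hb, by rw [← hL s hs]; exact h1, by rw [← hR s hs]; exact h2⟩
  · rintro ⟨s, hs, hb, h1, h2⟩
    exact ⟨s, hs, hb, by rw [hL s hs]; exact h1, by rw [hR s hs]; exact h2⟩

/-- Scaling the last coordinate. -/
def sc (ι : Type) (c : ℝ) (hc : c ≠ 0) : (ι ⊕ Unit → ℝ) ≃ᵃ[ℝ] (ι ⊕ Unit → ℝ) :=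
  (LinearEquiv.ofLinearMap
    ({ toFun := fun z => Sum.elim (fun i => z (Sum.inl i)) (fun _ => c * z (Sum.inr ()))
       map_add' := fun z w => by
        funext i
        rcases i with i | i
        · simp
        · simp [mul_add]
       map_smul' := fun a z => by
        funext i
        rcases i with i | i
        · simp
        · simp [mul_left_comm] } : (ι ⊕ Unit → ℝ) →ₗ[ℝ] (ι ⊕ Unit → ℝ))
    ({ toFun := fun z => Sum.elim (fun i => z (Sum.inl i)) (fun _ => c⁻¹ * z (Sum.inr ()))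
       map_add' := fun z w => by
        funext i
        rcases i with i | i
        · simp
        · simp [mul_add]
       map_smul' := fun a z => by
        funext i
        rcases i with i | i
        · simp
        · simp [mul_left_comm] } : (ι ⊕ Unit → ℝ) →ₗ[ℝ] (ι ⊕ Unit → ℝ))
    (by
      ext z i
      rcases i with i | i
      · simp
      · simp [hc])
    (by
      ext z i
      rcases i with i | i
      · simp
      · simp [hc])).toAffineEquiv

theorem sc_inl {c : ℝ} (hc : c ≠ 0) (z : ι ⊕ Unit → ℝ) (i : ι) :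
    sc ι c hc z (Sum.inl i) = z (Sum.inl i) := rfl

theorem sc_inr {c : ℝ} (hc : c ≠ 0) (z : ι ⊕ Unit → ℝ) :
    sc ι c hc z (Sum.inr ()) = c * z (Sum.inr ()) := rfl

theorem sc_symm_inl {c : ℝ} (hc : c ≠ 0) (z : ι ⊕ Unit → ℝ) (i : ι) :
    (sc ι c hc).symm z (Sum.inl i) = z (Sum.inl i) := rfl

theorem sc_symm_inr {c : ℝ} (hc : c ≠ 0) (z : ι ⊕ Unit → ℝ) :
    (sc ι c hc).symm z (Sum.inr ()) = c⁻¹ * z (Sum.inr ()) := rfl

theorem mem_sc {c : ℝ} (hc : c ≠ 0) (S : Set (ι ⊕ Unit → ℝ)) (z : ι ⊕ Unit → ℝ) :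
    z ∈ sc ι c hc '' S ↔ (sc ι c hc).symm z ∈ S := by
  constructor
  · rintro ⟨w, hw, rfl⟩
    simpa using hw
  · intro h
    exact ⟨_, h, by simp⟩

theorem KLR_scale {c : ℝ} (hc : 0 < c) :
    KLR B (fun s => c * L s) (fun s => c * R s) = sc ι c hc.ne' '' KLR B L R := by
  ext z
  rw [mem_sc]
  constructor
  · rintro ⟨s, hs, hb, h1, h2⟩
    refine ⟨s, hs, hb, ?_, ?_⟩
    · rw [sc_symm_inr, ← neg_le_neg_iff, neg_neg, ← mul_neg, inv_mul_le_iff₀ hc]
      linarith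
    · rw [sc_symm_inr, inv_mul_le_iff₀ hc]
      exact h2
  · rintro ⟨s, hs, hb, h1, h2⟩
    refine ⟨s, hs, hb, ?_, ?_⟩
    · rw [sc_symm_inr, ← neg_le_neg_iff, neg_neg, ← mul_neg, inv_mul_le_iff₀ hc] at h1
      linarith
    · rw [sc_symm_inr, inv_mul_le_iff₀ hc] at h2
      exact h2

theorem KLR_neg : KLR B L R = sc ι (-1) (by norm_num) '' KLR B R L := by
  ext z
  rw [mem_sc]
  constructor
  · rintro ⟨s, hs, hb, h1, h2⟩
    refine ⟨s, hs, hb, ?_, ?_⟩
    · rw [sc_symm_inr]; norm_num; linarith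
    · rw [sc_symm_inr]; norm_num; linarith
  · rintro ⟨s, hs, hb, h1, h2⟩
    rw [sc_symm_inr] at h1 h2
    norm_num at h1 h2
    exact ⟨s, hs, hb, by linarith, by linarith⟩

/-- The direction of the last coordinate. -/
def eL (ι : Type) : ι ⊕ Unit → ℝ := Sum.elim 0 (fun _ => 1)

theorem eL_ne : eL ι ≠ 0 := by
  intro h
  have := congrFun h (Sum.inr ())
  simp [eL] at this

theorem par_iff (z w : ι ⊕ Unit → ℝ) :
    (∃ a : ℝ, z - w = a • eL ι) ↔ ∀ i, z (Sum.inl i) = w (Sum.inl i) := by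
  constructor
  · rintro ⟨a, ha⟩ i
    have := congrFun ha (Sum.inl i)
    simp [eL, sub_eq_zero] at this
    exact this
  · intro h
    refine ⟨z (Sum.inr ()) - w (Sum.inr ()), ?_⟩
    funext i
    rcases i with i | i
    · simp [eL, h i]
    · simp [eL]

/-- Two such bodies with positive... have the same projection. -/
theorem KLR_proj (hR0 : ∀ s ∈ Icc (0 : ℝ) 1, 0 ≤ L' s ∧ 0 ≤ R' s) :
    ∀ z ∈ KLR B L R, ∃ w ∈ KLR B L' R', ∃ a : ℝ, z - w = a • eL ι := by
  rintro z ⟨s, hs, ⟨b, hb, hz⟩, -, -⟩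
  refine ⟨Sum.elim (fun i => z (Sum.inl i)) (fun _ => 0), ⟨s, hs, ⟨b, hb, fun i => ?_⟩, ?_, ?_⟩, ?_⟩
  · simpa using hz i
  · simpa using (hR0 s hs).1
  · simpa using (hR0 s hs).2
  · rw [par_iff]
    intro i
    simp

/-- The combination of two bodies `KLR`. -/
theorem KLR_fibSum {L₁ L₂ R₁ R₂ : ℝ → ℝ} (hL₁ : Prof L₁) (hL₂ : Prof L₂) (hR₁ : Prof R₁)
    (hR₂ : Prof R₂) :
    fibSum (eL ι) (KLR B (fun s => 2 * L₁ s) (fun s => 2 * R₁ s))
      (KLR B (fun s => 2 * L₂ s) (fun s => 2 * R₂ s)) (1 / 2) =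
      KLR B (fun s => L₁ s + L₂ s) (fun s => R₁ s + R₂ s) := by
  ext z
  constructor
  · rintro ⟨x, ⟨s, hs, ⟨b, hb, hx⟩, h1, h2⟩, y, ⟨s', hs', ⟨b', hb', hy⟩, h1', h2'⟩, hxy, rfl⟩
    rw [par_iff] at hxy
    have hin : ∀ i, ((1 - (1 / 2 : ℝ)) • x + (1 / 2 : ℝ) • y) (Sum.inl i) = x (Sum.inl i) := by
      intro i
      simp only [Pi.add_apply, Pi.smul_apply, smul_eq_mul, ← hxy i]
      ring
    have hir : ((1 - (1 / 2 : ℝ)) • x + (1 / 2 : ℝ) • y) (Sum.inr ()) =
        (x (Sum.inr ()) + y (Sum.inr ())) / 2 := by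
      simp only [Pi.add_apply, Pi.smul_apply, smul_eq_mul]
      ring
    rcases le_total s s' with hle | hle
    · refine ⟨s, hs, ⟨b, hb, fun i => by rw [hin, hx]⟩, ?_, ?_⟩
      · have := hL₂.anti hs hs' hle
        rw [hir]
        simp only at h1 h1' ⊢
        linarith
      · have := hR₂.anti hs hs' hle
        rw [hir]
        simp only at h2 h2' ⊢
        linarith
    · refine ⟨s', hs', ⟨b', hb', fun i => by rw [hin, hxy, hy]⟩, ?_, ?_⟩
      · have := hL₁.anti hs' hs hle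
        rw [hir]
        simp only at h1 h1' ⊢
        linarith
      · have := hR₁.anti hs' hs hle
        rw [hir]
        simp only at h2 h2' ⊢
        linarith
  · rintro ⟨s, hs, ⟨b, hb, hz⟩, h1, h2⟩
    simp only at h1 h2
    have l1 := hL₁.nonneg s hs
    have l2 := hL₂.nonneg s hs
    have r1 := hR₁.nonneg s hs
    have r2 := hR₂.nonneg s hs
    -- split the last coordinate
    obtain ⟨u, hu1, hu2, hu3, hu4⟩ : ∃ u : ℝ, -(2 * L₁ s) ≤ 2 * u ∧ 2 * u ≤ 2 * R₁ s ∧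
        -(2 * L₂ s) ≤ 2 * (z (Sum.inr ()) - u) ∧ 2 * (z (Sum.inr ()) - u) ≤ 2 * R₂ s := by
      refine ⟨max (-(L₁ s)) (min (R₁ s) (z (Sum.inr ()) + L₂ s)), ?_, ?_, ?_, ?_⟩
      · have := le_max_left (-(L₁ s)) (min (R₁ s) (z (Sum.inr ()) + L₂ s))
        linarith
      · have : max (-(L₁ s)) (min (R₁ s) (z (Sum.inr ()) + L₂ s)) ≤ R₁ s :=
          max_le (by linarith) (min_le_left _ _)
        linarith
      · have : max (-(L₁ s)) (min (R₁ s) (z (Sum.inr ()) + L₂ s)) ≤ z (Sum.inr ()) + L₂ s :=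
          max_le (by linarith) (min_le_right _ _)
        linarith
      · have h3 : min (R₁ s) (z (Sum.inr ()) + L₂ s) ≤
            max (-(L₁ s)) (min (R₁ s) (z (Sum.inr ()) + L₂ s)) := le_max_right _ _
        have h4 : z (Sum.inr ()) - R₂ s ≤ min (R₁ s) (z (Sum.inr ()) + L₂ s) :=
          le_min (by linarith) (by linarith)
        linarith
    refine ⟨Sum.elim (fun i => z (Sum.inl i)) (fun _ => 2 * u),
      ⟨s, hs, ⟨b, hb, fun i => by simpa using hz i⟩, by simpa using hu1, by simpa using hu2⟩,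
      Sum.elim (fun i => z (Sum.inl i)) (fun _ => 2 * (z (Sum.inr ()) - u)),
      ⟨s, hs, ⟨b, hb, fun i => by simpa using hz i⟩, by simpa using hu3, by simpa using hu4⟩, ?_, ?_⟩
    · rw [par_iff]; intro i; simp
    · funext i
      rcases i with i | i
      · simp only [Pi.add_apply, Pi.smul_apply, smul_eq_mul, Sum.elim_inl]; ring
      · simp only [Pi.add_apply, Pi.smul_apply, smul_eq_mul, Sum.elim_inr]; ring

theorem near_KLR [Fintype ι] {ε : ℝ} (hR : ∀ s ∈ Icc (0 : ℝ) 1, 0 ≤ R s)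
    (hR' : ∀ s ∈ Icc (0 : ℝ) 1, 0 ≤ R' s) (hε : 0 ≤ ε)
    (h : ∀ s ∈ Icc (0 : ℝ) 1, |R s - R' s| ≤ ε) :
    Near ε (KLR B (fun _ => 0) R) (KLR B (fun _ => 0) R') := by
  have key : ∀ {R R' : ℝ → ℝ}, (∀ s ∈ Icc (0 : ℝ) 1, 0 ≤ R' s) →
      (∀ s ∈ Icc (0 : ℝ) 1, |R s - R' s| ≤ ε) →
      ∀ z ∈ KLR B (fun _ => 0) R, ∃ w ∈ KLR B (fun _ => 0) R', ‖z - w‖ ≤ ε := by
    intro R R' hR' h z hz
    obtain ⟨s, hs, ⟨b, hb, hz⟩, h1, h2⟩ := hz
    refine ⟨Sum.elim (fun i => z (Sum.inl i)) (fun _ => min (z (Sum.inr ())) (R' s)),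
      ⟨s, hs, ⟨b, hb, fun i => by simpa using hz i⟩, ?_, ?_⟩, ?_⟩
    · simp only [neg_zero] at h1
      simpa using ⟨h1, hR' s hs⟩
    · simp
    · rw [pi_norm_le_iff_of_nonneg hε]
      rintro (i | i)
      · simpa using hε
      · simp only [Pi.sub_apply, Sum.elim_inr, Real.norm_eq_abs]
        have h3 := abs_le.1 (h s hs)
        rcases le_total (z (Sum.inr ())) (R' s) with h4 | h4
        · rw [min_eq_left h4]; simpa using hε
        · rw [min_eq_right h4, abs_le]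
          have e : z (Sum.inr i) = z (Sum.inr ()) := rfl
          constructor
          · linarith
          · linarith
  refine ⟨key hR' h, fun w hw => ?_⟩
  obtain ⟨z, hz, hn⟩ := key (R := R') (R' := R) hR (fun s hs => by
    rw [abs_sub_comm]; exact h s hs) w hw
  exact ⟨z, hz, by rw [norm_sub_rev]; exact hn⟩

end

end Pool.Agent.Helper82.PN
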