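import Pool.Agent.Helper82.PN.RevA

/-!
# Bodies with homothetic parallel sections: the inequality
-/

open MeasureTheory Set
open scoped ENNReal
open Pool.Agent.Helper47.AQ

noncomputable section

namespace Pool.Agent.Helper82.PN

variable {ι : Type} [Fintype ι]

/-! ## The truncated cones -/

/-- The value at the truncated cones. -/
theorem F_tc (hV : TCVOL) (hP : TCPOL) {B : Set (ι → ℝ)} (hB : IsBody B) (h0 : (0 : ι → ℝ) ∈ B)
    {a : ℝ} (ha0 : 0 ≤ a) (ha1 : a ≤ 1) (hT : IsBody (tc B a)) :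
    F (tc B a) = F B * ((∑ j ∈ Finset.range (Fintype.card ι + 1), a ^ j) *
      ((1 - a) * (Fintype.card ι : ℝ) + 2)) / ((Fintype.card ι : ℝ) + 1) ^ 2 := by
  unfold F
  rw [hV ι B a hB h0 ha0 ha1, hP ι B a hB h0 ha0 ha1 hT]
  have : (0 : ℝ) < (Fintype.card ι : ℝ) + 1 := by positivity
  field_simp

theorem tc_alg (m : ℕ) {a : ℝ} (ha0 : 0 ≤ a) (ha1 : a ≤ 1) :
    (m : ℝ) + 2 + m * a ^ m ≤ (∑ j ∈ Finset.range (m + 1), a ^ j) * ((1 - a) * (m : ℝ) + 2) := by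
  have h1 : (∑ j ∈ Finset.range (m + 1), a ^ j) * (1 - a) = 1 - a ^ (m + 1) :=
    geom_sum_mul_neg a (m + 1)
  have h2 : (m : ℝ) * a ^ m ≤ ∑ j ∈ Finset.range m, a ^ (j + 1) := by
    calc (m : ℝ) * a ^ m = ∑ _j ∈ Finset.range m, a ^ m := by simp
      _ ≤ _ := Finset.sum_le_sum fun j hj =>
          pow_le_pow_of_le_one ha0 ha1 (by have := Finset.mem_range.1 hj; omega)
  have h3 : ∑ j ∈ Finset.range (m + 1), a ^ j = ∑ j ∈ Finset.range m, a ^ (j + 1) + 1 := by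
    rw [Finset.sum_range_succ']
    simp
  have h4 : (∑ j ∈ Finset.range (m + 1), a ^ j) * ((1 - a) * (m : ℝ) + 2) =
      (m : ℝ) * (1 - a ^ (m + 1)) + 2 * (∑ j ∈ Finset.range m, a ^ (j + 1) + 1) := by
    rw [← h3, ← h1]; ring
  have h5 : a ^ (m + 1) ≤ a ^ m := pow_le_pow_of_le_one ha0 ha1 (by omega)
  have h6 : 0 ≤ a ^ m := pow_nonneg ha0 m
  have hm : (0 : ℝ) ≤ m := Nat.cast_nonneg m
  rw [h4]
  nlinarith [mul_le_mul_of_nonneg_left h5 hm]

/-- The lower bound at the truncated cones with parameter at least `a`. -/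
def gam (B : Set (ι → ℝ)) (a : ℝ) : ℝ :=
  F B * ((Fintype.card ι : ℝ) + 2 + Fintype.card ι * a ^ Fintype.card ι) /
    ((Fintype.card ι : ℝ) + 1) ^ 2

/-- `γ ≤ F` for the one-sided body with profile `R`. -/
def Low (B : Set (ι → ℝ)) (γ : ℝ) (R : ℝ → ℝ) : Prop :=
  Prof R → 0 < R 0 → γ ≤ F (KLR B (fun _ => 0) R)

theorem F_nonneg (K : Set (ι → ℝ)) : 0 ≤ F K := mul_nonneg ENNReal.toReal_nonneg ENNReal.toReal_nonneg

theorem low_tp (hR : REVB) (hE : TCEQ) (hV : TCVOL) (hP : TCPOL) {B : Set (ι → ℝ)} (hB : IsBody B)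
    (h0 : (0 : ι → ℝ) ∈ B) {a t : ℝ} (ha0 : 0 ≤ a) (hat : a ≤ t) (ht1 : t ≤ 1) :
    Low B (gam B a) (tp t) := by
  intro _ _
  have ht0 : 0 ≤ t := ha0.trans hat
  have hbody : IsBody (KLR B (fun _ => 0) (tp t)) := by
    refine hR ι B _ _ hB prof_zero prof_tp ?_
    rw [tp_zero ht0]; norm_num
  have e := (hE ι B hB.conv h0).1 t ht0 ht1
  rw [e] at hbody ⊢
  rw [F_tc hV hP hB h0 ht0 ht1 hbody]
  unfold gam
  refine div_le_div_of_nonneg_right ?_ (by positivity)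
  refine mul_le_mul_of_nonneg_left ?_ (F_nonneg B)
  refine le_trans ?_ (tc_alg (Fintype.card ι) ht0 ht1)
  have h1 : a ^ Fintype.card ι ≤ t ^ Fintype.card ι := pow_le_pow_left₀ ha0 hat _
  have := mul_le_mul_of_nonneg_left h1 (Nat.cast_nonneg (α := ℝ) (Fintype.card ι))
  linarith

theorem F_KLR_smul {B : Set (ι → ℝ)} {R : ℝ → ℝ} {c : ℝ} (hc : 0 < c) :
    F (KLR B (fun _ => 0) (fun s => c * R s)) = F (KLR B (fun _ => 0) R) := by
  have h := KLR_scale (B := B) (L := fun _ => 0) (R := R) hc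
  simp only [mul_zero] at h
  rw [h, F_affine]

/-- The mixture inequality for arbitrary lower bounds. -/
theorem shadow_low (hS : SHADV) {κ : Type} [Fintype κ] {v : κ → ℝ} {K₀ K₁ L : Set (κ → ℝ)}
    {ρ γ₀ γ₁ : ℝ} (hv : v ≠ 0) (hρ0 : 0 < ρ) (hρ1 : ρ < 1) (b0 : IsBody K₀) (b1 : IsBody K₁)
    (bL : IsBody L) (h0 : 0 < γ₀) (h01 : γ₀ ≤ γ₁)
    (l0 : γ₀ ≤ F K₀) (l1 : γ₁ ≤ F K₁) (hf : FibV v K₀ K₁ L ρ) (hc : CoFib v K₀ K₁ L ρ) :
    γ₀ ≤ F L ∧ (γ₀ < γ₁ → γ₀ < F L) := by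
  obtain ⟨w, hw0, hw1, hw⟩ := hS κ v K₀ K₁ L ρ hv hρ0 hρ1 b0 b1 bL hf hc
  have h1 : 0 < γ₁ := h0.trans_le h01
  have hFL : 0 < F L := mul_pos bL.vol_pos bL.dpol_pos
  have i0 : (F K₀)⁻¹ ≤ γ₀⁻¹ := inv_anti₀ h0 l0
  have i1 : (F K₁)⁻¹ ≤ γ₁⁻¹ := inv_anti₀ h1 l1
  have m0 := mul_le_mul_of_nonneg_left i0 (by linarith : 0 ≤ 1 - w)
  have m1 := mul_le_mul_of_nonneg_left i1 hw0.le
  constructor
  · have h2 : γ₁⁻¹ ≤ γ₀⁻¹ := inv_anti₀ h0 h01
    have m2 := mul_le_mul_of_nonneg_left h2 hw0.le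
    have h3 : (F L)⁻¹ ≤ γ₀⁻¹ := by linarith
    exact (inv_le_inv₀ hFL h0).1 h3
  · intro hlt
    have h2 : γ₁⁻¹ < γ₀⁻¹ := inv_strictAnti₀ h0 hlt
    have m2 := mul_lt_mul_of_pos_left h2 hw0
    have h3 : (F L)⁻¹ < γ₀⁻¹ := by linarith
    exact (inv_lt_inv₀ hFL h0).1 h3

/-- Sums of profiles. -/
theorem low_add (hS : SHADV) (hRB : REVB) {B : Set (ι → ℝ)} (hB : IsBody B)
    {γ₀ γ₁ : ℝ} (h0 : 0 < γ₀) (h01 : γ₀ ≤ γ₁) {R₁ R₂ : ℝ → ℝ} (p1 : Prof R₁) (p2 : Prof R₂)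
    (q1 : 0 < R₁ 0) (q2 : 0 < R₂ 0)
    (l1 : γ₀ ≤ F (KLR B (fun _ => 0) R₁)) (l2 : γ₁ ≤ F (KLR B (fun _ => 0) R₂)) :
    γ₀ ≤ F (KLR B (fun _ => 0) (fun s => R₁ s + R₂ s)) ∧
      (γ₀ < γ₁ → γ₀ < F (KLR B (fun _ => 0) (fun s => R₁ s + R₂ s))) := by
  have e := KLR_fibSum (B := B) prof_zero prof_zero p1 p2
  simp only [mul_zero, add_zero] at e
  have e1 : F (KLR B (fun _ => 0) (fun s => 2 * R₁ s)) = F (KLR B (fun _ => 0) R₁) :=
    F_KLR_smul two_pos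
  have e2 : F (KLR B (fun _ => 0) (fun s => 2 * R₂ s)) = F (KLR B (fun _ => 0) R₂) :=
    F_KLR_smul two_pos
  have b1 : IsBody (KLR B (fun _ => 0) (fun s => 2 * R₁ s)) :=
    hRB ι B _ _ hB prof_zero (p1.smul two_pos.le) (by simpa using q1)
  have b2 : IsBody (KLR B (fun _ => 0) (fun s => 2 * R₂ s)) :=
    hRB ι B _ _ hB prof_zero (p2.smul two_pos.le) (by simpa using q2)
  have b : IsBody (KLR B (fun _ => 0) (fun s => R₁ s + R₂ s)) :=
    hRB ι B _ _ hB prof_zero (p1.add p2) (by linarith)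
  have pr1 : ∀ z ∈ KLR B (fun _ => 0) (fun s => 2 * R₁ s), ∃ w ∈ KLR B (fun _ => 0)
      (fun s => 2 * R₂ s), ∃ a : ℝ, z - w = a • eL ι :=
    KLR_proj fun s hs => ⟨le_refl _, (p2.smul two_pos.le).nonneg s hs⟩
  have pr2 : ∀ w ∈ KLR B (fun _ => 0) (fun s => 2 * R₂ s), ∃ z ∈ KLR B (fun _ => 0)
      (fun s => 2 * R₁ s), ∃ a : ℝ, z - w = a • eL ι := by
    intro w hw
    obtain ⟨z, hz, a, ha⟩ := KLR_proj (L' := fun _ => 0) (R' := fun s => 2 * R₁ s)
      (fun s hs => ⟨le_refl _, (p1.smul two_pos.le).nonneg s hs⟩) w hw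
    exact ⟨z, hz, -a, by rw [neg_smul, ← ha]; abel⟩
  rw [← e] at b ⊢
  exact shadow_low hS eL_ne (by norm_num) (by norm_num) b1 b2 b h0 h01 (by rw [e1]; exact l1)
    (by rw [e2]; exact l2) (fibV_fibSum _ _ _ _) (coFib_fibSum _ pr1 pr2)

theorem Low.add (hS : SHADV) (hRB : REVB) {B : Set (ι → ℝ)} (hB : IsBody B)
    {γ : ℝ} (h0 : 0 < γ) {R₁ R₂ : ℝ → ℝ} (p1 : Prof R₁) (p2 : Prof R₂)
    (l1 : Low B γ R₁) (l2 : Low B γ R₂) : Low B γ (fun s => R₁ s + R₂ s) := by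
  intro p q
  by_cases q1 : 0 < R₁ 0
  · by_cases q2 : 0 < R₂ 0
    · exact (low_add hS hRB hB h0 le_rfl p1 p2 q1 q2 (l1 p1 q1) (l2 p2 q2)).1
    · have e : KLR B (fun _ => 0) (fun s => R₁ s + R₂ s) = KLR B (fun _ => 0) R₁ :=
        KLR_congr (fun _ _ => rfl) fun s hs => by rw [p2.eq_zero q2 s hs, add_zero]
      rw [e]
      exact l1 p1 q1
  · have e : KLR B (fun _ => 0) (fun s => R₁ s + R₂ s) = KLR B (fun _ => 0) R₂ :=
      KLR_congr (fun _ _ => rfl) fun s hs => by rw [p1.eq_zero q1 s hs, zero_add]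
    rw [e]
    refine l2 p2 ?_
    have := p1.eq_zero q1 0 zero_mem
    simp only at q
    linarith

theorem Low.smul {B : Set (ι → ℝ)} {γ : ℝ} {R : ℝ → ℝ} (p : Prof R) (l : Low B γ R) {c : ℝ}
    (hc : 0 ≤ c) : Low B γ (fun s => c * R s) := by
  intro _ q
  rcases hc.eq_or_lt with rfl | hc'
  · simp at q
  · rw [F_KLR_smul hc']
    simp only at q
    exact l p (pos_of_mul_pos_of_pos_left' hc' q)
where
  pos_of_mul_pos_of_pos_left' {c r : ℝ} (hc : 0 < c) (h : 0 < c * r) : 0 < r := by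
    by_contra hcon
    push Not at hcon
    nlinarith

theorem low_sum (hS : SHADV) (hR : REVB) (hE : TCEQ) (hV : TCVOL) (hP : TCPOL)
    {B : Set (ι → ℝ)} (hB : IsBody B) (h0 : (0 : ι → ℝ) ∈ B) {a : ℝ} (ha0 : 0 ≤ a)
    {t c : ℕ → ℝ} (N : ℕ) (hc : ∀ j < N, a ≤ t j ∧ t j ≤ 1 ∧ 0 ≤ c j) :
    Low B (gam B a) (fun s => ∑ j ∈ Finset.range N, c j * tp (t j) s) := by
  have hg : 0 < gam B a := by
    unfold gam
    have : 0 < F B := mul_pos hB.vol_pos hB.dpol_pos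
    positivity
  induction N with
  | zero =>
    intro _ q
    simp at q
  | succ N ih =>
    simp only [Finset.sum_range_succ]
    obtain ⟨h1, h2, h3⟩ := hc N (by omega)
    exact Low.add hS hR hB hg (prof_sum N fun j hj => (hc j (by omega)).2.2) (prof_tp.smul h3)
      (ih fun j hj => hc j (by omega))
      (Low.smul prof_tp (low_tp hR hE hV hP hB h0 ha0 h1 h2) h3)

/-- The bound passes to uniform limits. -/
theorem low_lim (hR : REVB) (hF : FNEAR) {B : Set (ι → ℝ)} (hB : IsBody B) {γ : ℝ} {R : ℝ → ℝ}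
    (h : ∀ ε : ℝ, 0 < ε → ∃ R' : ℝ → ℝ, Prof R' ∧ Low B γ R' ∧
      ∀ s ∈ Icc (0 : ℝ) 1, |R s - R' s| ≤ ε) : Low B γ R := by
  intro p q
  by_contra hcon
  push Not at hcon
  have body : IsBody (KLR B (fun _ => 0) R) := hR ι B _ _ hB prof_zero p (by simpa using q)
  obtain ⟨ε, hε, hN⟩ := hF (ι ⊕ Unit) _ body (γ - F (KLR B (fun _ => 0) R)) (by linarith)
  obtain ⟨R', p', l', hR'⟩ := h (min ε (R 0 / 2)) (lt_min hε (by linarith))
  have q' : 0 < R' 0 := by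
    have h1 := abs_le.1 (hR' 0 zero_mem)
    have h2 : min ε (R 0 / 2) ≤ R 0 / 2 := min_le_right _ _
    linarith [h1.2]
  have body' : IsBody (KLR B (fun _ => 0) R') := hR ι B _ _ hB prof_zero p' (by simpa using q')
  have h3 := hN _ body' (near_KLR p.nonneg p'.nonneg hε.le fun s hs =>
    (hR' s hs).trans (min_le_left _ _))
  have h4 := l' p' q'
  have h5 := (abs_lt.1 h3).2
  linarith

theorem low_const (hS : SHADV) (hR : REVB) (hE : TCEQ) (hV : TCVOL) (hP : TCPOL) (hF : FNEAR)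
    (hA : APX) {B : Set (ι → ℝ)} (hB : IsBody B) (h0 : (0 : ι → ℝ) ∈ B) {a : ℝ} (ha0 : 0 ≤ a)
    (ha1 : a < 1) {R : ℝ → ℝ} (p : Prof R) (hc : ∀ s ∈ Icc (0 : ℝ) a, R s = R a) :
    Low B (gam B a) R := by
  refine low_lim hR hF hB fun ε hε => ?_
  obtain ⟨N, t, c, h1, h2⟩ := hA R a p ha0 ha1 hc ε hε
  exact ⟨_, prof_sum N fun j hj => (h1 j hj).2.2, low_sum hS hR hE hV hP hB h0 ha0 N h1, h2⟩

theorem gam_zero (hn : 0 < Fintype.card ι) (B : Set (ι → ℝ)) :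
    gam B 0 = F B * (((Fintype.card ι : ℝ) + 2) / ((Fintype.card ι : ℝ) + 1) ^ 2) := by
  unfold gam
  rw [zero_pow hn.ne']
  ring

theorem cn_le_gam (hn : 0 < Fintype.card ι) {B : Set (ι → ℝ)} (hB : Good B) :
    cn (Fintype.card ι + 1) ≤ gam B 0 := by
  rw [gam_zero hn, cn_succ, mul_comm]
  exact mul_le_mul_of_nonneg_right hB.le (by positivity)

theorem gam_lt (hn : 0 < Fintype.card ι) {B : Set (ι → ℝ)} (hB : Good B) {a : ℝ} (ha : 0 < a) :
    gam B 0 < gam B a := by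
  unfold gam
  have hF := hB.F_pos
  refine div_lt_div_of_pos_right ?_ (by positivity)
  refine mul_lt_mul_of_pos_left ?_ hF
  rw [zero_pow hn.ne']
  have : (0 : ℝ) < (Fintype.card ι : ℝ) := by exact_mod_cast hn
  have := pow_pos ha (Fintype.card ι)
  nlinarith

/-- **The one-sided bodies.** -/
theorem Good.oneSided (hS : SHADV) (hR : REVB) (hE : TCEQ) (hV : TCVOL) (hP : TCPOL) (hF : FNEAR)
    (hA : APX) (hSp : SPLIT) (hPYR : PYRA) {B : Set (ι → ℝ)} (hB : Good B)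
    (h0 : (0 : ι → ℝ) ∈ B) {R : ℝ → ℝ} (p : Prof R) (q : 0 < R 0) :
    Good (KLR B (fun _ => 0) R) := by
  have body : IsBody (KLR B (fun _ => 0) R) :=
    hR ι B _ _ hB.body prof_zero p (by simpa using q)
  rcases Nat.eq_zero_or_pos (Fintype.card ι) with hz | hn
  · refine good_small ?_ body
    rw [Fintype.card_sum, hz]
    simp
  have hcard : Fintype.card (ι ⊕ Unit) = Fintype.card ι + 1 := by simp
  have hcg := cn_le_gam hn hB
  have hcpos := cn_pos (Fintype.card ι + 1)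
  by_cases hlin : ∃ s ∈ Icc (0 : ℝ) 1, R 0 * (1 - s) < R s
  · obtain ⟨a, R₁, R₂, ha0, ha1, p1, p2, q1, hc1, hsum⟩ := hSp R p hlin
    have l1 := low_const hS hR hE hV hP hF hA hB.body h0 ha0.le ha1 p1 hc1 p1 q1
    have e : KLR B (fun _ => 0) R = KLR B (fun _ => 0) (fun s => R₁ s + R₂ s) :=
      KLR_congr (fun _ _ => rfl) hsum
    have hlt : cn (Fintype.card ι + 1) < F (KLR B (fun _ => 0) R) := by
      have hgl := gam_lt hn hB ha0
      by_cases q2 : 0 < R₂ 0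
      · have l2 := low_const hS hR hE hV hP hF hA hB.body h0 le_rfl zero_lt_one p2
          (fun s hs => by rw [show s = 0 from le_antisymm hs.2 hs.1]) p2 q2
        have e' : (fun s => R₁ s + R₂ s) = fun s => R₂ s + R₁ s := by
          funext s; ring
        rw [e, e']
        exact hcg.trans_lt ((low_add hS hR hB.body (hcpos.trans_le hcg) hgl.le p2 p1 q2 q1 l2
          l1).2 hgl)
      · have e2 : KLR B (fun _ => 0) (fun s => R₁ s + R₂ s) = KLR B (fun _ => 0) R₁ :=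
          KLR_congr (fun _ _ => rfl) fun s hs => by rw [p2.eq_zero q2 s hs, add_zero]
        rw [e, e2]
        linarith
    rw [← hcard] at hlt
    exact ⟨body, hlt.le, fun h => absurd h hlt.ne'⟩
  · -- the linear profile: a cone
    push Not at hlin
    have hR1 : R 1 = 0 := by
      have h1 := hlin 1 one_mem
      have h2 := p.nonneg 1 one_mem
      rw [sub_self, mul_zero] at h1
      linarith
    have hR' : ∀ s ∈ Icc (0 : ℝ) 1, R s = R 0 * tp 0 s := by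
      intro s hs
      have e1 : tp 0 s = 1 - s := by
        unfold tp
        rw [if_pos zero_lt_one, sub_zero, div_one]
        exact min_eq_right (by linarith [hs.1])
      rw [e1]
      refine le_antisymm (hlin s hs) ?_
      have h3 := p.conc.2 zero_mem one_mem (by linarith [hs.2] : 0 ≤ 1 - s) hs.1 (by ring)
      simp only [smul_eq_mul, mul_zero, mul_one, zero_add, hR1, add_zero] at h3
      linarith
    have e : KLR B (fun _ => 0) R = sc ι (R 0) q.ne' '' KLR B (fun _ => 0) (tp 0) := by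
      have h4 := KLR_scale (B := B) (L := fun _ => 0) (R := tp 0) q
      simp only [mul_zero] at h4
      rw [← h4]
      exact KLR_congr (fun _ _ => rfl) hR'
    obtain ⟨hE1, hE2⟩ := hE ι B hB.body.conv h0
    rw [e, hE1 0 le_rfl zero_le_one, hE2]
    refine Good.affine (Good.pyr hPYR hB ?_).1 _
    simp

/-- **The two-sided bodies.** -/
theorem Good.twoSided (hS : SHADV) (hN : SNEAR) (hFB : FIBB) (hCl : CLSG) (hR : REVB)
    (hE : TCEQ) (hV : TCVOL) (hP : TCPOL) (hF : FNEAR)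
    (hA : APX) (hSp : SPLIT) (hPYR : PYRA) {B : Set (ι → ℝ)} (hB : Good B)
    (h0 : (0 : ι → ℝ) ∈ B) {L R : ℝ → ℝ} (pL : Prof L) (pR : Prof R) (q : 0 < L 0 + R 0) :
    Good (KLR B L R) := by
  have one : ∀ {R : ℝ → ℝ}, Prof R → 0 < R 0 → Good (KLR B (fun _ => 0) R) := fun p q =>
    Good.oneSided hS hR hE hV hP hF hA hSp hPYR hB h0 p q
  by_cases qR : 0 < R 0
  · by_cases qL : 0 < L 0
    · have e := KLR_fibSum (B := B) pL prof_zero prof_zero pR
      simp only [mul_zero, add_zero, zero_add] at e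
      have e1 : KLR B L R = KLR B (fun s => L s) (fun s => R s) := rfl
      rw [e1, ← e]
      have g1 : Good (KLR B (fun s => 2 * L s) (fun _ => 0)) := by
        rw [KLR_neg]
        exact (one (pL.smul two_pos.le) (by simpa using qL)).affine _
      refine Good.fiber hS hN hFB hCl (by norm_num) (by norm_num) g1
        (one (pR.smul two_pos.le) (by simpa using qR)) ?_ ?_
      · exact KLR_proj fun s hs => ⟨le_refl _, (pR.smul two_pos.le).nonneg s hs⟩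
      · intro w hw
        obtain ⟨z, hz, a, ha⟩ := KLR_proj (L' := fun s => 2 * L s) (R' := fun _ => 0)
          (fun s hs => ⟨(pL.smul two_pos.le).nonneg s hs, le_refl _⟩) w hw
        exact ⟨z, hz, -a, by rw [neg_smul, ← ha]; abel⟩
    · have e : KLR B L R = KLR B (fun _ => 0) R := KLR_congr (pL.eq_zero qL) fun _ _ => rfl
      rw [e]
      exact one pR qR
  · have e : KLR B L R = KLR B L (fun _ => 0) := KLR_congr (fun _ _ => rfl) (pR.eq_zero qR)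
    rw [e, KLR_neg]
    have h1 := pR.eq_zero qR 0 zero_mem
    exact (one pL (by linarith)).affine _

/-- **The rule of the homothetic sections.** -/
theorem Good.rev (hS : SHADV) (hN : SNEAR) (hFB : FIBB) (hCl : CLSG) (hR : REVB)
    (hE : TCEQ) (hV : TCVOL) (hP : TCPOL) (hF : FNEAR)
    (hA : APX) (hSp : SPLIT) (hRF : REVF) (hPYR : PYRA) {B : Set (ι → ℝ)} (hB : Good B)
    (h0 : (0 : ι → ℝ) ∈ B) {f : ℝ → ℝ} (h1 : ConcaveOn ℝ (Icc 0 1) f)
    (h2 : ContinuousOn f (Icc 0 1)) (h3 : ∀ x ∈ Icc (0 : ℝ) 1, 0 ≤ f x)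
    (h4 : ∃ x ∈ Icc (0 : ℝ) 1, 0 < f x) : Good (rb B f) := by
  obtain ⟨L, R, A, pL, pR, q, hA'⟩ := hRF ι B f hB.body.conv h0 h1 h2 h3 h4
  rw [← hA']
  exact (Good.twoSided hS hN hFB hCl hR hE hV hP hF hA hSp hPYR hB h0 pL pR q).affine A

end Pool.Agent.Helper82.PN
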