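import Pool.Agent.Helper82.PN.Two
import Pool.Agent.Helper47.ME.All

/-!
# All bodies of dimension at most three are good
-/

open MeasureTheory Set
open scoped ENNReal
open Pool.Agent.Helper47.AQ

noncomputable section

namespace Pool.Agent.Helper82.PN

variable {ι κ σ : Type} [Fintype ι] [Fintype κ] [Fintype σ]

/-- Reindexing as an affine equivalence. -/
def rei (e : ι ≃ κ) : (ι → ℝ) ≃ᵃ[ℝ] (κ → ℝ) :=
  (LinearEquiv.funCongrLeft ℝ ℝ e.symm).toAffineEquiv

theorem good_of_fin {n : ℕ} (hn : Fintype.card ι = n)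
    (h : ∀ K : Set (Fin n → ℝ), IsBody K → Good K) {K : Set (ι → ℝ)} (hK : IsBody K) : Good K := by
  have e : ι ≃ Fin n := Fintype.equivFinOfCardEq hn
  exact Good.of_affine (rei e) (h _ (hK.affine _))

theorem good_zero {K : Set (Fin 0 → ℝ)} (hK : IsBody K) : Good K := by
  have h1 : K = univ := by
    obtain ⟨x, hx⟩ := hK.nonempty
    ext y
    rw [Subsingleton.elim y x]
    simp [hx]
  refine Good.simplex ⟨hK.int, Unit, inferInstance, fun _ => 0,
    affineIndependent_of_subsingleton ℝ _, ?_⟩
  rw [h1]
  ext x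
  have : x = 0 := Subsingleton.elim _ _
  simp [this]

theorem good_one {K : Set (Unit → ℝ)} (hK : IsBody K) : Good K := by
  have hc : Continuous (fun x : Unit → ℝ => x ()) := continuous_apply _
  obtain ⟨p, hp, hpm⟩ := hK.comp.exists_isMinOn hK.nonempty hc.continuousOn
  obtain ⟨q, hq, hqm⟩ := hK.comp.exists_isMaxOn hK.nonempty hc.continuousOn
  have h1 : K ⊆ {z : Unit → ℝ | p () ≤ z () ∧ z () ≤ q ()} := fun z hz => ⟨hpm hz, hqm hz⟩
  have hlt : p () < q () := by
    by_contra hcon
    push Not at hcon
    obtain ⟨x, hx⟩ := hK.int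
    obtain ⟨ε, hε, hb⟩ := Metric.isOpen_iff.1 isOpen_interior x hx
    have h2 : (fun _ => x () + ε / 2 : Unit → ℝ) ∈ K := by
      refine interior_subset (hb ?_)
      rw [Metric.mem_ball, dist_pi_lt_iff hε]
      intro u
      rw [Real.dist_eq]
      simp only [add_sub_cancel_left]
      rw [abs_of_pos (by positivity)]
      linarith
    have h3 := h1 h2
    have h4 := h1 (interior_subset hx)
    simp only [mem_ofPred_eq] at h3 h4
    linarith [h3.2, h4.1]
  have h2 : K = {z : Unit → ℝ | p () ≤ z () ∧ z () ≤ q ()} := by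
    refine Subset.antisymm h1 fun z hz => ?_
    have h3 : z ∈ segment ℝ p q := by
      have hd : 0 < q () - p () := by linarith
      refine ⟨(q () - z ()) / (q () - p ()), (z () - p ()) / (q () - p ()),
        div_nonneg (by linarith [hz.2]) hd.le, div_nonneg (by linarith [hz.1]) hd.le, ?_, ?_⟩
      · field_simp
        ring
      · funext u
        simp only [Pi.add_apply, Pi.smul_apply, smul_eq_mul]
        have hu : u = () := rfl
        subst hu
        field_simp
        ring
    exact hK.conv.segment_subset hp hq h3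
  rw [h2]
  exact good_seg hlt

theorem good_two {K : Set (Fin 2 → ℝ)} (hK : IsBody K) : Good K := by
  have hc : cn (Fintype.card (Fin 2)) = 3 / 2 := by
    unfold cn
    norm_num [Nat.factorial]
  refine ⟨hK, ?_, ?_⟩
  · rw [hc]; exact Pool.Agent.Helper72.MK.fPL K hK
  · rw [hc]; exact Pool.Agent.Helper47.ME.fPLE K hK

theorem good_three {K : Set (Fin 3 → ℝ)} (hK : IsBody K) : Good K := by
  have hc : cn (Fintype.card (Fin 3)) = 2 / 3 := by
    unfold cn
    norm_num [Nat.factorial]
  refine ⟨hK, ?_, ?_⟩
  · rw [hc]; exact Pool.Agent.Helper72.MK.fMAIN K hK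
  · rw [hc]; exact Pool.Agent.Helper47.ME.fEQ3 K hK

/-- All bodies of dimension at most three are good. -/
theorem good_small (hn : Fintype.card ι ≤ 3) {K : Set (ι → ℝ)} (hK : IsBody K) : Good K := by
  rcases Nat.lt_or_ge (Fintype.card ι) 1 with h | h
  · exact good_of_fin (n := 0) (by omega) (fun K hK => good_zero hK) hK
  rcases Nat.lt_or_ge (Fintype.card ι) 2 with h2 | h2
  · have e : ι ≃ Unit := Fintype.equivOfCardEq (by simp; omega)
    exact Good.of_affine (rei e) (good_one (hK.affine _))
  rcases Nat.lt_or_ge (Fintype.card ι) 3 with h3 | h3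
  · exact good_of_fin (n := 2) (by omega) (fun K hK => good_two hK) hK
  · exact good_of_fin (n := 3) (by omega) (fun K hK => good_three hK) hK

end Pool.Agent.Helper82.PN
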