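import Pool.Agent.Helper82.PN.Small

/-!
# Hulls of n + 3 points: the induction
-/

open MeasureTheory Set
open scoped ENNReal
open Pool.Agent.Helper47.AQ

noncomputable section

namespace Pool.Agent.Helper82.PN

variable {ι κ σ : Type} [Fintype ι] [Fintype κ] [Fintype σ]

/-- The claim in dimension `m`. -/
def TM (m : ℕ) : Prop := ∀ (ι σ : Type) [Fintype ι] [Fintype σ], Fintype.card ι = m →
  Fintype.card σ = m + 3 → ∀ x : σ → ι → ℝ, (interior (KH x)).Nonempty → Good (KH x)

theorem KH_body {x : σ → ι → ℝ} (h : (interior (KH x)).Nonempty) : IsBody (KH x) :=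
  ⟨convex_convexHull ℝ _, (finite_range x).isCompact_convexHull ℝ, h⟩

theorem KH_affine (A : (ι → ℝ) ≃ᵃ[ℝ] (κ → ℝ)) (x : σ → ι → ℝ) : A '' KH x = KH (A ∘ x) := by
  unfold KH
  rw [range_comp]
  exact AffineMap.image_convexHull (A : (ι → ℝ) →ᵃ[ℝ] (κ → ℝ)) _

theorem int_affine (A : (ι → ℝ) ≃ᵃ[ℝ] (κ → ℝ)) {x : σ → ι → ℝ} (h : (interior (KH x)).Nonempty) :
    (interior (KH (A ∘ x))).Nonempty := by
  rw [← KH_affine]
  exact ((KH_body h).affine A).int

theorem flat_of_const {q : (ι → ℝ) →ₗ[ℝ] ℝ} (hq : q ≠ 0) {S : Set (ι → ℝ)} {c : ℝ}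
    (h : ∀ z ∈ S, q z = c) : ¬ (interior (convexHull ℝ S)).Nonempty := by
  rintro ⟨p, hp⟩
  have h1 : convexHull ℝ S ⊆ {z | q z = c} := by
    refine convexHull_min h ?_
    intro a ha b hb s t hs ht hst
    simp only [mem_ofPred_eq, map_add, map_smul, smul_eq_mul] at *
    rw [ha, hb, ← add_mul, hst, one_mul]
  obtain ⟨v, hv⟩ : ∃ v, q v ≠ 0 := by
    by_contra hcon
    push Not at hcon
    exact hq (LinearMap.ext hcon)
  have h2 : Filter.Tendsto (fun δ : ℝ => p + δ • v) (nhds 0) (nhds (p + (0 : ℝ) • v)) := by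
    apply Continuous.tendsto
    fun_prop
  rw [zero_smul, add_zero] at h2
  have h3 := h2.eventually (isOpen_interior.mem_nhds hp)
  obtain ⟨ε, hε, h4⟩ := Metric.eventually_nhds_iff.1 h3
  have h5 := h4 (y := ε / 2) (by rw [dist_zero_right, Real.norm_of_nonneg (by positivity)]; linarith)
  have h6 := h1 (interior_subset h5)
  have h7 := h1 (interior_subset hp)
  simp only [mem_ofPred_eq, map_add, map_smul, smul_eq_mul] at h6 h7
  rw [h7] at h6
  have h8 : ε / 2 * q v = 0 := by linarith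
  exact (mul_ne_zero (by positivity) hv) h8

theorem exists_const_of_empty [Nonempty σ] {x : σ → ι → ℝ}
    (h : ¬ (interior (KH x)).Nonempty) :
    ∃ q : (ι → ℝ) →ₗ[ℝ] ℝ, q ≠ 0 ∧ ∃ c : ℝ, ∀ i, q (x i) = c := by
  unfold KH at h
  rw [interior_convexHull_nonempty_iff_affineSpan_eq_top] at h
  have hne : (affineSpan ℝ (range x) : Set (ι → ℝ)).Nonempty :=
    (affineSpan_nonempty ℝ).2 (range_nonempty x)
  have h1 : vectorSpan ℝ (range x) < ⊤ := by
    refine lt_top_iff_ne_top.2 fun h2 => h ?_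
    have h3 : (affineSpan ℝ (range x)).direction = ⊤ := by rw [direction_affineSpan, h2]
    exact (AffineSubspace.direction_eq_top_iff_of_nonempty hne).1 h3
  obtain ⟨q, hq, hk⟩ := Submodule.exists_le_ker_of_lt_top _ h1
  obtain ⟨i₀⟩ := ‹Nonempty σ›
  refine ⟨q, hq, q (x i₀), fun i => ?_⟩
  have h2 : x i - x i₀ ∈ vectorSpan ℝ (range x) :=
    vsub_mem_vectorSpan ℝ (mem_range_self i) (mem_range_self i₀)
  have h3 := hk h2
  rw [LinearMap.mem_ker, map_sub] at h3
  linarith

theorem eq_lift {u : ι ⊕ Unit → ℝ} (h : u (Sum.inr ()) = 0) :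
    u = lift (fun i => u (Sum.inl i)) := by
  funext o
  rcases o with o | o
  · rfl
  · exact h

/-- The linear functional on `ℝ^(ι ⊕ Unit)` built from one on `ℝ^ι` and a number. -/
def extF (q : (ι → ℝ) →ₗ[ℝ] ℝ) (β : ℝ) : (ι ⊕ Unit → ℝ) →ₗ[ℝ] ℝ where
  toFun z := q (fun i => z (Sum.inl i)) + β * z (Sum.inr ())
  map_add' a b := by
    have : (fun i => (a + b) (Sum.inl i)) = (fun i => a (Sum.inl i)) + fun i => b (Sum.inl i) := rfl
    show q (fun i => (a + b) (Sum.inl i)) + β * (a (Sum.inr ()) + b (Sum.inr ())) = _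
    rw [this, map_add]
    ring
  map_smul' t a := by
    have : (fun i => (t • a) (Sum.inl i)) = t • fun i => a (Sum.inl i) := rfl
    show q (fun i => (t • a) (Sum.inl i)) + β * (t * a (Sum.inr ())) =
      t * (q (fun i => a (Sum.inl i)) + β * a (Sum.inr ()))
    rw [this, map_smul, smul_eq_mul]
    ring

theorem extF_ne {q : (ι → ℝ) →ₗ[ℝ] ℝ} (hq : q ≠ 0) (β : ℝ) : extF q β ≠ 0 := by
  intro h
  refine hq (LinearMap.ext fun x => ?_)
  have h1 := LinearMap.congr_fun h (lift x)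
  have h2 : extF q β (lift x) = q x + β * 0 := rfl
  rw [h2] at h1
  simpa using h1

theorem extF_lift (q : (ι → ℝ) →ₗ[ℝ] ℝ) (β : ℝ) (x : ι → ℝ) : extF q β (lift x) = q x := by
  have h2 : extF q β (lift x) = q x + β * 0 := rfl
  rw [h2]; ring

/-- All the points but one in a hyperplane. -/
theorem pyrC (hPYR : PYRA) (hHC : HYPC) {m : ℕ} (hT : TM m) (hι : Fintype.card ι = m + 1)
    (hσ : Fintype.card σ = m + 4) {x : σ → ι → ℝ} (hint : (interior (KH x)).Nonempty) (j : σ)
    {q : (ι → ℝ) →ₗ[ℝ] ℝ} (hq : q ≠ 0) {c : ℝ} (hc : ∀ i, i ≠ j → q (x i) = c) : Good (KH x) := by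
  classical
  obtain ⟨A, hA⟩ := hHC ι m hι q c hq
  refine Good.of_affine A ?_
  have hint' := int_affine A hint
  rw [KH_affine]
  set u : σ → (Fin m ⊕ Unit → ℝ) := A ∘ x with hu
  have hu0 : ∀ i, i ≠ j → u i (Sum.inr ()) = 0 := fun i hi => by
    simp only [hu, Function.comp, hA, hc i hi, sub_self]
  set w : {i // i ≠ j} → Fin m → ℝ := fun i => fun k => u i.1 (Sum.inl k) with hw
  have hlw : ∀ i : {i // i ≠ j}, u i.1 = lift (w i) := fun i => eq_lift (hu0 i.1 i.2)
  have e1 : range u = insert (u j) (lift '' range w) := by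
    ext z
    constructor
    · rintro ⟨i, rfl⟩
      by_cases hi : i = j
      · rw [hi]; exact mem_insert _ _
      · exact mem_insert_of_mem _ ⟨w ⟨i, hi⟩, mem_range_self _, (hlw ⟨i, hi⟩).symm⟩
    · rintro (rfl | ⟨_, ⟨i, rfl⟩, rfl⟩)
      · exact mem_range_self j
      · exact ⟨i.1, hlw i⟩
  have e2 : KH u = convexHull ℝ (insert (u j) (lift '' KH w)) := by
    unfold KH
    rw [hull_insert_lift_hull, e1]
  have hcard : Fintype.card {i // i ≠ j} = m + 3 := by
    rw [Fintype.card_subtype_compl, Fintype.card_subtype_eq, hσ]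
    omega
  have hne : Nonempty {i // i ≠ j} := by
    rw [← Fintype.card_pos_iff, hcard]; omega
  have hyr : u j (Sum.inr ()) ≠ 0 := by
    intro h0
    have hq2 : extF (0 : (Fin m → ℝ) →ₗ[ℝ] ℝ) 1 ≠ 0 := by
      intro h
      have h1 := LinearMap.congr_fun h (Sum.elim 0 1)
      have h2 : extF (0 : (Fin m → ℝ) →ₗ[ℝ] ℝ) 1 (Sum.elim 0 1) = 0 + 1 * 1 := rfl
      rw [h2] at h1
      simp at h1
    refine flat_of_const (S := range u) (c := 0) hq2 ?_ hint'
    rintro _ ⟨i, rfl⟩
    have h2 : extF (0 : (Fin m → ℝ) →ₗ[ℝ] ℝ) 1 (u i) = 0 + 1 * u i (Sum.inr ()) := rfl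
    rw [h2]
    by_cases hi : i = j
    · rw [hi, h0]; ring
    · rw [hu0 i hi]; ring
  have hB : (interior (KH w)).Nonempty := by
    by_contra hcon
    obtain ⟨q₂, hq₂, c₂, hc₂⟩ := exists_const_of_empty hcon
    refine flat_of_const (S := range u) (c := c₂)
      (extF_ne hq₂ ((c₂ - q₂ (fun k => u j (Sum.inl k))) / u j (Sum.inr ()))) ?_ hint'
    rintro _ ⟨i, rfl⟩
    by_cases hi : i = j
    · rw [hi]
      show q₂ (fun k => u j (Sum.inl k)) +
        ((c₂ - q₂ (fun k => u j (Sum.inl k))) / u j (Sum.inr ())) * u j (Sum.inr ()) = c₂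
      rw [div_mul_cancel₀ _ hyr]; ring
    · rw [hlw ⟨i, hi⟩, extF_lift]
      exact hc₂ ⟨i, hi⟩
  rw [e2]
  exact (Good.pyr hPYR (hT (Fin m) {i // i ≠ j} (by simp) hcard w hB) hyr).1

/-- `n + 1` points in a hyperplane. -/
theorem caseA (hPYR : PYRA) (hHC : HYPC) (hHX : HYPX) (hI : TWOI) (hII : TWOII) (hIII : TWOIII)
    (hS : SHADV) (hF : FNEAR) {m : ℕ} (hT : TM m) (hι : Fintype.card ι = m + 1)
    (hσ : Fintype.card σ = m + 4) {x : σ → ι → ℝ} (hint : (interior (KH x)).Nonempty)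
    (hx : ¬ GenPos x) : Good (KH x) := by
  classical
  obtain ⟨q, c, A, hq, hAc, hA⟩ := hHX ι σ x (by omega) hx
  have hcompl : (Aᶜ).card = 2 := by rw [Finset.card_compl, hAc, hσ, hι]; omega
  obtain ⟨j, j', hjj, hAe⟩ := Finset.card_eq_two.1 hcompl
  have hmem : ∀ i, i ∉ A → i = j ∨ i = j' := by
    intro i hi
    have : i ∈ Aᶜ := Finset.mem_compl.2 hi
    rw [hAe] at this
    simpa using this
  have hjA : j ∉ A := by
    have : j ∈ Aᶜ := by rw [hAe]; simp
    exact Finset.mem_compl.1 this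
  have hjA' : j' ∉ A := by
    have : j' ∈ Aᶜ := by rw [hAe]; simp
    exact Finset.mem_compl.1 this
  by_cases h1 : q (x j) = c
  · refine pyrC hPYR hHC hT hι hσ hint j' hq (c := c) fun i hi => ?_
    by_cases hiA : i ∈ A
    · exact hA i hiA
    · rcases hmem i hiA with h | h
      · rw [h, h1]
      · exact absurd h hi
  by_cases h2 : q (x j') = c
  · refine pyrC hPYR hHC hT hι hσ hint j hq (c := c) fun i hi => ?_
    by_cases hiA : i ∈ A
    · exact hA i hiA
    · rcases hmem i hiA with h | h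
      · exact absurd h hi
      · rw [h, h2]
  obtain ⟨B, hB⟩ := hHC ι m hι q c hq
  refine Good.of_affine B ?_
  have hint' := int_affine B hint
  rw [KH_affine]
  set u : σ → (Fin m ⊕ Unit → ℝ) := B ∘ x with hu
  have hu0 : ∀ i ∈ A, u i (Sum.inr ()) = 0 := fun i hi => by
    simp only [hu, Function.comp, hB, hA i hi, sub_self]
  have huj : u j (Sum.inr ()) ≠ 0 := by
    simp only [hu, Function.comp, hB]
    exact sub_ne_zero.2 h1
  have huj' : u j' (Sum.inr ()) ≠ 0 := by
    simp only [hu, Function.comp, hB]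
    exact sub_ne_zero.2 h2
  set w : {i // i ∈ A} → Fin m → ℝ := fun i => fun k => u i.1 (Sum.inl k) with hw
  have hlw : ∀ i : {i // i ∈ A}, u i.1 = lift (w i) := fun i => eq_lift (hu0 i.1 i.2)
  have hcard : Fintype.card {i // i ∈ A} = m + 2 := by
    rw [Fintype.card_coe, hAc, hι]
  have hne : Nonempty {i // i ∈ A} := by
    rw [← Fintype.card_pos_iff, hcard]; omega
  by_cases hCint : (interior (KH w)).Nonempty
  swap
  · obtain ⟨q₂, hq₂, c₂, hc₂⟩ := exists_const_of_empty hCint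
    refine pyrC hPYR hHC hT (by simp) hσ hint' j'
      (extF_ne hq₂ ((c₂ - q₂ (fun k => u j (Sum.inl k))) / u j (Sum.inr ()))) (c := c₂)
      fun i hi => ?_
    by_cases hiA : i ∈ A
    · rw [hlw ⟨i, hiA⟩, extF_lift]
      exact hc₂ ⟨i, hiA⟩
    · rcases hmem i hiA with h | h
      · rw [h]
        show q₂ (fun k => u j (Sum.inl k)) +
          ((c₂ - q₂ (fun k => u j (Sum.inl k))) / u j (Sum.inr ())) * u j (Sum.inr ()) = c₂
        rw [div_mul_cancel₀ _ huj]; ring
      · exact absurd h hi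
  have e1 : range u = insert (u j) (insert (u j') (lift '' range w)) := by
    ext z
    constructor
    · rintro ⟨i, rfl⟩
      by_cases hi : i ∈ A
      · exact mem_insert_of_mem _ (mem_insert_of_mem _
          ⟨w ⟨i, hi⟩, mem_range_self _, (hlw ⟨i, hi⟩).symm⟩)
      · rcases hmem i hi with h | h
        · rw [h]; exact mem_insert _ _
        · rw [h]; exact mem_insert_of_mem _ (mem_insert _ _)
    · rintro (rfl | rfl | ⟨_, ⟨i, rfl⟩, rfl⟩)
      · exact mem_range_self j
      · exact mem_range_self j'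
      · exact ⟨i.1, hlw i⟩
  have e2 : KH u = convexHull ℝ (insert (u j) (insert (u j') (lift '' KH w))) := by
    unfold KH
    rw [lift_image_hull, hull_insert2, e1]
  rw [e2]
  refine two hPYR hI hII hIII hS hF (KH_body hCint) (fun p => ?_) huj huj'
  have e3 : convexHull ℝ (insert p (KH w)) =
      KH (fun o : Option {i // i ∈ A} => o.elim p w) := by
    unfold KH
    rw [hull_insert_hull]
    congr 1
    ext z
    constructor
    · rintro (rfl | ⟨i, rfl⟩)
      · exact ⟨none, rfl⟩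
      · exact ⟨some i, rfl⟩
    · rintro ⟨o, rfl⟩
      rcases o with _ | i
      · exact mem_insert _ _
      · exact mem_insert_of_mem _ (mem_range_self i)
  rw [e3]
  refine hT (Fin m) _ (by simp) (by rw [Fintype.card_option, hcard]) _ ?_
  rw [← e3]
  exact hCint.mono (interior_mono ((subset_insert _ _).trans (subset_convexHull ℝ _)))

theorem mv_zero (x : σ → ι → ℝ) (j : σ) (v : ι → ℝ) : mv x j v 0 = x := by
  classical
  unfold mv
  rw [zero_smul, add_zero, Function.update_eq_self]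

theorem mv_continuous (x : σ → ι → ℝ) (j : σ) (v : ι → ℝ) : Continuous (mv x j v) := by
  classical
  unfold mv
  refine continuous_pi fun i => ?_
  by_cases hi : i = j
  · subst hi
    simp only [Function.update_self]
    fun_prop
  · simp only [Function.update_of_ne hi]
    fun_prop

theorem mv_dist (x : σ → ι → ℝ) (j : σ) (v : ι → ℝ) (s t : ℝ) (i : σ) :
    ‖mv x j v s i - mv x j v t i‖ ≤ |s - t| * ‖v‖ := by
  classical
  unfold mv
  by_cases hi : i = j
  · subst hi
    rw [Function.update_self, Function.update_self, add_sub_add_left_eq_sub, ← sub_smul,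
      norm_smul, Real.norm_eq_abs]
  · rw [Function.update_of_ne hi, Function.update_of_ne hi, sub_self, norm_zero]
    positivity

/-- General position. -/
theorem genC (hPYR : PYRA) (hHC : HYPC) (hHX : HYPX) (hI : TWOI) (hII : TWOII) (hIII : TWOIII)
    (hS : SHADV) (hF : FNEAR) (hSN : SNEAR) (hCL : CLSD) (hSW : SWP) (hD : DIRL) (hIN : INTL)
    {m : ℕ} (hm : 1 ≤ m) (hT : TM m) (hι : Fintype.card ι = m + 1)
    (hσ : Fintype.card σ = m + 4) {x : σ → ι → ℝ} (hx : GenPos x) : Good (KH x) := by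
  have hne : Nonempty ι := by rw [← Fintype.card_pos_iff, hι]; omega
  obtain ⟨j, v, t₀, t₁, hv, ht0, ht1, hgp, hn0, hn1⟩ := hD ι σ x hx (by omega) (by omega)
  have hint : ∀ t, (interior (KH (mv x j v t))).Nonempty := hIN ι σ x hx (by omega) j v
  have g0 : Good (KH (mv x j v t₀)) :=
    caseA hPYR hHC hHX hI hII hIII hS hF hT hι hσ (hint t₀) hn0
  have g1 : Good (KH (mv x j v t₁)) :=
    caseA hPYR hHC hHX hI hII hIII hS hF hT hι hσ (hint t₁) hn1
  have hc := cn_pos (Fintype.card ι)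
  -- combination of the ends of a subinterval
  have comb : ∀ a b t, t₀ ≤ a → b ≤ t₁ → a < t → t < b →
      cn (Fintype.card ι) ≤ F (KH (mv x j v a)) → cn (Fintype.card ι) ≤ F (KH (mv x j v b)) →
      cn (Fintype.card ι) ≤ F (KH (mv x j v t)) ∧
      (F (KH (mv x j v t)) = cn (Fintype.card ι) →
        F (KH (mv x j v a)) = cn (Fintype.card ι) ∧ F (KH (mv x j v b)) = cn (Fintype.card ι)) := by
    intro a b t ha hb hat htb h1 h2
    have hab : 0 < b - a := by linarith
    have hρ0 : 0 < (t - a) / (b - a) := div_pos (by linarith) hab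
    have hρ1 : (t - a) / (b - a) < 1 := by rw [div_lt_one hab]; linarith
    have he : (1 - (t - a) / (b - a)) * a + (t - a) / (b - a) * b = t := by
      field_simp
      ring
    obtain ⟨hf, hcf⟩ := hSW ι σ x j v a b ((t - a) / (b - a)) hv (by linarith) hρ0 hρ1
      (fun s hs => hgp s ⟨by linarith [hs.1], by linarith [hs.2]⟩)
    rw [he] at hf hcf
    exact shadow hS hv hρ0 hρ1 (KH_body (hint a)) (KH_body (hint b)) (KH_body (hint t)) hf hcf
      hc h1 h2
  have hle : ∀ t, t₀ ≤ t → t ≤ t₁ → cn (Fintype.card ι) ≤ F (KH (mv x j v t)) := by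
    intro t h1 h2
    rcases h1.eq_or_lt with h1 | h1
    · rw [← h1]; exact g0.le
    rcases h2.eq_or_lt with h2 | h2
    · rw [h2]; exact g1.le
    exact (comb t₀ t₁ t le_rfl le_rfl h1 h2 g0.le g1.le).1
  have hx0 : KH x = KH (mv x j v 0) := by rw [mv_zero]
  rw [hx0]
  refine ⟨KH_body (hint 0), hle 0 ht0.le ht1.le, fun heq => ?_⟩
  have hFeq : ∀ s, t₀ ≤ s → s ≤ 0 → F (KH (mv x j v s)) = cn (Fintype.card ι) := by
    intro s h1 h2
    rcases h2.eq_or_lt with h2 | h2
    · rw [h2]; exact heq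
    · exact ((comb s t₁ 0 h1 le_rfl h2 ht1 (hle s h1 (by linarith)) g1.le).2 heq).1
  have hcl := hCL ι σ (mv x j v) t₀ 0 (mv_continuous x j v) (fun t _ => hint t)
  have hsub : Icc t₀ 0 ⊆ {t : ℝ | IsSimplex (KH (mv x j v t))} := by
    refine IsClosed.Icc_subset_of_forall_exists_gt ?_ ?_ ?_
    · have e : {t : ℝ | IsSimplex (KH (mv x j v t))} ∩ Icc t₀ 0 =
          {t : ℝ | t ∈ Icc t₀ 0 ∧ IsSimplex (KH (mv x j v t))} := by
        ext t
        exact and_comm
      rw [e]
      exact hcl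
    · exact g0.eq (hFeq t₀ le_rfl ht0.le)
    · rintro s ⟨hs1, hs2⟩ y hy
      obtain ⟨ε, hε, hnear⟩ := hSN ι (KH (mv x j v s)) hs1
      obtain ⟨δ, hδ, hδ2⟩ : ∃ δ : ℝ, 0 < δ ∧ δ * ‖v‖ ≤ ε := by
        refine ⟨ε / (‖v‖ + 1), by positivity, ?_⟩
        rw [div_mul_eq_mul_div, div_le_iff₀ (by positivity)]
        nlinarith [norm_nonneg v]
      have hs0 : s < 0 := hs2.2
      have hsy : s < y := hy
      set t := min (s + δ) (min y 0) with ht
      have hst : s < t := by
        rw [ht]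
        exact lt_min (by linarith) (lt_min hsy hs0)
      have ht0' : t ≤ 0 := (min_le_right _ _).trans (min_le_right _ _)
      have hty : t ≤ y := (min_le_right _ _).trans (min_le_left _ _)
      have htδ : t ≤ s + δ := min_le_left _ _
      refine ⟨t, ?_, hst, hty⟩
      refine hnear _ (KH_body (hint t)) (near_KH fun i => ?_) (hFeq t (by linarith [hs2.1]) ht0')
      refine (mv_dist x j v s t i).trans (le_trans ?_ hδ2)
      refine mul_le_mul_of_nonneg_right ?_ (norm_nonneg v)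
      rw [abs_sub_comm, abs_of_pos (by linarith)]
      linarith
  exact hsub ⟨ht0.le, le_rfl⟩

/-- **The theorem on n + 3 points.** -/
theorem tn (hPYR : PYRA) (hHC : HYPC) (hHX : HYPX) (hI : TWOI) (hII : TWOII) (hIII : TWOIII)
    (hS : SHADV) (hF : FNEAR) (hSN : SNEAR) (hCL : CLSD) (hSW : SWP) (hD : DIRL) (hIN : INTL)
    (m : ℕ) : TM m := by
  induction m with
  | zero =>
    intro ι σ _ _ hι hσ x hint
    exact good_small (by omega) (KH_body hint)
  | succ m ih =>
    intro ι σ _ _ hι hσ x hint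
    rcases Nat.lt_or_ge m 1 with hm | hm
    · exact good_small (by omega) (KH_body hint)
    · by_cases hx : GenPos x
      · exact genC hPYR hHC hHX hI hII hIII hS hF hSN hCL hSW hD hIN hm ih hι (by omega) hx
      · exact caseA hPYR hHC hHX hI hII hIII hS hF ih hι (by omega) hint hx

end Pool.Agent.Helper82.PN
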