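import Pool.Agent.Helper82.PN.Hull

/-!
# Two points outside the hyperplane of a body
-/

open MeasureTheory Set
open scoped ENNReal
open Pool.Agent.Helper47.AQ

noncomputable section

namespace Pool.Agent.Helper82.PN

variable {ι κ σ : Type} [Fintype ι] [Fintype κ] [Fintype σ]

/-- The real number argument. -/
theorem harm {c f f₀ f₁ w : ℝ} (hc : 0 < c) (h0 : c ≤ f₀) (h1 : c ≤ f₁) (hf : 0 < f)
    (hw0 : 0 < w) (hw1 : w < 1) (h : f⁻¹ ≤ (1 - w) * f₀⁻¹ + w * f₁⁻¹) :
    c ≤ f ∧ (f = c → f₀ = c ∧ f₁ = c) := by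
  have h2 : f₀⁻¹ ≤ c⁻¹ := inv_anti₀ hc h0
  have h3 : f₁⁻¹ ≤ c⁻¹ := inv_anti₀ hc h1
  have h4 : (1 - w) * f₀⁻¹ ≤ (1 - w) * c⁻¹ := mul_le_mul_of_nonneg_left h2 (by linarith)
  have h5 : w * f₁⁻¹ ≤ w * c⁻¹ := mul_le_mul_of_nonneg_left h3 hw0.le
  have h6 : f⁻¹ ≤ c⁻¹ := by nlinarith
  refine ⟨(inv_le_inv₀ hf hc).1 h6, fun h7 => ?_⟩
  subst h7
  have h8 : (1 - w) * f₀⁻¹ = (1 - w) * f⁻¹ := by nlinarith
  have h9 : w * f₁⁻¹ = w * f⁻¹ := by nlinarith
  constructor
  · exact inv_injective (mul_left_cancel₀ (by linarith : (1 : ℝ) - w ≠ 0) h8)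
  · exact inv_injective (mul_left_cancel₀ hw0.ne' h9)

/-- Combination of two good bodies. -/
theorem shadow (hS : SHADV) {v : ι → ℝ} {K₀ K₁ L : Set (ι → ℝ)} {ρ : ℝ} (hv : v ≠ 0)
    (h0 : 0 < ρ) (h1 : ρ < 1) (hK₀ : IsBody K₀) (hK₁ : IsBody K₁) (hL : IsBody L)
    (hf : FibV v K₀ K₁ L ρ) (hc : CoFib v K₀ K₁ L ρ) {c : ℝ} (hc0 : 0 < c) (h2 : c ≤ F K₀)
    (h3 : c ≤ F K₁) : c ≤ F L ∧ (F L = c → F K₀ = c ∧ F K₁ = c) := by
  obtain ⟨w, hw0, hw1, hw⟩ := hS ι v K₀ K₁ L ρ hv h0 h1 hK₀ hK₁ hL hf hc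
  exact harm hc0 h2 h3 (mul_pos hL.vol_pos hL.dpol_pos) hw0 hw1 hw

theorem hull_insert_mem {C : Set (ι → ℝ)} (hC : Convex ℝ C) {p : ι → ℝ} (hp : p ∈ C) :
    convexHull ℝ (insert p C) = C := by
  rw [insert_eq_of_mem hp, hC.convexHull_eq]

/-- The segment between two numbers, one negative and one positive, is good. -/
theorem good_seg {a b : ℝ} (hab : a < b) : Good {z : Unit → ℝ | a ≤ z () ∧ z () ≤ b} := by
  refine Good.simplex ?_
  have h1 : {z : Unit → ℝ | a ≤ z () ∧ z () ≤ b} =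
      convexHull ℝ (range (![(fun _ => b), (fun _ => a)] : Fin 2 → Unit → ℝ)) := by
    have h2 : range (![(fun _ => b), (fun _ => a)] : Fin 2 → Unit → ℝ) =
        insert (fun _ : Unit => b) {(fun _ : Unit => a)} := by
      rw [Matrix.range_cons, Matrix.range_cons, Matrix.range_empty, union_empty]
      rfl
    rw [h2]
    ext z
    rw [mem_hull_insert (convex_singleton _) (singleton_nonempty _)]
    constructor
    · rintro ⟨hz1, hz2⟩
      have hba : 0 < b - a := by linarith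
      refine ⟨(z () - a) / (b - a), ⟨div_nonneg (by linarith) hba.le, ?_⟩, _, rfl, ?_⟩
      · rw [div_le_one hba]; linarith
      · funext u
        simp only [Pi.add_apply, Pi.smul_apply, smul_eq_mul]
        field_simp
        ring
    · rintro ⟨t, ht, x, hx, rfl⟩
      rw [mem_singleton_iff] at hx
      subst hx
      simp only [mem_ofPred_eq, Pi.add_apply, Pi.smul_apply, smul_eq_mul]
      constructor <;> nlinarith [ht.1, ht.2]
  refine ⟨?_, Fin 2, inferInstance, _, affineIndependent_of_ne ℝ ?_, h1⟩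
  · have h2 : IsOpen {z : Unit → ℝ | a < z () ∧ z () < b} :=
      (isOpen_lt continuous_const (continuous_apply _)).inter
        (isOpen_lt (continuous_apply _) continuous_const)
    have h3 : {z : Unit → ℝ | a < z () ∧ z () < b} ⊆
        interior {z : Unit → ℝ | a ≤ z () ∧ z () ≤ b} :=
      interior_maximal (fun z hz => ⟨hz.1.le, hz.2.le⟩) h2
    refine ⟨fun _ => (a + b) / 2, h3 ⟨?_, ?_⟩⟩
    · show a < (a + b) / 2
      linarith
    · show (a + b) / 2 < b
      linarith
  · intro h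
    have : b = a := congrFun h ()
    linarith

/-- Different heights on the same side, the first point is the apex. -/
theorem two_lt (hPYR : PYRA) (hII : TWOII) (hS : SHADV) {C : Set (ι → ℝ)} (hC : IsBody C)
    (hp : ∀ p, Good (convexHull ℝ (insert p C))) {y y' : ι ⊕ Unit → ℝ}
    (h1 : 0 < y (Sum.inr ()) * y' (Sum.inr ()))
    (h2 : |y' (Sum.inr ())| < |y (Sum.inr ())|) :
    Good (convexHull ℝ (insert y (insert y' (lift '' C)))) := by
  obtain ⟨c₀, hc₀⟩ := hC.nonempty
  have hgC : Good C := by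
    have := hp c₀
    rwa [hull_insert_mem hC.conv hc₀] at this
  set h := y (Sum.inr ()) with hh
  set h' := y' (Sum.inr ()) with hh'
  have hh0 : h ≠ 0 := fun h0 => by rw [h0, zero_mul] at h1; exact lt_irrefl _ h1
  have hd : h - h' ≠ 0 := fun h0 => by
    have : h = h' := by linarith
    rw [this] at h2; exact lt_irrefl _ h2
  have hτ0 : 0 < h' / h := by
    have : h' / h = (h * h') / (h * h) := by field_simp
    rw [this]
    exact div_pos h1 (mul_self_pos.2 hh0)
  have hτ1 : h' / h < 1 := by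
    have h3 : |h' / h| < 1 := by
      rw [abs_div, div_lt_one (abs_pos.2 hh0)]; exact h2
    exact (le_abs_self _).trans_lt h3
  set W : ι ⊕ Unit → ℝ := y' - (h' / (h - h')) • (y - y') with hW
  set w : ι → ℝ := fun i => W (Sum.inl i) with hw
  have hWr : W (Sum.inr ()) = 0 := by
    simp only [hW, Pi.sub_apply, Pi.smul_apply, smul_eq_mul, ← hh, ← hh']
    field_simp
    ring
  have hlw : lift w = W := by
    funext o
    rcases o with o | o
    · rfl
    · exact hWr.symm
  set v : ι ⊕ Unit → ℝ := y - W with hv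
  have hvr : v (Sum.inr ()) = h := by
    simp only [hv, Pi.sub_apply, hWr, ← hh, sub_zero]
  have hy : lift w + v = y := by rw [hlw, hv]; abel
  have hy' : lift w + (h' / h) • v = y' := by
    funext o
    rw [hlw]
    simp only [hv, hW, Pi.add_apply, Pi.sub_apply, Pi.smul_apply, smul_eq_mul]
    field_simp
    ring
  obtain ⟨hf, hcf⟩ := hII ι C w v (h' / h) hC.conv hC.nonempty (by rw [hvr]; exact hh0) hτ0 hτ1
  rw [hy, hy'] at hf hcf
  have e0 : convexHull ℝ (insert y (insert (lift w) (lift '' C))) =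
      convexHull ℝ (insert y (lift '' convexHull ℝ (insert w C))) := by
    rw [hull_insert_lift_hull, image_insert_eq]
  rw [e0] at hf hcf
  have hyr : y (Sum.inr ()) ≠ 0 := hh0
  have g0 := Good.pyr hPYR (hp w) hyr
  have g1 := Good.pyr hPYR hgC hyr
  have hb := two_body hPYR hC y' hyr
  have hvne : v ≠ 0 := by
    intro h0
    rw [h0] at hvr
    exact hh0 hvr.symm
  obtain ⟨k1, k2⟩ := shadow hS hvne hτ0 hτ1 g0.1.body g1.1.body hb hf hcf (cn_pos _)
    g0.1.le g1.1.le
  refine ⟨hb, k1, fun k3 => ?_⟩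
  have k4 := (k2 k3).2
  rw [Fintype.card_sum, Fintype.card_unit] at k4
  exact (two_simplex (g1.2 k4) hb.int).eq k3

theorem two_comm (y y' : ι ⊕ Unit → ℝ) (C : Set (ι → ℝ)) :
    convexHull ℝ (insert y (insert y' (lift '' C))) =
      convexHull ℝ (insert y' (insert y (lift '' C))) := by
  rw [Set.insert_comm]

/-- Different heights on the same side. -/
theorem two_ne (hPYR : PYRA) (hII : TWOII) (hS : SHADV) {C : Set (ι → ℝ)} (hC : IsBody C)
    (hp : ∀ p, Good (convexHull ℝ (insert p C))) {y y' : ι ⊕ Unit → ℝ}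
    (h1 : 0 < y (Sum.inr ()) * y' (Sum.inr ())) (h2 : y (Sum.inr ()) ≠ y' (Sum.inr ())) :
    Good (convexHull ℝ (insert y (insert y' (lift '' C)))) := by
  rcases lt_trichotomy |y' (Sum.inr ())| |y (Sum.inr ())| with h3 | h3 | h3
  · exact two_lt hPYR hII hS hC hp h1 h3
  · exfalso
    rcases abs_eq_abs.1 h3 with h4 | h4
    · exact h2 h4.symm
    · rw [h4] at h1
      nlinarith [mul_self_nonneg (y (Sum.inr ()))]
  · rw [two_comm]
    exact two_lt hPYR hII hS hC hp (by rwa [mul_comm]) h3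

/-- Same side. -/
theorem two_same (hPYR : PYRA) (hII : TWOII) (hIII : TWOIII) (hS : SHADV) (hF : FNEAR)
    {C : Set (ι → ℝ)} (hC : IsBody C)
    (hp : ∀ p, Good (convexHull ℝ (insert p C))) {y y' : ι ⊕ Unit → ℝ}
    (h1 : 0 < y (Sum.inr ()) * y' (Sum.inr ())) :
    Good (convexHull ℝ (insert y (insert y' (lift '' C)))) := by
  by_cases h2 : y (Sum.inr ()) = y' (Sum.inr ())
  swap
  · exact two_ne hPYR hII hS hC hp h1 h2
  have hyr : y (Sum.inr ()) ≠ 0 := fun h0 => by rw [h0, zero_mul] at h1; exact lt_irrefl _ h1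
  obtain ⟨c₀, hc₀⟩ := hC.nonempty
  have hgC : Good C := by
    have := hp c₀
    rwa [hull_insert_mem hC.conv hc₀] at this
  -- the inequality for all points of the same height
  have key : ∀ z : ι ⊕ Unit → ℝ, z (Sum.inr ()) = y (Sum.inr ()) →
      cn (Fintype.card (ι ⊕ Unit)) ≤ F (convexHull ℝ (insert y (insert z (lift '' C)))) := by
    intro z hz
    have hb := two_body hPYR hC z hyr
    by_contra hcon
    push Not at hcon
    obtain ⟨ε, hε, hnear⟩ := hF _ _ hb (cn (Fintype.card (ι ⊕ Unit)) -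
      F (convexHull ℝ (insert y (insert z (lift '' C))))) (by linarith)
    obtain ⟨δ, hδ, hδ2⟩ : ∃ δ : ℝ, 0 < δ ∧ δ * ‖z‖ ≤ ε := by
      refine ⟨ε / (‖z‖ + 1), by positivity, ?_⟩
      rw [div_mul_eq_mul_div, div_le_iff₀ (by positivity)]
      nlinarith [norm_nonneg z]
    have hz' : z (Sum.inr ()) ≠ 0 := by rw [hz]; exact hyr
    have hg : Good (convexHull ℝ (insert y (insert (z + δ • z) (lift '' C)))) := by
      refine two_ne hPYR hII hS hC hp ?_ ?_
      · have h3 : 0 < y (Sum.inr ()) * y (Sum.inr ()) := mul_self_pos.2 hyr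
        simp only [Pi.add_apply, Pi.smul_apply, smul_eq_mul, hz]
        nlinarith [mul_pos hδ h3]
      · simp only [Pi.add_apply, Pi.smul_apply, smul_eq_mul, hz]
        intro h3
        have h4 : δ * y (Sum.inr ()) = 0 := by linarith
        exact (mul_ne_zero hδ.ne' hyr) h4
    have hn : Near ε (convexHull ℝ (insert y (insert z (lift '' C))))
        (convexHull ℝ (insert y (insert (z + δ • z) (lift '' C)))) := by
      rw [two_comm y z, two_comm y (z + δ • z)]
      refine near_hull_insert _ ?_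
      rw [sub_add_cancel_left, norm_neg, norm_smul, Real.norm_of_nonneg hδ.le]
      exact hδ2
    have h5 := hnear _ hg.body hn
    have h6 := hg.le
    rw [abs_lt] at h5
    linarith [h5.2]
  by_cases hyy : y = y'
  · subst hyy
    rw [insert_eq_of_mem (mem_insert _ _)]
    exact (Good.pyr hPYR hgC hyr).1
  have hb := two_body hPYR hC y' hyr
  refine ⟨hb, key y' h2.symm, fun k3 => ?_⟩
  have hv : y' - y ≠ 0 := fun h0 => hyy (sub_eq_zero.1 h0).symm
  have hvr : (y' - y) (Sum.inr ()) = 0 := by rw [Pi.sub_apply, h2, sub_self]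
  obtain ⟨hf, hcf⟩ := hIII ι C y (y' - y) hC.conv hC.nonempty hvr hyr
  have e1 : y + (y' - y) = y' := by abel
  rw [e1] at hf hcf
  have g1 := Good.pyr hPYR hgC hyr
  have hb2 := two_body hPYR hC (y + (2 : ℝ) • (y' - y)) hyr
  obtain ⟨-, k2⟩ := shadow hS hv (by norm_num) (by norm_num) g1.1.body hb2 hb hf hcf (cn_pos _)
    g1.1.le (key _ (by rw [Pi.add_apply, Pi.smul_apply, hvr, smul_zero, add_zero]))
  have k4 := (k2 k3).1
  rw [Fintype.card_sum, Fintype.card_unit] at k4
  exact (two_simplex (g1.2 k4) hb.int).eq k3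

/-- **Two points outside the hyperplane.** -/
theorem two (hPYR : PYRA) (hI : TWOI) (hII : TWOII) (hIII : TWOIII) (hS : SHADV) (hF : FNEAR)
    {C : Set (ι → ℝ)} (hC : IsBody C)
    (hp : ∀ p, Good (convexHull ℝ (insert p C))) {y y' : ι ⊕ Unit → ℝ}
    (h0 : y (Sum.inr ()) ≠ 0) (h0' : y' (Sum.inr ()) ≠ 0) :
    Good (convexHull ℝ (insert y (insert y' (lift '' C)))) := by
  rcases lt_or_gt_of_ne (mul_ne_zero h0 h0') with h1 | h1
  · obtain ⟨w, A, hA⟩ := hI ι C y y' hC.conv hC.nonempty h1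
    rw [← hA]
    have h2 : Good ((fun x => x - w) '' convexHull ℝ (insert w C)) := by
      have h3 := (hp w).affine (AffineEquiv.constVAdd ℝ (ι → ℝ) (-w))
      have e : (fun x => x - w) = (AffineEquiv.constVAdd ℝ (ι → ℝ) (-w) : (ι → ℝ) → (ι → ℝ)) := by
        funext x
        simp [sub_eq_neg_add]
      rw [e]
      exact h3
    refine Good.affine (Good.freeSum ?_ ?_ h2 (good_seg ?_)) A
    · exact ⟨w, subset_convexHull ℝ _ (mem_insert _ _), sub_self w⟩
    · show min (y (Sum.inr ())) (y' (Sum.inr ())) ≤ (0 : ℝ) ∧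
        (0 : ℝ) ≤ max (y (Sum.inr ())) (y' (Sum.inr ()))
      rcases mul_neg_iff.1 h1 with h4 | h4
      · exact ⟨min_le_of_right_le h4.2.le, le_max_of_le_left h4.1.le⟩
      · exact ⟨min_le_of_left_le h4.1.le, le_max_of_le_right h4.2.le⟩
    · refine min_lt_max.2 fun h5 => ?_
      rw [h5] at h1
      nlinarith [mul_self_nonneg (y' (Sum.inr ()))]
  · exact two_same hPYR hII hIII hS hF hC hp h1

end Pool.Agent.Helper82.PN
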